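import Pool.Agent.Lib.MP_8a3537_gt.ROK.Spec

/-!
# ROK, module TFA: facts on tree metrics
-/

namespace Pool.Agent.Lib.MP8a3537.ROK

open Matrix Pool.Agent.Lib.MP8a3537.UV Pool.Agent.Lib.MP8a3537.AU Pool.Agent.Lib.MP8a3537.RO

theorem specTFA : SpecTFA := by
  intro G V _ _ d hd
  refine ⟨?_, ?_, ?_⟩
  · intro g p q r h hp hr
    have h1 : d (g • q) p = d q p := by
      conv_lhs => rw [← hp]
      exact hd.iso g q p
    have h2 : d (g • q) r = d q r := by
      conv_lhs => rw [← hr]
      exact hd.iso g q r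
    have h3 := hd.four q (g • q) p r
    rw [h1, h2, add_comm (d q r) (d q p), max_self, hd.cm q p, ← h] at h3
    have h4 : d q (g • q) = 0 := by omega
    exact ((hd.d0 _ _).1 h4).symm
  · intro x1 x2 p p' hne h1 h2
    have h3 := hd.four x1 p x2 p'
    have h4 : d x1 x2 ≠ 0 := fun h => hne ((hd.d0 _ _).1 h)
    have h5 := hd.cm x2 x1
    have h6 := hd.cm p x2
    have h7 := hd.tri p x2 p'
    rcases le_max_iff.1 h3 with h8 | h8
    · omega
    · omega
  · intro x1 x2 y p h1 h2
    have h3 := hd.tri x1 x2 p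
    have h4 := hd.tri x2 y p
    omega

end Pool.Agent.Lib.MP8a3537.ROK
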