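import Pool.Agent.Lib.MP_8a3537_gt.ROK.Spec
import Pool.Agent.Lib.MP_8a3537_gt.UV.TRE

/-! Module FPT of ROK: the metric of a tree satisfies the four point condition. -/

set_option linter.all false

namespace Pool.Agent.Lib.MP8a3537.ROK

namespace FPTAux

open UV.TREAux

variable {V : Type} {T : SimpleGraph V}

/-- The second vertex of a shortest walk. -/
theorem exists_next (hT : T.IsTree) {x y : V} (h : x ≠ y) :
    ∃ x', T.Adj x x' ∧ T.dist x' y + 1 = T.dist x y := by
  obtain ⟨p, hp⟩ := hT.connected.exists_walk_length_eq_dist x y
  cases p with
  | nil => exact absurd rfl h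
  | @cons _ x' _ hadj q =>
    refine ⟨x', hadj, ?_⟩
    rw [SimpleGraph.Walk.length_cons] at hp
    have h1 : T.dist x' y ≤ q.length := SimpleGraph.dist_le q
    have h2 : T.dist x y ≤ T.dist x x' + T.dist x' y := hT.connected.dist_triangle
    have h3 : T.dist x x' = 1 := SimpleGraph.dist_eq_one_iff_adj.mpr hadj
    omega

theorem zero_iff (hT : T.IsTree) (x y : V) : T.dist x y = 0 ↔ x = y :=
  hT.connected.dist_eq_zero_iff

/-- Distances across an edge are additive. -/
theorem across (hT : T.IsTree) {x x' y : V} (hx : T.Adj x x') (hy : y ∈ Br T x x') :
    ∀ (n : ℕ) (z : V), T.dist x z = n → z ∈ Br T x' x → T.dist y z = T.dist y x + T.dist x z := by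
  intro n
  induction n using Nat.strong_induction_on with
  | _ n ih =>
    intro z hn hz
    by_cases hzx : z = x
    · subst hzx
      rw [SimpleGraph.dist_self, add_zero]
    · obtain ⟨z', hz', hd'⟩ := exists_next hT hzx
      -- facts on `z`
      have e1 : T.dist z x = n := by rw [SimpleGraph.dist_comm]; exact hn
      rw [mem_Br] at hz
      have e2 := hT.dist_eq_dist_add_one_of_adj z hx
      have e3 : T.dist z x' ≤ T.dist z z' + T.dist z' x' := hT.connected.dist_triangle
      have e4 : T.dist z z' = 1 := SimpleGraph.dist_eq_one_iff_adj.mpr hz'
      have hz'B : z' ∈ Br T x' x := by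
        rw [mem_Br]
        omega
      have e5 : T.dist x z' = T.dist z' x := SimpleGraph.dist_comm
      have ih1 := ih (T.dist x z') (by omega) z' rfl hz'B
      have e6 := hT.dist_eq_dist_add_one_of_adj y hz'
      rcases e6 with e6 | e6
      · omega
      · exfalso
        have hyB : y ∈ Br T z' z := by
          rw [mem_Br]
          omega
        by_cases hzx' : z' = x
        · subst hzx'
          have h1 := br_unique hT hz'.symm hx hyB hy
          subst h1
          rw [SimpleGraph.dist_self] at hz
          omega
        · obtain ⟨z'', hz'', hd''⟩ := exists_next hT hzx'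
          rw [mem_Br] at hz'B
          have e7 := hT.dist_eq_dist_add_one_of_adj z' hx
          have e8 : T.dist z' x' ≤ T.dist z' z'' + T.dist z'' x' := hT.connected.dist_triangle
          have e9 : T.dist z' z'' = 1 := SimpleGraph.dist_eq_one_iff_adj.mpr hz''
          have hz''B : z'' ∈ Br T x' x := by
            rw [mem_Br]
            omega
          have e10 : T.dist x z'' = T.dist z'' x := SimpleGraph.dist_comm
          have ih2 := ih (T.dist x z'') (by omega) z'' rfl hz''B
          have hyB2 : y ∈ Br T z' z'' := by
            rw [mem_Br]
            omega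
          have h1 := br_unique hT hz'.symm hz'' hyB hyB2
          subst h1
          omega

theorem four (hT : T.IsTree) : ∀ (n : ℕ) (x y z w : V), T.dist x y = n →
    T.dist x y + T.dist z w ≤
      max (T.dist x z + T.dist y w) (T.dist x w + T.dist y z) := by
  intro n
  induction n with
  | zero =>
    intro x y z w h
    rw [zero_iff hT] at h
    subst h
    have h1 : T.dist z w ≤ T.dist z x + T.dist x w := hT.connected.dist_triangle
    have h2 : T.dist z x = T.dist x z := SimpleGraph.dist_comm
    rw [SimpleGraph.dist_self]
    refine le_max_of_le_left ?_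
    omega
  | succ n ih =>
    intro x y z w h
    have hne : x ≠ y := by
      intro e
      subst e
      rw [SimpleGraph.dist_self] at h
      omega
    obtain ⟨x', hx', hd⟩ := exists_next hT hne
    have c1 : T.dist y x = T.dist x y := SimpleGraph.dist_comm
    have c2 : T.dist y x' = T.dist x' y := SimpleGraph.dist_comm
    have hy : y ∈ Br T x x' := by
      rw [mem_Br]
      omega
    have tri : T.dist z w ≤ T.dist z x + T.dist x w := hT.connected.dist_triangle
    have c3 : T.dist z x = T.dist x z := SimpleGraph.dist_comm
    rcases br_or hT hx' z with hz | hz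
    · rcases br_or hT hx' w with hw | hw
      · have ih1 := ih x' y z w (by omega)
        rw [mem_Br] at hz hw
        have e1 := hT.dist_eq_dist_add_one_of_adj z hx'
        have e2 := hT.dist_eq_dist_add_one_of_adj w hx'
        have c4 : T.dist z x' = T.dist x' z := SimpleGraph.dist_comm
        have c5 : T.dist w x = T.dist x w := SimpleGraph.dist_comm
        have c6 : T.dist w x' = T.dist x' w := SimpleGraph.dist_comm
        rcases le_max_iff.1 ih1 with h1 | h1
        · exact le_max_of_le_left (by omega)
        · exact le_max_of_le_right (by omega)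
      · have h1 := across hT hx' hy _ w rfl hw
        exact le_max_of_le_left (by omega)
    · have h1 := across hT hx' hy _ z rfl hz
      exact le_max_of_le_right (by omega)

end FPTAux

open FPTAux in
theorem specFPT : SpecFPT := by
  intro G V _ _ T hT hG
  exact
    { d0 := zero_iff hT
      cm := fun x y => SimpleGraph.dist_comm
      tri := fun x y z => hT.connected.dist_triangle
      four := fun x y z w => four hT _ x y z w rfl
      iso := fun g x y => UV.TREAux.dist_smul hT hG g x y }

end Pool.Agent.Lib.MP8a3537.ROK
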