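import Pool.Agent.Lib.MP_8a3537_gt.ROK.Spec

/-!
# ROK, module NEN: the nilpotency index drops
-/

namespace Pool.Agent.Lib.MP8a3537.ROK

open Matrix Pool.Agent.Lib.MP8a3537.UV Pool.Agent.Lib.MP8a3537.AU Pool.Agent.Lib.MP8a3537.RO

namespace NENAux

variable {A : Type} [Ring A] [StarRing A] {n N : ℕ}
  {E : ℕ → Bool → Bool → AddSubgroup (Matrix (Fin n) (Fin n) A)}

theorem eq_zero (hE : EFam E N) {k : ℕ} (hk : N ≤ k) {s t : Bool}
    {M : Matrix (Fin n) (Fin n) A} (hM : M ∈ E k s t) : M = 0 :=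
  hE.zero s t M (hE.mono N k s t hk hM)

theorem qa_mem (hE : EFam E N) {a q : Matrix (Fin n) (Fin n) A} (ha : a ∈ E 1 false true)
    (hq : q ∈ E 1 true false) : q * a ∈ E 2 true true :=
  hE.mul 1 1 true false true q a hq ha

theorem pow_mem (hE : EFam E N) {M : Matrix (Fin n) (Fin n) A} (hM : M ∈ E 2 true true) :
    ∀ i : ℕ, M ^ (i + 1) ∈ E (2 * (i + 1)) true true := by
  intro i
  induction i with
  | zero => simpa using hM
  | succ i ih =>
    rw [pow_succ]
    have h := hE.mul (2 * (i + 1)) 2 true true true _ _ ih hM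
    exact h

theorem pow_mul_mem (hE : EFam E N) {M q : Matrix (Fin n) (Fin n) A} (hM : M ∈ E 2 true true)
    (hq : q ∈ E 1 true false) : ∀ i : ℕ, M ^ i * q ∈ E (2 * i + 1) true false := by
  intro i
  induction i with
  | zero => simpa using hq
  | succ i ih =>
    rw [pow_succ', mul_assoc]
    have h := hE.mul 2 (2 * i + 1) true true false _ _ hM ih
    have e : 2 + (2 * i + 1) = 2 * (i + 1) + 1 := by ring
    rw [e] at h
    exact h

theorem zet_mem (hE : EFam E N) {a q : Matrix (Fin n) (Fin n) A} (ε : ℤˣ)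
    (ha : a ∈ E 1 false true) (hq : q ∈ E 1 true false) : zet ε N q a ∈ E 1 true false := by
  have hM : (ε : ℤ) • (q * a) ∈ E 2 true true := AddSubgroup.zsmul_mem _ (qa_mem hE ha hq) _
  unfold zet
  apply AddSubgroup.zsmul_mem
  rw [Finset.sum_mul]
  apply AddSubgroup.sum_mem
  intro i _
  exact hE.mono 1 (2 * i + 1) true false (by omega) (pow_mul_mem hE hM hq i)

theorem nu_pow (hE : EFam E N) {a b : Matrix (Fin n) (Fin n) A} (ε : ℤˣ)
    (ha : a ∈ E 1 false true) (hb : b ∈ E 3 true false) (i : ℕ) :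
    ∃ m11 m12 m21 m22 : Matrix (Fin n) (Fin n) A, m11 ∈ E (2 * i + 2) true true ∧
      m12 ∈ E (2 * i + 3) true false ∧ m21 ∈ E (2 * i + 1) false true ∧
      m22 ∈ E (2 * i + 2) false false ∧ (nu ε a 0 b) ^ (i + 1) = fromBlocks m11 m12 m21 m22 := by
  have hb' : (ε : ℤ) • b ∈ E 3 true false := AddSubgroup.zsmul_mem _ hb _
  induction i with
  | zero =>
    refine ⟨0, (ε : ℤ) • b, a, 0, AddSubgroup.zero_mem _, hb', ha, AddSubgroup.zero_mem _, ?_⟩
    rw [zero_add, pow_one, nu, conjTranspose_zero]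
  | succ i ih =>
    obtain ⟨m11, m12, m21, m22, h11, h12, h21, h22, h⟩ := ih
    refine ⟨m12 * a, m11 * ((ε : ℤ) • b), m22 * a, m21 * ((ε : ℤ) • b), ?_, ?_, ?_, ?_, ?_⟩
    · exact hE.mul (2 * i + 3) 1 true false true _ _ h12 ha
    · have h1 := hE.mul (2 * i + 2) 3 true true false _ _ h11 hb'
      have e : 2 * i + 2 + 3 = 2 * (i + 1) + 3 := by ring
      rw [e] at h1
      exact h1
    · exact hE.mul (2 * i + 2) 1 false false true _ _ h22 ha
    · exact hE.mul (2 * i + 1) 3 false true false _ _ h21 hb'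
    · rw [pow_succ, h, nu, fromBlocks_multiply]
      simp

end NENAux

open NENAux in
/-- **NEN**. -/
theorem specNEN : SpecNEN := by
  intro A _ _ ε n N E hE hN a ha q hq
  have hZ : zet ε N q a ∈ E 1 true false := zet_mem hE ε ha hq
  have hZs : (zet ε N q a)ᴴ ∈ E 1 true false := hE.star 1 true false _ hZ
  have hb : (zet ε N q a)ᴴ * a * zet ε N q a ∈ E 3 true false :=
    hE.mul 2 1 true true false _ _ (hE.mul 1 1 true false true _ _ hZs ha) hZ
  refine ⟨?_, fun h3 => eq_zero hE h3 hb, fun h3 => ?_⟩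
  · obtain ⟨k, rfl⟩ : ∃ k, N = k + 1 := ⟨N - 1, by omega⟩
    exact eq_zero hE (by omega) (pow_mem hE (qa_mem hE ha hq) k)
  · obtain ⟨k, rfl⟩ : ∃ k, N = k + 3 := ⟨N - 3, by omega⟩
    have e : k + 3 - 1 = (k + 1) + 1 := by omega
    obtain ⟨m11, m12, m21, m22, h11, h12, h21, h22, h⟩ := nu_pow hE ε ha hb (k + 1)
    rw [e, h, eq_zero hE (by omega) h11, eq_zero hE (by omega) h12, eq_zero hE (by omega) h21,
      eq_zero hE (by omega) h22, fromBlocks_zero]

end Pool.Agent.Lib.MP8a3537.ROK
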