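import Pool.Agent.Lib.MP_8a3537_gt.RO.Spec

/-!
# Arbitrary edge groups, long exchanged segments (MP_8a3537_gt, folder ROK): definitions

Paper: `/team-store/8a3537_ROK_h28.md`; the notation is that of the folder RO (`true` is the type
`1`, `false` the type `2`; first index target, second index source).
-/

namespace Pool.Agent.Lib.MP8a3537.ROK

open Matrix Pool.Agent.Lib.MP8a3537.UV Pool.Agent.Lib.MP8a3537.AU Pool.Agent.Lib.MP8a3537.RO

section Groups

variable {G : Type} [Group G]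

/-- Ping-pong data with the properties (D1), (D2) of the paper. -/
structure PPK (H : Subgroup G) (X1 X2 X3 Yp Ym : Set G) : Prop extends
    PingPong H X1 X2 X3 Yp Ym where
  yy : ∀ y, y ∈ Yp → y ∈ Ym → y ∈ H
  xh : ∀ s t x, x ∈ XX X1 X2 X3 s t → x ∉ H
  cj : ∀ s t x h, x ∈ XX X1 X2 X3 s t → h ∈ H → x * h * x⁻¹ ∈ H ∨
    ∀ y ∈ YB Yp Ym (!s), x * h * x⁻¹ * y ∉ YB Yp Ym (!s)

/-- The set `L g`. -/
def La (L : Subgroup G) (g : G) : Set G := {x | ∃ l ∈ L, x = l * g}

/-- The words from `2` to `1` which avoid `H g H`. -/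
def BX (H : Subgroup G) (X1 X2 X3 : Set G) (g : G) : Set G :=
  WS H {x | x ∈ X1 ∧ x ∉ dc H g} X2 X3 true false

/-- Alternating products of elements of `Xa` (from `true` to `false`) and `Xb` (from `false` to
`true`), with target `s`. -/
inductive YK (L : Subgroup G) (Xa Xb : Set G) : Bool → G → Prop
  | base {s : Bool} {l : G} : l ∈ L → YK L Xa Xb s l
  | sa {x y : G} : x ∈ Xa → YK L Xa Xb true y → YK L Xa Xb false (x * y)
  | sb {x y : G} : x ∈ Xb → YK L Xa Xb false y → YK L Xa Xb true (x * y)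

/-- The set of the alternating products with target `s`. -/
def YS (L : Subgroup G) (Xa Xb : Set G) (s : Bool) : Set G := {y | YK L Xa Xb s y}

/-- A half of (a part of) `Xb`: biinvariant and disjoint from its inverse. -/
structure Hf (L : Subgroup G) (Xb W : Set G) : Prop where
  sub : ∀ x ∈ W, x ∈ Xb
  bi : Bi L W
  ni : ∀ x ∈ W, x⁻¹ ∉ W

/-- The words `z1 e1 z2 e2 ⋯ zk`, `zi ∈ W`, `ei ∈ Xa`, `k ≥ 1`. -/
inductive TT (Xa W : Set G) : G → Prop
  | base {z : G} : z ∈ W → TT Xa W z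
  | cons {z e w : G} : z ∈ W → e ∈ Xa → TT Xa W w → TT Xa W (z * e * w)

/-- The set of these words. -/
def TS (Xa W : Set G) : Set G := {w | TT Xa W w}

/-- The set `T⁻¹ Xa T` of the derived data. -/
def XD (Xa W : Set G) : Set G := {z | ∃ w ∈ TS Xa W, ∃ e ∈ Xa, ∃ w' ∈ TS Xa W, z = w⁻¹ * e * w'}

end Groups

/-! ### Geometry -/

section Geometry

variable {G V : Type} [Group G] [MulAction G V]

/-- An invariant integral tree metric (`0`-hyperbolic). -/
structure TM (G : Type) {V : Type} [Group G] [MulAction G V] (d : V → V → ℕ) : Prop where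
  d0 : ∀ x y, d x y = 0 ↔ x = y
  cm : ∀ x y, d x y = d y x
  tri : ∀ x y z, d x z ≤ d x y + d y z
  four : ∀ x y z w, d x y + d z w ≤ max (d x z + d y w) (d x w + d y z)
  iso : ∀ (g : G) (x y : V), d (g • x) (g • y) = d x y

/-- The points beyond the end `x1` (`true`), beyond the end `x2` (`false`) of the segment. -/
def DD (d : V → V → ℕ) (x1 x2 : V) : Bool → Set V
  | true => {p | d x2 p = d x2 x1 + d x1 p}
  | false => {p | d x1 p = d x1 x2 + d x2 p}

/-- The ends of the data, (D3) of the paper. -/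
structure Geo (d : V → V → ℕ) (H : Subgroup G) (X1 X2 X3 : Set G) (x1 x2 : V) : Prop where
  ne : x1 ≠ x2
  st : ∀ g : G, g ∈ H ↔ g • x1 = x1 ∧ g • x2 = x2
  mv : ∀ s t x p, x ∈ XX X1 X2 X3 s t → p ∈ DD d x1 x2 t → x • p ∈ DD d x1 x2 s

/-- The theorem for all data of block type with the ends `x1`, `x2`. -/
def SE (R G : Type) {V : Type} [Ring R] [StarRing R] [Group G] [MulAction G V] (d : V → V → ℕ)
    (x1 x2 : V) : Prop :=
  ∀ (L : Subgroup G) (g : G) (Xb Yp Ym : Set G), PPK L (La L g) Xb ∅ Yp Ym →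
    Geo d L (La L g) Xb ∅ x1 x2 → g • x1 = x2 → g • x2 = x1 → Blk R (La L g) Xb

/-- `f` exchanges `x2` and `f x2`, and `x1` lies on the segment from `x2` to `f x2`, `x1 ≠ f x2`. -/
def Nx (d : V → V → ℕ) (x1 x2 : V) (f : G) : Prop :=
  f • f • x2 = x2 ∧ d x2 (f • x2) = d x2 x1 + d x1 (f • x2) ∧ f • x2 ≠ x1

/-- The stabilizer of `x` and `y` has a regular group ring. -/
def Rg (R G : Type) {V : Type} [Ring R] [StarRing R] [Group G] [MulAction G V] (x y : V) : Prop :=
  AuslanderRegular (MonoidAlgebra R ↥(MulAction.stabilizer G x ⊓ MulAction.stabilizer G y)) ∨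
    FP (MonoidAlgebra R ↥(MulAction.stabilizer G x ⊓ MulAction.stabilizer G y))

/-- The condition on the pair `x1`, `x2`: regular, or the condition holds for all longer exchanged
pairs `x2`, `f x2`. -/
inductive Gd (R G : Type) {V : Type} [Ring R] [StarRing R] [Group G] [MulAction G V]
    (d : V → V → ℕ) : V → V → Prop
  | reg {x1 x2 : V} : Rg R G x1 x2 → Gd R G d x1 x2
  | step {x1 x2 : V} : (∀ f : G, Nx d x1 x2 f → Gd R G d x2 (f • x2)) → Gd R G d x1 x2

end Geometry

/-! ### Matrices -/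

/-- `Z = ε ∑_{i < N} (ε q a)^i q`. -/
noncomputable def zet {A : Type} [Ring A] {n : ℕ} (ε : ℤˣ) (N : ℕ) (q a : Matrix (Fin n) (Fin n) A) :
    Matrix (Fin n) (Fin n) A :=
  (ε : ℤ) • ((∑ i ∈ Finset.range N, ((ε : ℤ) • (q * a)) ^ i) * q)

end Pool.Agent.Lib.MP8a3537.ROK
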