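import Pool.Agent.Lib.MP_8a3537_gt.ROK.Spec

/-!
# Module BAS: the regular case
-/

namespace Pool.Agent.Lib.MP8a3537.ROK

open Matrix Pool.Agent.Lib.MP8a3537.UV Pool.Agent.Lib.MP8a3537.AU Pool.Agent.Lib.MP8a3537.RO

namespace BASAux

variable {G : Type} [Group G]

theorem la_inv_mul {L : Subgroup G} {g : G} {Xb Yp Ym : Set G} (P : PPK L (La L g) Xb ∅ Yp Ym)
    {e e' : G} (he : e ∈ La L g) (he' : e' ∈ La L g) : e⁻¹ * e' ∈ L := by
  have hg : g ∈ La L g := ⟨1, L.one_mem, by group⟩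
  have hgi : g⁻¹ ∈ La L g := P.X1i g hg
  obtain ⟨m, hm, hm'⟩ := hgi
  have hgg : g * g ∈ L := by
    have h1 : g * g = m⁻¹ := by
      have h2 : m * (g * g) = 1 := by
        rw [← mul_assoc, ← hm']
        group
      exact (inv_eq_of_mul_eq_one_right h2).symm
    rw [h1]
    exact L.inv_mem hm
  have hc : ∀ l ∈ L, g * l * g⁻¹ ∈ L := by
    intro l hl
    obtain ⟨m1, hm1, h1⟩ := P.X1r l hl g hg
    rw [h1]
    have h2 : m1 * g * g⁻¹ = m1 := by group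
    rw [h2]
    exact hm1
  obtain ⟨l, hl, rfl⟩ := he
  obtain ⟨l', hl', rfl⟩ := he'
  have h3 : (l * g)⁻¹ * (l' * g) = (g * g)⁻¹ * (g * (l⁻¹ * l') * g⁻¹) * (g * g) := by group
  rw [h3]
  exact L.mul_mem (L.mul_mem (L.inv_mem hgg) (hc _ (L.mul_mem (L.inv_mem hl) hl'))) hgg

theorem loc {L : Subgroup G} {g : G} {Xb Yp Ym : Set G} (P : PPK L (La L g) Xb ∅ Yp Ym) :
    Loc L g (La L g) Xb Yp where
  ag := fun x => Iff.rfl
  al := P.X1l
  ar := P.X1r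
  ai := P.X1i
  an := P.X1n
  bl := P.X2l
  br := P.X2r
  bi := P.X2i
  bn := P.X2n
  y1 := P.Yp1
  yl := P.Ypl
  ya := by
    intro z hz x hx y hy
    rw [mul_assoc]
    exact P.X2Y z hz _ (P.X1Y x hx y hy)
  dj := by
    intro z hz z' hz' x hx x' hx' t ht t' ht' he
    have h1 : z⁻¹ * z' ∈ L := by
      refine P.u2 z hz z' hz' (x * t) (P.X1Y x hx t ht) (x' * t') (P.X1Y x' hx' t' ht') ?_
      rw [← mul_assoc, ← mul_assoc, he]
    have h2 : (z⁻¹ * z')⁻¹ * x ∈ La L g := P.X1l _ (L.inv_mem h1) x hx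
    have h3 : x'⁻¹ * ((z⁻¹ * z')⁻¹ * x) ∈ L := la_inv_mul P hx' h2
    have h4 : t' * t⁻¹ = x'⁻¹ * ((z⁻¹ * z')⁻¹ * x) := by
      have h5 : t' = x'⁻¹ * z'⁻¹ * (z * x * t) := by
        rw [he]
        group
      rw [h5]
      group
    rw [h4]
    exact h3

end BASAux

open BASAux in
/-- **Module BAS**. -/
theorem specBAS (hSBT : RO.SpecSBT) (hSBF : RO.SpecSBF) : SpecBAS := by
  intro R G V _ _ _ _ d x1 x2 hR L g Xb Yp Ym P hG h1 h2
  have hL : L = MulAction.stabilizer G x1 ⊓ MulAction.stabilizer G x2 := by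
    ext x
    rw [hG.st, Subgroup.mem_inf, MulAction.mem_stabilizer_iff, MulAction.mem_stabilizer_iff]
  subst hL
  rcases hR with hR | hR
  · exact hSBT R G _ g _ _ Yp (loc P) hR
  · exact hSBF R G _ g _ _ Yp (loc P) hR

end Pool.Agent.Lib.MP8a3537.ROK
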