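import Pool.Agent.Lib.MP_8a3537_gt.ROK.Spec

/-!
# MP_8a3537_gt, ROK: BLG (helper32)

The geometry of the block.
-/

namespace Pool.Agent.Lib.MP8a3537.ROK

open Matrix Pool.Agent.Lib.MP8a3537.UV Pool.Agent.Lib.MP8a3537.AU Pool.Agent.Lib.MP8a3537.RO

namespace BLGAux

variable {G V : Type} [Group G] [MulAction G V]

/-- Words map `DD t` to `DD s`. -/
theorem word {d : V → V → ℕ} {H : Subgroup G} {X1 X1' X2 X3 : Set G} {x1 x2 : V}
    (hG : Geo d H X1 X2 X3 x1 x2) (hX : ∀ x ∈ X1', x ∈ X1) {k : ℕ} {s t : Bool} {z : G}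
    (hz : Wd H X1' X2 X3 k s t z) (p : V) (hp : p ∈ DD d x1 x2 t)
    (hiso : ∀ (g : G) (x y : V), d (g • x) (g • y) = d x y) :
    z • p ∈ DD d x1 x2 s := by
  induction hz with
  | @base s h hh =>
    obtain ⟨h1, h2⟩ := (hG.st h).1 hh
    cases s with
    | true =>
      show d x2 (h • p) = d x2 x1 + d x1 (h • p)
      have hp' : d x2 p = d x2 x1 + d x1 p := hp
      have e1 : d x2 (h • p) = d x2 p := by
        conv_lhs => rw [← h2]
        exact hiso h x2 p
      have e2 : d x1 (h • p) = d x1 p := by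
        conv_lhs => rw [← h1]
        exact hiso h x1 p
      rw [e1, e2]
      exact hp'
    | false =>
      show d x1 (h • p) = d x1 x2 + d x2 (h • p)
      have hp' : d x1 p = d x1 x2 + d x2 p := hp
      have e1 : d x2 (h • p) = d x2 p := by
        conv_lhs => rw [← h2]
        exact hiso h x2 p
      have e2 : d x1 (h • p) = d x1 p := by
        conv_lhs => rw [← h1]
        exact hiso h x1 p
      rw [e1, e2]
      exact hp'
  | @cons k s r t x z hx _ ih =>
    rw [mul_smul]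
    refine hG.mv s r x _ ?_ (ih hp)
    revert hx
    cases s <;> cases r
    · exact fun hx => hx
    · exact fun hx => hX x hx
    · exact fun hx => hx
    · exact fun hx => hx

end BLGAux

open BLGAux

/-- BLG -/
theorem specBLG (hTFA : SpecTFA) (_hSBK : SpecSBK) : SpecBLG := by
  intro G V _ _ d hd H X1 X2 X3 Yp Ym x1 x2 hP hG g hg hgg
  obtain ⟨t1, t2, t3⟩ := hTFA G V d hd
  have d0 : ∀ x : V, d x x = 0 := fun x => (hd.d0 x x).2 rfl
  have hx1 : x1 ∈ DD d x1 x2 true := by
    show d x2 x1 = d x2 x1 + d x1 x1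
    rw [d0, add_zero]
  have star : d x1 (g • x1) = d x1 x2 + d x2 (g • x1) := hG.mv false true g x1 hg hx1
  have hgx : g • g • x1 = x1 := by
    rw [smul_smul]
    exact ((hG.st _).1 hgg).1
  have hpos : 0 < d x1 x2 := Nat.pos_of_ne_zero fun h => hG.ne ((hd.d0 _ _).1 h)
  have hne : x1 ≠ g • x1 := by
    intro h
    have h1 : d x1 (g • x1) = 0 := (hd.d0 _ _).2 h
    omega
  have star' : d (g • x1) x1 = d (g • x1) (g • x2) + d (g • x2) x1 := by
    have h1 : d (g • x1) (g • g • x1) = d (g • x1) (g • x2) + d (g • x2) (g • g • x1) := by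
      rw [hd.iso, hd.iso, hd.iso]
      exact star
    rw [hgx] at h1
    exact h1
  have hst : ∀ x : G, x ∈ Kg H g ↔ x • x1 = x1 ∧ x • (g • x1) = g • x1 := by
    intro x
    rw [mem_Kg]
    constructor
    · rintro ⟨h1, h2⟩
      refine ⟨((hG.st x).1 h1).1, ?_⟩
      have h3 := ((hG.st _).1 h2).1
      rw [mul_assoc, mul_smul, inv_smul_eq_iff, mul_smul] at h3
      exact h3
    · rintro ⟨h1, h2⟩
      have h3 : x • x2 = x2 := t1 x x1 x2 (g • x1) star h1 h2
      have h4 : x • (g • x2) = g • x2 := t1 x (g • x1) (g • x2) x1 star' h2 h1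
      refine ⟨(hG.st x).2 ⟨h1, h3⟩, (hG.st _).2 ⟨?_, ?_⟩⟩
      · rw [mul_assoc, mul_smul, inv_smul_eq_iff, mul_smul]
        exact h2
      · rw [mul_assoc, mul_smul, inv_smul_eq_iff, mul_smul]
        exact h4
  refine ⟨⟨hne, hst, ?_⟩, hgx, fun h => ⟨hgx, star, h⟩⟩
  intro s t x p hx hp
  cases s <;> cases t
  · -- (false, false)
    exact absurd hx (Set.notMem_empty _)
  · -- (false, true)
    obtain ⟨l, hl, rfl⟩ := hx
    obtain ⟨h1, h2⟩ := (hst l).1 hl
    have hp' : d (g • x1) p = d (g • x1) x1 + d x1 p := hp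
    show d x1 ((l * g) • p) = d x1 (g • x1) + d (g • x1) ((l * g) • p)
    have e1 : d x1 ((l * g) • p) = d (g • x1) p := by
      rw [mul_smul]
      calc d x1 (l • g • p) = d (l • x1) (l • g • p) := by rw [h1]
        _ = d x1 (g • p) := hd.iso _ _ _
        _ = d (g • g • x1) (g • p) := by rw [hgx]
        _ = d (g • x1) p := hd.iso _ _ _
    have e2 : d (g • x1) ((l * g) • p) = d x1 p := by
      rw [mul_smul]
      calc d (g • x1) (l • g • p) = d (l • g • x1) (l • g • p) := by rw [h2]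
        _ = d (g • x1) (g • p) := hd.iso _ _ _
        _ = d x1 p := hd.iso _ _ _
    rw [e1, e2, hp', hd.cm (g • x1) x1]
  · -- (true, false)
    obtain ⟨k, hk⟩ := hx
    have hp' : d x1 p = d x1 (g • x1) + d (g • x1) p := hp
    have hp2 : p ∈ DD d x1 x2 false := t3 x1 x2 (g • x1) p star hp'
    have hz : x • p ∈ DD d x1 x2 true := word hG (fun y hy => hy.1) hk p hp2 hd.iso
    have hz' : d x2 (x • p) = d x2 x1 + d x1 (x • p) := hz
    have h5 := t2 x1 x2 (g • x1) (x • p) hG.ne star hz'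
    show d (g • x1) (x • p) = d (g • x1) x1 + d x1 (x • p)
    rw [h5, hd.cm (g • x1) x1, star, hd.cm (g • x1) x2, hd.cm x2 x1]
    ring
  · -- (true, true)
    exact absurd hx (Set.notMem_empty _)

end Pool.Agent.Lib.MP8a3537.ROK
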