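import Pool.Agent.Lib.MP_8a3537_gt.ROK.Spec

/-!
# Module BLK: the block is again data
-/

namespace Pool.Agent.Lib.MP8a3537.ROK

open Matrix Pool.Agent.Lib.MP8a3537.UV Pool.Agent.Lib.MP8a3537.AU Pool.Agent.Lib.MP8a3537.RO

namespace BLKAux

variable {G : Type} [Group G]

theorem yk_left {L : Subgroup G} {Xa Xb : Set G} (ha : ∀ l ∈ L, ∀ x ∈ Xa, l * x ∈ Xa)
    (hb : ∀ l ∈ L, ∀ x ∈ Xb, l * x ∈ Xb) {s : Bool} {y l : G} (hl : l ∈ L)
    (hy : YK L Xa Xb s y) : YK L Xa Xb s (l * y) := by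
  cases hy with
  | base h => exact YK.base (L.mul_mem hl h)
  | @sa x y hx hy =>
    rw [← mul_assoc]
    exact YK.sa (ha l hl x hx) hy
  | @sb x y hx hy =>
    rw [← mul_assoc]
    exact YK.sb (hb l hl x hx) hy

end BLKAux

open BLKAux in
/-- **Module BLK**. -/
theorem specBLK (hWDA : RO.SpecWDA) (hWNI : RO.SpecWNI) (hWDK : SpecWDK) (hSBK : SpecSBK)
    (hCLC : SpecCLC) : SpecBLK := by
  intro G _ H X1 X2 X3 Yp Ym P g hg hgg
  obtain ⟨k0, k1⟩ := hWDK G H X1 X2 X3 Yp Ym P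
  obtain ⟨b1, b2, ⟨b3, b3i, b3m⟩, b4, b5⟩ := hSBK G H X1 X2 X3 Yp Ym P.toPingPong g hg hgg
  obtain ⟨w1, w2, w3, w4, w5⟩ := hWDA G H X1 X2 X3 Yp Ym _ b4
  obtain ⟨k1', k2⟩ := k1 _ b4
  have hLH : ∀ l ∈ Kg H g, l ∈ H := fun l hl => ((mem_Kg H g l).mp hl).1
  have hb1 : ∀ l ∈ Kg H g, ∀ x ∈ BX H X1 X2 X3 g, l * x ∈ BX H X1 X2 X3 g := by
    rintro l hl x ⟨k, hk⟩
    exact ⟨k, (w1 k true false x l (hLH l hl) hk).1⟩
  have hb2 : ∀ l ∈ Kg H g, ∀ x ∈ BX H X1 X2 X3 g, x * l ∈ BX H X1 X2 X3 g := by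
    rintro l hl x ⟨k, hk⟩
    exact ⟨k, (w1 k true false x l (hLH l hl) hk).2⟩
  have ha1 : ∀ l ∈ Kg H g, ∀ x ∈ La (Kg H g) g, l * x ∈ La (Kg H g) g := fun l hl x hx =>
    (b3 l hl x hx).1
  have hYH : ∀ y ∈ YS (Kg H g) (La (Kg H g) g) (BX H X1 X2 X3 g) false, y ∈ H → y ∈ Kg H g := by
    intro y hy hyH
    have hy' : YK (Kg H g) (La (Kg H g) g) (BX H X1 X2 X3 g) false y := hy
    cases hy' with
    | base h => exact h
    | @sa x t hx ht => exact (k0 false true x t (b2 x hx).1 (b5 true t ht) hyH).elim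
  have hword : ∀ z ∈ BX H X1 X2 X3 g, z ∉ H := by
    rintro z ⟨k, hk⟩ hzH
    cases k with
    | zero => cases hk
    | succ k =>
      have h1 := k1' k true false z 1 hk (P.Ym1)
      rw [mul_one] at h1
      exact h1 hzH
  refine
    { X1l := ha1
      X1r := fun l hl x hx => (b3 l hl x hx).2
      X1i := b3i
      X1n := fun x hx => P.X1n x (b2 x hx).1
      X2l := hb1
      X2r := hb2
      X2i := ?_
      X2n := ?_
      X3l := fun _ _ x hx => hx.elim
      X3r := fun _ _ x hx => hx.elim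
      Yp1 := YK.base (Kg H g).one_mem
      Ym1 := YK.base (Kg H g).one_mem
      Ypl := fun l hl y hy => yk_left ha1 hb1 hl hy
      Yml := fun l hl y hy => yk_left ha1 hb1 hl hy
      X1Y := fun x hx y hy => YK.sa hx hy
      X2Y := fun x hx y hy => YK.sb hx hy
      X3Y := fun x hx => hx.elim
      X3Y' := fun x hx => (show x⁻¹ ∈ (∅ : Set G) from hx).elim
      d23 := fun _ _ _ _ x' hx' => hx'.elim
      d13 := fun _ _ _ _ x' hx' => (show x'⁻¹ ∈ (∅ : Set G) from hx').elim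
      u1 := fun x hx x' hx' _ _ _ _ _ => b3m x hx x' hx'
      u2 := ?_
      u3 := fun x hx => hx.elim
      u3' := fun x hx => (show x⁻¹ ∈ (∅ : Set G) from hx).elim
      yy := ?_
      xh := ?_
      cj := ?_ }
  · -- X2i
    rintro x ⟨k, hk⟩
    exact ⟨k, w3 k true false x hk⟩
  · -- X2n
    rintro x ⟨k, hk⟩ he
    refine hWNI G H X1 X2 X3 Yp Ym _ b4 k true x hk ?_
    nth_rewrite 1 [← he]
    exact inv_mul_cancel x
  · -- u2
    rintro x ⟨k, hk⟩ x' ⟨k', hk'⟩ y hy y' hy' he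
    exact hCLC G H X1 X2 X3 Yp Ym P g hg hgg k k' true x x' y y' hk hk' hy hy' he
  · -- yy
    intro y hy hy'
    exact hYH y hy' (P.yy y (b5 true y hy) (b5 false y hy'))
  · -- xh
    intro s t x hx hxL
    cases s <;> cases t
    · exact (show x⁻¹ ∈ (∅ : Set G) from hx).elim
    · exact P.xh false true x (b2 x hx).1 (hLH x hxL)
    · exact hword x hx (hLH x hxL)
    · exact (show x ∈ (∅ : Set G) from hx).elim
  · -- cj
    intro s t x h hx hh
    cases s <;> cases t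
    · exact (show x⁻¹ ∈ (∅ : Set G) from hx).elim
    · left
      obtain ⟨l, hl, rfl⟩ := hx
      have e1 : l * g * h * (l * g)⁻¹ = l * (g * h * g⁻¹) * l⁻¹ := by group
      rw [e1]
      exact (Kg H g).mul_mem ((Kg H g).mul_mem hl (b1 h hh).1) ((Kg H g).inv_mem hl)
    · obtain ⟨k, hk⟩ := hx
      by_cases hH : x * h * x⁻¹ ∈ H
      · by_cases hL : x * h * x⁻¹ ∈ Kg H g
        · exact Or.inl hL
        · right
          intro y hy hy'
          apply hL
          have h1 := hCLC G H X1 X2 X3 Yp Ym P g hg hgg 0 0 false (x * h * x⁻¹) 1 y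
            (x * h * x⁻¹ * y) (Wd.base hH) (Wd.base H.one_mem) hy hy' (one_mul _).symm
          rw [mul_one] at h1
          have h2 := (Kg H g).inv_mem h1
          rwa [inv_inv] at h2
      · right
        rcases k2 k true false x h hk (hLH h hh) with h1 | h1
        · exact (hH h1).elim
        · intro y hy hy'
          exact h1 y (b5 false y hy) (b5 false _ hy')
    · exact (show x ∈ (∅ : Set G) from hx).elim

end Pool.Agent.Lib.MP8a3537.ROK
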