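import Pool.Agent.Lib.MP_8a3537_gt.ROK.Spec

/-!
# Module CLC: paper CLAIM C
-/

namespace Pool.Agent.Lib.MP8a3537.ROK

open Matrix Pool.Agent.Lib.MP8a3537.UV Pool.Agent.Lib.MP8a3537.AU Pool.Agent.Lib.MP8a3537.RO

namespace CLCAux

variable {G : Type} [Group G]

/-- The shape of the elements of `YS false`. -/
theorem ys_false {L : Subgroup G} {Xa Xb : Set G} {y : G} (hy : y ∈ YS L Xa Xb false) :
    y ∈ L ∨ ∃ x ∈ Xa, ∃ t ∈ YS L Xa Xb true, y = x * t := by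
  have hy' : YK L Xa Xb false y := hy
  cases hy' with
  | base h => exact Or.inl h
  | @sa x t hx ht => exact Or.inr ⟨x, hx, t, ht, rfl⟩

theorem XX_sub {X1 X1' X2 X3 : Set G} (h : X1' ⊆ X1) (s r : Bool) {x : G}
    (hx : x ∈ XX X1' X2 X3 s r) : x ∈ XX X1 X2 X3 s r := by
  cases s <;> cases r
  · exact hx
  · exact h hx
  · exact hx
  · exact hx

/-- Both words are in `H`. -/
theorem case_hh {H : Subgroup G} {X1 X2 X3 Yp Ym : Set G} (hK : SpecWDK) (hB : SpecSBK)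
    (P : PPK H X1 X2 X3 Yp Ym) {g : G} (hg : g ∈ X1) (hgg : g * g ∈ H) {h y y' : G} (hh : h ∈ H)
    (hy : y ∈ YS (Kg H g) (La (Kg H g) g) (BX H X1 X2 X3 g) false)
    (hy' : y' ∈ YS (Kg H g) (La (Kg H g) g) (BX H X1 X2 X3 g) false) (he : h * y = y') :
    h ∈ Kg H g := by
  obtain ⟨k0, -⟩ := hK G H X1 X2 X3 Yp Ym P
  obtain ⟨b1, b2, b3, b4, b5⟩ := hB G H X1 X2 X3 Yp Ym P.toPingPong g hg hgg
  have hLH : ∀ l ∈ Kg H g, l ∈ H := fun l hl => ((mem_Kg H g l).mp hl).1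
  rcases ys_false hy with hyL | ⟨x, hx, t, ht, rfl⟩
  · rcases ys_false hy' with hyL' | ⟨x', hx', t', ht', rfl⟩
    · have h1 : h = y' * y⁻¹ := by rw [← he]; group
      rw [h1]
      exact (Kg H g).mul_mem hyL' ((Kg H g).inv_mem hyL)
    · exfalso
      refine k0 false true x' t' (b2 x' hx').1 (b5 true t' ht') ?_
      rw [← he]
      exact H.mul_mem hh (hLH y hyL)
  · rcases ys_false hy' with hyL' | ⟨x', hx', t', ht', rfl⟩
    · exfalso
      refine k0 false true x t (b2 x hx).1 (b5 true t ht) ?_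
      have h1 : x * t = h⁻¹ * y' := by rw [← he]; group
      rw [h1]
      exact H.mul_mem (H.inv_mem hh) (hLH y' hyL')
    · obtain ⟨l, hl, rfl⟩ := hx
      obtain ⟨l', hl', rfl⟩ := hx'
      have hH : l'⁻¹ * h * l ∈ H :=
        H.mul_mem (H.mul_mem (H.inv_mem (hLH l' hl')) hh) (hLH l hl)
      have hXi : g⁻¹ ∈ XX X1 X2 X3 false true := P.X1i g hg
      have e1 : g⁻¹ * (l'⁻¹ * h * l) * (g⁻¹)⁻¹ * t = t' := by
        have e2 : g⁻¹ * (l'⁻¹ * h * l) * (g⁻¹)⁻¹ * t = (l' * g)⁻¹ * (h * (l * g * t)) := by group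
        rw [e2, he]
        group
      rcases P.cj false true g⁻¹ _ hXi hH with hc | hc
      · have h2 : l'⁻¹ * h * l ∈ Kg H g := by
          rw [mem_Kg]
          refine ⟨hH, ?_⟩
          rwa [inv_inv] at hc
        have h3 : h = l' * (l'⁻¹ * h * l) * l⁻¹ := by group
        rw [h3]
        exact (Kg H g).mul_mem ((Kg H g).mul_mem hl' h2) ((Kg H g).inv_mem hl)
      · exfalso
        refine hc t (b5 true t ht) ?_
        rw [e1]
        exact b5 true t' ht'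

/-- One word in `H`, the other one not. -/
theorem case_hc {H : Subgroup G} {X1 X2 X3 Yp Ym : Set G} (hU : RO.SpecUNQ) (hW : RO.SpecWDA)
    (hK : SpecWDK) (hB : SpecSBK) (P : PPK H X1 X2 X3 Yp Ym) {g : G} (hg : g ∈ X1)
    (hgg : g * g ∈ H) {h y y' : G} (hh : h ∈ H) (k : ℕ) (r : Bool) {x1 z1 : G}
    (hx1 : x1 ∈ XX {x | x ∈ X1 ∧ x ∉ dc H g} X2 X3 false r)
    (hz1 : Wd H {x | x ∈ X1 ∧ x ∉ dc H g} X2 X3 k r false z1)
    (hy : y ∈ YS (Kg H g) (La (Kg H g) g) (BX H X1 X2 X3 g) false)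
    (hy' : y' ∈ YS (Kg H g) (La (Kg H g) g) (BX H X1 X2 X3 g) false)
    (he : h * y = x1 * z1 * y') : False := by
  obtain ⟨k0, k1⟩ := hK G H X1 X2 X3 Yp Ym P
  obtain ⟨b1, b2, b3, b4, b5⟩ := hB G H X1 X2 X3 Yp Ym P.toPingPong g hg hgg
  obtain ⟨-, -, -, w4, -⟩ := hW G H X1 X2 X3 Yp Ym _ b4
  obtain ⟨-, u2, -, -⟩ := hU G H X1 X2 X3 Yp Ym P.toPingPong
  have hLH : ∀ l ∈ Kg H g, l ∈ H := fun l hl => ((mem_Kg H g l).mp hl).1
  have hz1y : z1 * y' ∈ YB Yp Ym r := w4 k r false z1 y' hz1 (b5 false y' hy')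
  rcases ys_false hy with hyL | ⟨x, hx, t, ht, rfl⟩
  · refine k0 false r x1 (z1 * y') (XX_sub b4.sub false r hx1) hz1y ?_
    rw [← mul_assoc, ← he]
    exact H.mul_mem hh (hLH y hyL)
  · have hhx : h * x ∈ XX X1 X2 X3 false true := P.X1l h hh x (b2 x hx).1
    have he' : (h * x) * t = x1 * (z1 * y') := by rw [mul_assoc, he, mul_assoc]
    obtain ⟨hr, hH⟩ := u2 false true r (h * x) t x1 (z1 * y') hhx (b5 true t ht)
      (XX_sub b4.sub false r hx1) hz1y he'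
    subst hr
    apply hx1.2
    obtain ⟨a, ha, b, hb, hab⟩ := (b2 x hx).2
    refine ⟨h * a, H.mul_mem hh ha, b * ((h * x)⁻¹ * x1), H.mul_mem hb hH, ?_⟩
    have e1 : h * a * g * (b * ((h * x)⁻¹ * x1)) = h * (a * g * b) * ((h * x)⁻¹ * x1) := by group
    rw [e1, ← hab]
    group

/-- The general claim. -/
theorem claim {H : Subgroup G} {X1 X2 X3 Yp Ym : Set G} (hU : RO.SpecUNQ) (hW : RO.SpecWDA)
    (hK : SpecWDK) (hB : SpecSBK) (P : PPK H X1 X2 X3 Yp Ym) {g : G} (hg : g ∈ X1)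
    (hgg : g * g ∈ H) (k : ℕ) (s f : Bool) (z : G)
    (hz : Wd H {x | x ∈ X1 ∧ x ∉ dc H g} X2 X3 k s f z) :
    f = false → ∀ (k' : ℕ) (z' : G), Wd H {x | x ∈ X1 ∧ x ∉ dc H g} X2 X3 k' s f z' →
    ∀ y ∈ YS (Kg H g) (La (Kg H g) g) (BX H X1 X2 X3 g) false,
    ∀ y' ∈ YS (Kg H g) (La (Kg H g) g) (BX H X1 X2 X3 g) false,
    z * y = z' * y' → z⁻¹ * z' ∈ Kg H g := by
  have hpp := P.toPingPong
  obtain ⟨b1, b2, b3, b4, b5⟩ := hB G H X1 X2 X3 Yp Ym hpp g hg hgg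
  obtain ⟨w1, -, -, w4, -⟩ := hW G H X1 X2 X3 Yp Ym _ b4
  obtain ⟨-, u2, -, -⟩ := hU G H X1 X2 X3 Yp Ym hpp
  induction hz with
  | @base s h hh =>
    intro hf k' z' hz' y hy y' hy' he
    subst hf
    cases hz' with
    | base hh' =>
      have h1 : (z'⁻¹ * h) ∈ Kg H g := by
        refine case_hh hK hB P hg hgg (H.mul_mem (H.inv_mem hh') hh) hy hy' ?_
        rw [mul_assoc, he, inv_mul_cancel_left]
      have h2 : h⁻¹ * z' = (z'⁻¹ * h)⁻¹ := by group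
      rw [h2]
      exact (Kg H g).inv_mem h1
    | @cons k _ r _ x1 z1 hx1 hz1 =>
      exact (case_hc hU hW hK hB P hg hgg hh k r hx1 hz1 hy hy' he).elim
  | @cons k s r f x1 z1 hx1 hz1 ih =>
    intro hf k' z' hz' y hy y' hy' he
    subst hf
    cases hz' with
    | base hh' =>
      exact (case_hc hU hW hK hB P hg hgg hh' k r hx1 hz1 hy' hy he.symm).elim
    | @cons k' _ r' _ x1' z1' hx1' hz1' =>
      have hyr : z1 * y ∈ YB Yp Ym r := w4 k r false z1 y hz1 (b5 false y hy)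
      have hyr' : z1' * y' ∈ YB Yp Ym r' := w4 k' r' false z1' y' hz1' (b5 false y' hy')
      have he' : x1 * (z1 * y) = x1' * (z1' * y') := by
        rw [← mul_assoc, ← mul_assoc, he]
      obtain ⟨hr, hH⟩ := u2 s r r' x1 (z1 * y) x1' (z1' * y') (XX_sub b4.sub s r hx1) hyr
        (XX_sub b4.sub s r' hx1') hyr' he'
      subst hr
      have hwd : Wd H {x | x ∈ X1 ∧ x ∉ dc H g} X2 X3 k' r false ((x1⁻¹ * x1') * z1') :=
        (w1 k' r false z1' (x1⁻¹ * x1') hH hz1').1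
      have h1 : z1⁻¹ * ((x1⁻¹ * x1') * z1') ∈ Kg H g := by
        refine ih rfl k' _ hwd y hy y' hy' ?_
        have e3 : x1⁻¹ * x1' * z1' * y' = x1⁻¹ * (x1' * z1' * y') := by group
        rw [e3, ← he]
        group
      have e4 : (x1 * z1)⁻¹ * (x1' * z1') = z1⁻¹ * ((x1⁻¹ * x1') * z1') := by group
      rw [e4]
      exact h1

end CLCAux

/-- **Module CLC**. -/
theorem specCLC (hU : RO.SpecUNQ) (hW : RO.SpecWDA) (hK : SpecWDK) (hB : SpecSBK) : SpecCLC := by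
  intro G _ H X1 X2 X3 Yp Ym P g hg hgg k k' s z z' y y' hz hz' hy hy' he
  exact CLCAux.claim hU hW hK hB P hg hgg k s false z hz rfl k' z' hz' y hy y' hy' he

end Pool.Agent.Lib.MP8a3537.ROK
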