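import Pool.Agent.Lib.MP_8a3537_gt.ROK.Spec

/-!
# Module DRA: words in a half
-/

namespace Pool.Agent.Lib.MP8a3537.ROK

open Matrix Pool.Agent.Lib.MP8a3537.UV Pool.Agent.Lib.MP8a3537.AU Pool.Agent.Lib.MP8a3537.RO

namespace DRAAux

variable {G : Type} [Group G] {L : Subgroup G} {g : G} {Xb Yp Ym W : Set G}

theorem d1a (P : PPK L (La L g) Xb ∅ Yp Ym) {e e' : G} (he : e ∈ La L g) (he' : e' ∈ La L g) :
    e⁻¹ * e' ∈ L := by
  have hg : g ∈ La L g := ⟨1, L.one_mem, by group⟩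
  obtain ⟨m, hm, hm'⟩ := P.X1i g hg
  have hgg : g * g ∈ L := by
    have h1 : g * g = m⁻¹ := by
      have h2 : m * (g * g) = 1 := by
        rw [← mul_assoc, ← hm']
        group
      exact (inv_eq_of_mul_eq_one_right h2).symm
    rw [h1]
    exact L.inv_mem hm
  have hc : ∀ l ∈ L, g * l * g⁻¹ ∈ L := by
    intro l hl
    obtain ⟨m1, hm1, h1⟩ := P.X1r l hl g hg
    rw [h1]
    have h2 : m1 * g * g⁻¹ = m1 := by group
    rw [h2]
    exact hm1
  obtain ⟨l, hl, rfl⟩ := he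
  obtain ⟨l', hl', rfl⟩ := he'
  have h3 : (l * g)⁻¹ * (l' * g) = (g * g)⁻¹ * (g * (l⁻¹ * l') * g⁻¹) * (g * g) := by group
  rw [h3]
  exact L.mul_mem (L.mul_mem (L.inv_mem hgg) (hc _ (L.mul_mem (L.inv_mem hl) hl'))) hgg

theorem d1b (P : PPK L (La L g) Xb ∅ Yp Ym) {e e' : G} (he : e ∈ La L g) (he' : e' ∈ La L g) :
    e * e' ∈ L := by
  have h := d1a P (P.X1i e he) he'
  rwa [inv_inv] at h

theorem d2l (hf : Hf L Xb W) {w : G} (hw : TT (La L g) W w) : ∀ l ∈ L, TT (La L g) W (l * w) := by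
  intro l hl
  cases hw with
  | base hz => exact TT.base (hf.bi.1 l hl _ hz)
  | @cons z e w hz he hw =>
    have h1 : l * (z * e * w) = (l * z) * e * w := by group
    rw [h1]
    exact TT.cons (hf.bi.1 l hl z hz) he hw

theorem d2r (hf : Hf L Xb W) {w : G} (hw : TT (La L g) W w) : ∀ l ∈ L, TT (La L g) W (w * l) := by
  intro l hl
  induction hw with
  | base hz => exact TT.base (hf.bi.2 l hl _ hz)
  | @cons z e w hz he hw ih =>
    have h1 : z * e * w * l = z * e * (w * l) := by group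
    rw [h1]
    exact TT.cons hz he ih

theorem d3 {Xa : Set G} {w : G} (hw : TT Xa W w) : ∀ e ∈ Xa, ∀ w', TT Xa W w' →
    TT Xa W (w * e * w') := by
  intro e he w' hw'
  induction hw with
  | base hz => exact TT.cons hz he hw'
  | @cons z e1 w1 hz he1 hw1 ih =>
    have h1 : z * e1 * w1 * e * w' = z * e1 * (w1 * e * w') := by group
    rw [h1]
    exact TT.cons hz he1 ih

theorem d4 {Xa : Set G} {w : G} (hw : TT Xa W w) :
    w ∈ W ∨ ∃ w1, TT Xa W w1 ∧ ∃ e ∈ Xa, ∃ z ∈ W, w = w1 * e * z := by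
  induction hw with
  | base hz => exact Or.inl hz
  | @cons z e w hz he hw ih =>
    right
    rcases ih with h | ⟨w1, hw1, e1, he1, z1, hz1, rfl⟩
    · exact ⟨z, TT.base hz, e, he, w, h, rfl⟩
    · exact ⟨z * e * w1, TT.cons hz he hw1, e1, he1, z1, hz1, by group⟩

theorem d5 (P : PPK L (La L g) Xb ∅ Yp Ym) (hf : Hf L Xb W) {w : G} (hw : TT (La L g) W w) :
    ∀ y ∈ Ym, w * y ∈ Yp := by
  induction hw with
  | base hz => exact fun y hy => P.X2Y _ (hf.sub _ hz) y hy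
  | @cons z e w hz he hw ih =>
    intro y hy
    have h1 : z * e * w * y = z * (e * (w * y)) := by group
    rw [h1]
    exact P.X2Y _ (hf.sub _ hz) _ (P.X1Y _ he _ (ih y hy))

theorem d5i (P : PPK L (La L g) Xb ∅ Yp Ym) (hf : Hf L Xb W) {w : G} (hw : TT (La L g) W w) :
    ∀ y ∈ Ym, w⁻¹ * y ∈ Yp := by
  induction hw with
  | base hz => exact fun y hy => P.X2Y _ (P.X2i _ (hf.sub _ hz)) y hy
  | @cons z e w hz he hw ih =>
    intro y hy
    have h1 : (z * e * w)⁻¹ * y = w⁻¹ * (e⁻¹ * (z⁻¹ * y)) := by group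
    rw [h1]
    exact ih _ (P.X1Y _ (P.X1i _ he) _ (P.X2Y _ (P.X2i _ (hf.sub _ hz)) y hy))

theorem d6 (P : PPK L (La L g) Xb ∅ Yp Ym) (hf : Hf L Xb W) {w : G} (hw : TT (La L g) W w) :
    ∀ y ∈ Ym, ∃ z ∈ W, ∃ y' ∈ Ym, w * y = z * y' := by
  intro y hy
  cases hw with
  | base hz => exact ⟨_, hz, y, hy, rfl⟩
  | @cons z e w hz he hw =>
    exact ⟨z, hz, e * (w * y), P.X1Y _ he _ (d5 P hf hw y hy), by group⟩

theorem d6i (P : PPK L (La L g) Xb ∅ Yp Ym) (hf : Hf L Xb W) {w : G} (hw : TT (La L g) W w) :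
    ∀ y ∈ Ym, ∃ z ∈ W, ∃ y' ∈ Ym, w⁻¹ * y = z⁻¹ * y' := by
  intro y hy
  rcases d4 hw with h | ⟨w1, hw1, e, he, z, hz, rfl⟩
  · exact ⟨w, h, y, hy, rfl⟩
  · exact ⟨z, hz, e⁻¹ * (w1⁻¹ * y), P.X1Y _ (P.X1i _ he) _ (d5i P hf hw1 y hy), by group⟩

theorem d7 (P : PPK L (La L g) Xb ∅ Yp Ym) (hf : Hf L Xb W) {s : Bool} {y : G}
    (hy : YK L (La L g) (XD (La L g) W) s y) : y ∈ YB Yp Ym s := by
  induction hy with
  | @base s l hl =>
    cases s
    · have h := P.Yml l hl 1 P.Ym1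
      rwa [mul_one] at h
    · have h := P.Ypl l hl 1 P.Yp1
      rwa [mul_one] at h
  | @sa x y hx hy ih => exact P.X1Y x hx y ih
  | @sb x y hx hy ih =>
    obtain ⟨w, hw, e, he, w', hw', rfl⟩ := hx
    have h1 : w⁻¹ * e * w' * y = w⁻¹ * (e * (w' * y)) := by group
    rw [h1]
    exact d5i P hf hw _ (P.X1Y _ he _ (d5 P hf hw' y ih))

theorem d9 (P : PPK L (La L g) Xb ∅ Yp Ym) (hf : Hf L Xb W) {e e' z z' y y' : G}
    (he : e ∈ La L g) (he' : e' ∈ La L g) (hz : z ∈ W) (hz' : z' ∈ W) (hy : y ∈ Ym)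
    (hy' : y' ∈ Ym) (h : e * (z * y) = e' * (z'⁻¹ * y')) : False := by
  have hl : e'⁻¹ * e ∈ L := d1a P he' he
  have hlz : (e'⁻¹ * e) * z ∈ W := hf.bi.1 _ hl z hz
  have h1 : ((e'⁻¹ * e) * z) * y = z'⁻¹ * y' := by
    have h2 : ((e'⁻¹ * e) * z) * y = e'⁻¹ * (e * (z * y)) := by group
    rw [h2, h]
    group
  have h3 : ((e'⁻¹ * e) * z)⁻¹ * z'⁻¹ ∈ L :=
    P.u2 _ (hf.sub _ hlz) _ (P.X2i _ (hf.sub _ hz')) y hy y' hy' h1
  have h4 : z'⁻¹ ∈ W := by
    have h5 := hf.bi.2 _ h3 _ hlz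
    rwa [mul_inv_cancel_left] at h5
  exact hf.ni z' hz' h4

theorem d8 (hK : SpecWDK) (P : PPK L (La L g) Xb ∅ Yp Ym) (hf : Hf L Xb W) {e z y : G}
    (he : e ∈ La L g) (hz : z ∈ W) (hy : y ∈ Ym) :
    e * (z * y) ∉ YS L (La L g) (XD (La L g) W) false := by
  obtain ⟨k0, -⟩ := hK G L (La L g) Xb ∅ Yp Ym P
  have hzy : z * y ∈ Yp := P.X2Y _ (hf.sub _ hz) y hy
  have c1 : e * (z * y) ∉ L := k0 false true e (z * y) he hzy
  have c2 : z * y ∉ L := k0 true false z y (hf.sub _ hz) hy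
  intro hY
  have hY' : YK L (La L g) (XD (La L g) W) false (e * (z * y)) := hY
  generalize hv : e * (z * y) = v at hY' c1
  cases hY' with
  | base hl => exact c1 hl
  | @sa e1 y1 he1 hy1 =>
    cases hy1 with
    | base hl =>
      apply c2
      have h1 : z * y = (e⁻¹ * e1) * y1 := by
        have h2 : z * y = e⁻¹ * (e * (z * y)) := by group
        rw [h2, hv]
        group
      rw [h1]
      exact L.mul_mem (d1a P he he1) hl
    | @sb x y2 hx hy2 =>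
      obtain ⟨w, hw, e2, he2, w', hw', rfl⟩ := hx
      have hy2' : y2 ∈ Ym := d7 P hf hy2
      obtain ⟨z', hz', y', hy', h3⟩ :=
        d6i P hf hw (e2 * (w' * y2)) (P.X1Y _ he2 _ (d5 P hf hw' y2 hy2'))
      refine d9 P hf he he1 hz hz' hy hy' ?_
      rw [← h3, hv]
      group

end DRAAux

open DRAAux in
/-- **Module DRA**. -/
theorem specDRA (hWDK : SpecWDK) : SpecDRA := by
  intro G _ L g Xb Yp Ym W P hf
  refine ⟨fun e he e' he' => ⟨d1a P he he', d1b P he he'⟩,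
    fun l hl w hw => ⟨d2l hf hw l hl, d2r hf hw l hl⟩,
    fun w hw e he w' hw' => d3 hw e he w' hw', fun w hw => d4 hw,
    fun w hw y hy => ⟨d5 P hf hw y hy, d5i P hf hw y hy⟩,
    fun w hw y hy => ⟨d6 P hf hw y hy, d6i P hf hw y hy⟩,
    fun s y hy => d7 P hf hy, fun e he z hz y hy => d8 hWDK P hf he hz hy,
    fun e he e' he' z hz z' hz' y hy y' hy' h => d9 P hf he he' hz hz' hy hy' h⟩

end Pool.Agent.Lib.MP8a3537.ROK
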