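import Pool.Agent.Lib.MP_8a3537_gt.ROK.Spec

/-!
# ROK, module DRC: the derived data
-/

namespace Pool.Agent.Lib.MP8a3537.ROK

open Matrix Pool.Agent.Lib.MP8a3537.UV Pool.Agent.Lib.MP8a3537.AU Pool.Agent.Lib.MP8a3537.RO

namespace DRCAux

variable {G : Type} [Group G] {L : Subgroup G} {g : G} {Xb Yp Ym W : Set G}

theorem sub1 (P : PPK L (La L g) Xb ∅ Yp Ym) : Sub1 L (La L g) Xb ∅ Yp Ym (La L g) where
  pp := P.toPingPong
  sub := fun _ hx => hx
  bi := ⟨P.X1l, P.X1r⟩
  inv := P.X1i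

/-- The elements of `TS` are words. -/
theorem wd_T (hWDA : RO.SpecWDA) (P : PPK L (La L g) Xb ∅ Yp Ym) (hW : Hf L Xb W) {z : G}
    (hz : z ∈ TS (La L g) W) : ∃ k, Wd L (La L g) Xb ∅ (k + 1) true false z := by
  obtain ⟨-, h2, -, -, h5⟩ := hWDA G L (La L g) Xb ∅ Yp Ym (La L g) (sub1 P)
  change TT (La L g) W z at hz
  induction hz with
  | @base z hz => exact ⟨0, (h5 true false z (hW.sub z hz)).1⟩
  | @cons z e w hz he _ ih =>
    obtain ⟨k, hk⟩ := ih
    have a1 := (h5 true false z (hW.sub z hz)).1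
    have a2 := (h5 false true e he).1
    have a3 := h2 _ _ _ _ _ _ _ (h2 _ _ _ _ _ _ _ a1 a2) hk
    exact ⟨_, a3⟩

/-- The elements of `XD` are words. -/
theorem wd_D (hWDA : RO.SpecWDA) (P : PPK L (La L g) Xb ∅ Yp Ym) (hW : Hf L Xb W) {z : G}
    (hz : z ∈ XD (La L g) W) : ∃ k, Wd L (La L g) Xb ∅ (k + 1) true false z := by
  obtain ⟨-, h2, h3, -, h5⟩ := hWDA G L (La L g) Xb ∅ Yp Ym (La L g) (sub1 P)
  obtain ⟨w, hw, e, he, w', hw', rfl⟩ := hz
  obtain ⟨k, hk⟩ := wd_T hWDA P hW hw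
  obtain ⟨k', hk'⟩ := wd_T hWDA P hW hw'
  have a1 : Wd L (La L g) Xb ∅ (k + 1) true false w⁻¹ := h3 _ _ _ _ hk
  have a2 := (h5 false true e he).1
  have a3 := h2 _ _ _ _ _ _ _ (h2 _ _ _ _ _ _ _ a1 a2) hk'
  exact ⟨_, a3⟩

end DRCAux

open DRCAux

/-- **Module DRC**: the derived data are data. -/
theorem specDRC (hUNQ : RO.SpecUNQ) (hWDA : RO.SpecWDA) (hWNI : RO.SpecWNI) (hWDK : SpecWDK)
    (hDRA : SpecDRA) (hDRB : SpecDRB) : SpecDRC := by
  intro G _ L g Xb Yp Ym W P hW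
  obtain ⟨d1, d2, -, -, -, -, d7, -, -⟩ := hDRA G L g Xb Yp Ym W P hW
  obtain ⟨-, k2⟩ := hWDK G L (La L g) Xb ∅ Yp Ym P
  obtain ⟨k21, k22⟩ := k2 (La L g) (sub1 P)
  have X2l : ∀ h ∈ L, ∀ x ∈ XD (La L g) W, h * x ∈ XD (La L g) W := by
    rintro h hh x ⟨w, hw, e, he, w', hw', rfl⟩
    refine ⟨w * h⁻¹, (d2 h⁻¹ (L.inv_mem hh) w hw).2, e, he, w', hw', ?_⟩
    group
  have X2r : ∀ h ∈ L, ∀ x ∈ XD (La L g) W, x * h ∈ XD (La L g) W := by
    rintro h hh x ⟨w, hw, e, he, w', hw', rfl⟩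
    refine ⟨w, hw, e, he, w' * h, (d2 h hh w' hw').2, ?_⟩
    group
  have X2i : ∀ x ∈ XD (La L g) W, x⁻¹ ∈ XD (La L g) W := by
    rintro x ⟨w, hw, e, he, w', hw', rfl⟩
    refine ⟨w', hw', e⁻¹, P.X1i e he, w, hw, ?_⟩
    group
  have y7 : ∀ y ∈ YS L (La L g) (XD (La L g) W) true, y ∈ Yp := fun y hy => d7 true y hy
  have y7' : ∀ y ∈ YS L (La L g) (XD (La L g) W) false, y ∈ Ym := fun y hy => d7 false y hy
  refine { X1l := P.X1l, X1r := P.X1r, X1i := P.X1i, X1n := P.X1n, X2l := X2l, X2r := X2r,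
           X2i := X2i, X2n := ?_, X3l := ?_, X3r := ?_, Yp1 := ?_, Ym1 := ?_, Ypl := ?_, Yml := ?_,
           X1Y := ?_, X2Y := ?_, X3Y := ?_, X3Y' := ?_, d23 := ?_, d13 := ?_, u1 := ?_, u2 := ?_,
           u3 := ?_, u3' := ?_, yy := ?_, xh := ?_, cj := ?_ }
  · intro x hx h
    obtain ⟨k, hk⟩ := wd_D hWDA P hW hx
    refine hWNI G L (La L g) Xb ∅ Yp Ym (La L g) (sub1 P) (k + 1) true x hk ?_
    nth_rewrite 1 [← h]
    exact inv_mul_cancel x
  · intro h _ x hx
    exact hx.elim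
  · intro h _ x hx
    exact hx.elim
  · exact YK.base L.one_mem
  · exact YK.base L.one_mem
  · intro h hh y hy
    change YK L (La L g) (XD (La L g) W) true y at hy
    change YK L (La L g) (XD (La L g) W) true (h * y)
    cases hy with
    | base hl => exact YK.base (L.mul_mem hh hl)
    | sb hx hy =>
      rw [← mul_assoc]
      exact YK.sb (X2l h hh _ hx) hy
  · intro h hh y hy
    change YK L (La L g) (XD (La L g) W) false y at hy
    change YK L (La L g) (XD (La L g) W) false (h * y)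
    cases hy with
    | base hl => exact YK.base (L.mul_mem hh hl)
    | sa hx hy =>
      rw [← mul_assoc]
      exact YK.sa (P.X1l h hh _ hx) hy
  · intro x hx y hy
    exact YK.sa hx hy
  · intro x hx y hy
    exact YK.sb hx hy
  · intro x hx
    exact hx.elim
  · intro x hx
    exact (show x⁻¹ ∈ (∅ : Set G) from hx).elim
  · intro x _ y _ x' hx'
    exact hx'.elim
  · intro x _ y _ x' hx'
    exact (show x'⁻¹ ∈ (∅ : Set G) from hx').elim
  · intro x hx x' hx' y _ y' _ _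
    exact (d1 x hx x' hx').1
  · intro x hx x' hx' y hy y' hy' h
    exact hDRB G L g Xb Yp Ym W P hW x hx x' hx' y hy y' hy' h
  · intro x hx
    exact hx.elim
  · intro x hx
    exact (show x⁻¹ ∈ (∅ : Set G) from hx).elim
  · intro y h1 h2
    exact P.yy y (y7 y h1) (y7' y h2)
  · intro s t x hx
    match s, t, hx with
    | true, true, hx => exact hx.elim
    | true, false, hx =>
      obtain ⟨k, hk⟩ := wd_D hWDA P hW (z := x) hx
      have := k21 k true false x 1 hk P.Ym1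
      rwa [mul_one] at this
    | false, true, hx => exact P.xh false true x hx
    | false, false, hx => exact (show x⁻¹ ∈ (∅ : Set G) from hx).elim
  · intro s t x h hx hh
    match s, t, hx with
    | true, true, hx => exact hx.elim
    | true, false, hx =>
      obtain ⟨k, hk⟩ := wd_D hWDA P hW (z := x) hx
      rcases k22 (k + 1) true false x h hk hh with h1 | h1
      · exact Or.inl h1
      · right
        intro y hy hy'
        exact h1 y (y7' y hy) (y7' _ hy')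
    | false, true, hx =>
      rcases P.cj false true x h hx hh with h1 | h1
      · exact Or.inl h1
      · right
        intro y hy hy'
        exact h1 y (y7 y hy) (y7 _ hy')
    | false, false, hx => exact (show x⁻¹ ∈ (∅ : Set G) from hx).elim

end Pool.Agent.Lib.MP8a3537.ROK
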