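import Pool.Agent.Lib.MP_8a3537_gt.ROK.Spec

/-!
# ROK, module DRG: the geometry of the derived data
-/

namespace Pool.Agent.Lib.MP8a3537.ROK

open Matrix Pool.Agent.Lib.MP8a3537.UV Pool.Agent.Lib.MP8a3537.AU Pool.Agent.Lib.MP8a3537.RO

namespace DRGAux

variable {G V : Type} [Group G] [MulAction G V] {d : V → V → ℕ} {L : Subgroup G} {g : G}
  {Xb Yp Ym W : Set G} {x1 x2 : V}

theorem word (hP : PPK L (La L g) Xb ∅ Yp Ym) (hW : Hf L Xb W)
    (hG : Geo d L (La L g) Xb ∅ x1 x2) {w : G} (hw : TT (La L g) W w) :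
    ∀ p ∈ DD d x1 x2 false, w • p ∈ DD d x1 x2 true ∧ w⁻¹ • p ∈ DD d x1 x2 true := by
  have hb : ∀ z ∈ Xb, ∀ p ∈ DD d x1 x2 false, z • p ∈ DD d x1 x2 true :=
    fun z hz p hp => hG.mv true false z p hz hp
  have ha : ∀ e ∈ La L g, ∀ p ∈ DD d x1 x2 true, e • p ∈ DD d x1 x2 false :=
    fun e he p hp => hG.mv false true e p he hp
  induction hw with
  | base hz =>
    intro p hp
    exact ⟨hb _ (hW.sub _ hz) p hp, hb _ (hP.X2i _ (hW.sub _ hz)) p hp⟩
  | cons hz he _ ih =>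
    intro p hp
    constructor
    · rw [mul_smul, mul_smul]
      exact hb _ (hW.sub _ hz) _ (ha _ he _ (ih p hp).1)
    · rw [_root_.mul_inv_rev, _root_.mul_inv_rev, mul_smul, mul_smul]
      exact (ih _ (ha _ (hP.X1i _ he) _ (hb _ (hP.X2i _ (hW.sub _ hz)) p hp))).2

end DRGAux

theorem specDRG : SpecDRG := by
  intro G V _ _ d L g Xb Yp Ym W x1 x2 hP hW hG
  refine ⟨hG.ne, hG.st, ?_⟩
  intro s t x p hx hp
  cases s <;> cases t
  · exact absurd (show x⁻¹ ∈ (∅ : Set G) from hx) (Set.notMem_empty _)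
  · exact hG.mv false true x p hx hp
  · obtain ⟨w, hw, e, he, w', hw', rfl⟩ := (show x ∈ XD (La L g) W from hx)
    rw [mul_smul, mul_smul]
    exact (DRGAux.word hP hW hG hw _
      (hG.mv false true e _ he (DRGAux.word hP hW hG hw' p hp).1)).2
  · exact absurd (show x ∈ (∅ : Set G) from hx) (Set.notMem_empty _)

end Pool.Agent.Lib.MP8a3537.ROK
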