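import Pool.Agent.Lib.MP_8a3537_gt.ROK.Spec

/-!
# FNK: the theorem for trees
-/

set_option autoImplicit false

namespace Pool.Agent.Lib.MP8a3537.ROK

open Matrix Pool.Agent.Lib.MP8a3537.UV Pool.Agent.Lib.MP8a3537.AU Pool.Agent.Lib.MP8a3537.RO

namespace FNKAux

theorem se_of_gd (hSTC : SpecSTC) (hBAS : SpecBAS) {R G V : Type} [Ring R] [StarRing R] [Group G]
    [MulAction G V] {d : V → V → ℕ} (hd : TM G d) {x1 x2 : V} (h : Gd R G d x1 x2) :
    SE R G d x1 x2 := by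
  induction h with
  | reg h => exact hBAS R G V d _ _ h
  | step _ ih => exact hSTC R G V d hd _ _ ih

theorem gd_of_reg {R G V : Type} [Ring R] [StarRing R] [Group G] [MulAction G V] {d : V → V → ℕ}
    (hd : TM G d) {k : ℕ}
    (h : ∀ x y : V, k ≤ d x y → (∃ g : G, g • x = y ∧ g • y = x) → Rg R G x y) :
    ∀ (m : ℕ) (x1 x2 : V), (∃ g : G, g • x1 = x2 ∧ g • x2 = x1) → k ≤ d x1 x2 + m →
      Gd R G d x1 x2 := by
  intro m
  induction m with
  | zero =>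
    intro x1 x2 hg hk
    exact Gd.reg (h x1 x2 hk hg)
  | succ m ih =>
    intro x1 x2 _ hk
    refine Gd.step fun f hf => ih x2 (f • x2) ⟨f, rfl, hf.1⟩ ?_
    have h1 : d x1 (f • x2) ≠ 0 := fun h0 => hf.2.2 (((hd.d0 _ _).1 h0).symm)
    have h2 := hf.2.1
    have h3 := hd.cm x1 x2
    omega

end FNKAux

theorem specFNK (hTRK : SpecTRK) (hTRG : SpecTRG) (hFPT : SpecFPT) (hSTC : SpecSTC)
    (hBAS : SpecBAS) (hMNK : SpecMNK) : SpecFNK := by
  intro R G V _ _ _ _ T v w hT hadj hvw hinv hinvol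
  have hd : TM G (V := V) T.dist := hFPT G V T hT hadj
  have key : (∀ g : G, g • v = v → g • w ≠ w → g • g • w = w → Gd R G T.dist w (g • w)) →
      (∀ g : G, g • w = w → g • v ≠ v → g • g • v = v → Gd R G T.dist v (g • v)) →
      ∀ (ε : ℤˣ) (n : ℕ) (ψ μ χ : Matrix (Fin n) (Fin n) (MonoidAlgebra R G)),
        SuppIn {g | g • v = v ∧ g • w ≠ w} ψ → SuppIn {g | g • v = w} μ →
        SuppIn {g | g • w = w ∧ g • v ≠ v} χ →
        IsNilpotent (nu ε (ψ + (ε : ℤ) • ψᴴ) μ (χ + (ε : ℤ) • χᴴ)) →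
        StablyHyperbolic ε (UF ψ μ χ) := by
    intro h1 h2
    obtain ⟨Yp, Ym, hP⟩ := hTRK G V T v w hT hadj hvw hinv hinvol
    refine hMNK R G V T.dist hd _ _ _ _ Yp Ym w v hP (hTRG G V T v w hT hadj hvw hinv) ?_ ?_
    · intro g hg hgg
      have h3 : (g * g) • w = w := hgg.2
      rw [mul_smul] at h3
      exact FNKAux.se_of_gd hSTC hBAS hd (h1 g hg.1 hg.2 h3)
    · intro g hg hgg
      have h3 : (g * g) • v = v := hgg.1
      rw [mul_smul] at h3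
      exact FNKAux.se_of_gd hSTC hBAS hd (h2 g hg.1 hg.2 h3)
  refine ⟨key, fun k hk => key ?_ ?_⟩
  · intro g _ _ hgg
    exact FNKAux.gd_of_reg hd hk k w (g • w) ⟨g, rfl, hgg⟩ (Nat.le_add_left _ _)
  · intro g _ _ hgg
    exact FNKAux.gd_of_reg hd hk k v (g • v) ⟨g, rfl, hgg⟩ (Nat.le_add_left _ _)

end Pool.Agent.Lib.MP8a3537.ROK
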