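import Pool.Agent.Lib.MP_8a3537_gt.ROK.Spec
import Pool.Agent.Lib.MP_8a3537_gt.RO.HLF

/-!
# MP_8a3537_gt, ROK: HLK (helper32)

A half of the double cosets, disjoint from its inverse.
-/

namespace Pool.Agent.Lib.MP8a3537.ROK

open Matrix Pool.Agent.Lib.MP8a3537.UV Pool.Agent.Lib.MP8a3537.AU Pool.Agent.Lib.MP8a3537.RO

/-- HLK -/
theorem specHLK : SpecHLK := by
  intro R G _ _ _ H ε n a ha hfl
  refine ⟨HLFAux.half H, HLFAux.bi_half H, fun x hx hx' => HLFAux.not_both H x hx hx', ?_⟩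
  ext i j x
  have hc : ∀ (i j : Fin n) (x : G), (a i j).coeff x = (ε : ℤ) • star ((a j i).coeff x⁻¹) := by
    intro i j x
    have h1 : a i j = ((ε : ℤ) • aᴴ) i j := congrFun (congrFun ha i) j
    have h2 : ((ε : ℤ) • aᴴ) i j = (ε : ℤ) • star (a j i) := by
      rw [Matrix.smul_apply, Matrix.conjTranspose_apply]
    rw [h1, h2, MonoidAlgebra.coeff_smul, Finsupp.smul_apply, star_coeff]
  have hr : (cutM (HLFAux.half H) a + (ε : ℤ) • (cutM (HLFAux.half H) a)ᴴ) i j
      = cut (HLFAux.half H) (a i j) + (ε : ℤ) • star (cut (HLFAux.half H) (a j i)) := by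
    rw [Matrix.add_apply, Matrix.smul_apply, Matrix.conjTranspose_apply]
    rfl
  rw [hr, MonoidAlgebra.coeff_add, Finsupp.add_apply, MonoidAlgebra.coeff_smul, Finsupp.smul_apply,
    star_coeff, cut_coeff, cut_coeff]
  by_cases h0 : (a i j).coeff x = 0
  · have h1 : (a j i).coeff x⁻¹ = 0 := by
      rw [hc j i x⁻¹, inv_inv, h0, star_zero, smul_zero]
    rw [h0, h1]
    simp
  · have hx := hfl i j x h0
    rcases HLFAux.one_of H x hx with h | h
    · have h2 : x⁻¹ ∉ HLFAux.half H := fun h2 => HLFAux.not_both H x h h2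
      rw [if_pos h, if_neg h2, star_zero, smul_zero, add_zero]
    · have h2 : x ∉ HLFAux.half H := fun h2 => HLFAux.not_both H x h2 h
      rw [if_neg h2, if_pos h, zero_add]
      exact hc i j x

end Pool.Agent.Lib.MP8a3537.ROK
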