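import Pool.Agent.Lib.MP_8a3537_gt.ROK.Spec
import Pool.Agent.Lib.MP_8a3537_gt.UV.SWP
import Pool.Agent.Lib.MP_8a3537_gt.UV.IND

/-!
# ROK, module MNK: the theorem for data
-/

namespace Pool.Agent.Lib.MP8a3537.ROK

open Matrix Pool.Agent.Lib.MP8a3537.UV Pool.Agent.Lib.MP8a3537.AU Pool.Agent.Lib.MP8a3537.RO

namespace MNKAux

/-- The hypothesis of RMV. -/
theorem blocks (hSBK : SpecSBK) (hBLK : SpecBLK) (hBLG : SpecBLG) {R G V : Type} [Ring R]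
    [StarRing R] [Group G] [MulAction G V] {d : V → V → ℕ} (hd : TM G d) {H : Subgroup G}
    {X1 X2 X3 Yp Ym : Set G} {x1 x2 : V} (P : PPK H X1 X2 X3 Yp Ym)
    (hG : Geo d H X1 X2 X3 x1 x2) (hS : ∀ g ∈ X1, g * g ∈ H → SE R G d x1 (g • x1)) :
    ∀ g ∈ X1, g * g ∈ H → Sub1 H X1 X2 X3 Yp Ym {x | x ∈ X1 ∧ x ∉ dc H g} ∧
      Blk R (La (Kg H g) g) (BX H X1 X2 X3 g) := by
  intro g hg hgg
  obtain ⟨-, -, -, h4, -⟩ := hSBK G H X1 X2 X3 Yp Ym P.toPingPong g hg hgg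
  obtain ⟨b1, b2, -⟩ := hBLG G V d hd H X1 X2 X3 Yp Ym x1 x2 P.toPingPong hG g hg hgg
  exact ⟨h4, hS g hg hgg (Kg H g) g (BX H X1 X2 X3 g) _ _
    (hBLK G H X1 X2 X3 Yp Ym P g hg hgg) b1 rfl b2⟩

end MNKAux

/-- **Module MNK**: the theorem for data. -/
theorem specMNK (hNWT : RO.SpecNWT) (hSBK : SpecSBK) (hBLK : SpecBLK) (hSYK : SpecSYK)
    (hBLG : SpecBLG) (hRMV : SpecRMV) : SpecMNK := by
  intro R G V _ _ _ _ d hd H X1 X2 X3 Yp Ym x1 x2 P hG hS1 hS2 ε n ψ μ χ hψ hμ hχ hnil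
  obtain ⟨l, hl⟩ := hnil
  obtain ⟨N, hN⟩ : ∃ N, N = l + 1 := ⟨_, rfl⟩
  have hN1 : 1 ≤ N := by omega
  have hνN : (nu ε (ψ + (ε : ℤ) • ψᴴ) μ (χ + (ε : ℤ) • χᴴ)) ^ N = 0 := by
    rw [hN, pow_succ, hl, zero_mul]
  obtain ⟨s1, s2, -, -⟩ := hSYK G H X1 X2 X3 Yp Ym
  have P' := s1 P
  have hG' := s2 V d x1 x2 hG
  have hμs : SuppIn (Xinv X3) μᴴ := INDAux.supp_star hμ (fun y hy => by
    change y⁻¹⁻¹ ∈ X3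
    rw [inv_inv]
    exact hy)
  refine hRMV R G H X1 X2 X3 Yp Ym P.toPingPong
    (MNKAux.blocks hSBK hBLK hBLG hd P hG hS1) ε n N hN1 ψ μ χ hψ hμ hχ hνN ?_
  intro ψ0 hψ0 hfl0 hν0
  apply (specSwp (MonoidAlgebra R G) ε n ψ0 μ χ).1
  refine hRMV R G H X2 X1 (Xinv X3) Ym Yp P'.toPingPong
    (MNKAux.blocks hSBK hBLK hBLG hd P' hG' hS2) ε n N hN1 χ μᴴ ψ0 hχ hμs hψ0
    (INDAux.swap_zero ε _ _ _ N hν0) ?_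
  intro χ0 hχ0 hfl1 hν1
  exact hNWT R G H X2 X1 (Xinv X3) Ym Yp P'.toPingPong ε n χ0 μᴴ ψ0 hχ0 hμs hψ0 ⟨N, hν1⟩ hfl1 hfl0

end Pool.Agent.Lib.MP8a3537.ROK
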