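import Pool.Agent.Lib.MP_8a3537_gt.ROK.Spec
import Pool.Agent.Lib.MP_8a3537_gt.UV.SWP

/-! # ROK, module NEI: the Newton step as an isometry -/

set_option linter.unusedSectionVars false
set_option linter.unusedSimpArgs false

namespace Pool.Agent.Lib.MP8a3537.ROK

open Matrix Pool.Agent.Lib.MP8a3537.UV Pool.Agent.Lib.MP8a3537.AU Pool.Agent.Lib.MP8a3537.RO

namespace NEIAux

variable {A : Type} [Ring A] [StarRing A]

theorem ee (ε : ℤˣ) {M N : Type} (X : Matrix M N A) : (ε : ℤ) • (ε : ℤ) • X = X := by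
  rcases Int.units_eq_one_or ε with h | h <;> simp [h]

theorem es (ε : ℤˣ) {M N : Type} (X : Matrix M N A) : ((ε : ℤ) • X)ᴴ = (ε : ℤ) • Xᴴ := by
  rcases Int.units_eq_one_or ε with h | h <;> simp [h]

theorem geo {n N : ℕ} (x : Matrix (Fin n) (Fin n) A) (hx : x ^ N = 0) :
    (1 - x) * (∑ i ∈ Finset.range N, x ^ i) = 1 ∧
      (∑ i ∈ Finset.range N, x ^ i) * (1 - x) = 1 := by
  constructor
  · rw [mul_neg_geom_sum, hx, sub_zero]
  · rw [geom_sum_mul_neg, hx, sub_zero]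

theorem eps_pow (ε : ℤˣ) {n N : ℕ} (x : Matrix (Fin n) (Fin n) A) (hx : x ^ N = 0) :
    ((ε : ℤ) • x) ^ N = 0 := by
  rcases Int.units_eq_one_or ε with h | h
  · simp [h, hx]
  · simp only [h, Units.val_neg, Units.val_one, neg_smul, one_smul]
    rw [neg_pow, hx, mul_zero]

/-- `(ψ, V; 0, 0)` is hyperbolic if `V` is invertible. -/
theorem iso1 (ε : ℤˣ) {n : ℕ} (ψ V T : Matrix (Fin n) (Fin n) A) (h1 : V * T = 1)
    (h2 : T * V = 1) :
    Isometric ε (fromBlocks ψ V 0 0) (UF (0 : Matrix (Fin n) (Fin n) A) 0 0) := by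
  refine ⟨fromBlocks 1 0 (-(T * ψ)) T, fromBlocks 1 0 ψ V, 0, ?_, ?_, ?_⟩
  · rw [fromBlocks_multiply]
    simp [h2, Matrix.one_mul, fromBlocks_one]
  · rw [fromBlocks_multiply]
    have h3 : V * (T * ψ) = ψ := by rw [← Matrix.mul_assoc, h1, Matrix.one_mul]
    simp [h1, h3, fromBlocks_one]
  · have h3 : V * (T * ψ) = ψ := by rw [← Matrix.mul_assoc, h1, Matrix.one_mul]
    unfold UF
    rw [fromBlocks_conjTranspose, Matrix.mul_assoc, fromBlocks_multiply, fromBlocks_multiply]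
    simp [h1, h3]

/-- `(ψ, 1; 0, q)` and `(ψ, V; 0, q ψ q^*)`. -/
theorem iso2 (ε : ℤˣ) {n : ℕ} (ψ q V : Matrix (Fin n) (Fin n) A)
    (hV : V = 1 - (ψ + (ε : ℤ) • ψᴴ) * qᴴ) :
    Isometric ε (UF ψ 0 q) (fromBlocks ψ V 0 (q * ψ * qᴴ)) := by
  refine ⟨fromBlocks 1 (-qᴴ) 0 1, fromBlocks 1 qᴴ 0 1, fromBlocks 0 0 (q * ψ) 0, ?_, ?_, ?_⟩
  · rw [fromBlocks_multiply]
    simp [fromBlocks_one]
  · rw [fromBlocks_multiply]
    simp [fromBlocks_one]
  · unfold UF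
    rw [fromBlocks_conjTranspose, Matrix.mul_assoc, fromBlocks_multiply, fromBlocks_multiply,
      fromBlocks_conjTranspose, fromBlocks_smul, fromBlocks_add, sub_eq_add_neg,
      fromBlocks_neg, fromBlocks_add]
    congr 1
    · simp
    · rw [hV]
      simp only [conjTranspose_one, conjTranspose_zero, conjTranspose_mul, Matrix.one_mul,
        Matrix.mul_one, Matrix.zero_mul, Matrix.mul_zero, Matrix.mul_neg, Matrix.add_mul,
        Matrix.smul_mul, add_zero, zero_add]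
      abel
    · simp
    · simp only [conjTranspose_one, conjTranspose_zero, conjTranspose_neg,
        conjTranspose_conjTranspose, Matrix.one_mul, Matrix.mul_one, Matrix.zero_mul,
        Matrix.mul_zero, Matrix.mul_neg, Matrix.neg_mul, Matrix.mul_add, add_zero, zero_add,
        smul_zero, neg_zero, neg_neg, neg_add_rev, Matrix.mul_assoc]
      abel

end NEIAux

open NEIAux

theorem specNEI (hSCH : RO.SpecSCH) : SpecNEI := by
  intro A _ _ ε n N ψ q hN hst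
  set a : Matrix (Fin n) (Fin n) A := ψ + (ε : ℤ) • ψᴴ with hadef
  have ha : aᴴ = (ε : ℤ) • a := by
    rw [hadef, conjTranspose_add, es, conjTranspose_conjTranspose, smul_add, ee]
    abel
  set x : Matrix (Fin n) (Fin n) A := (ε : ℤ) • (q * a) with hxdef
  have hx : x ^ N = 0 := eps_pow ε _ hN
  obtain ⟨g1, g2⟩ := geo x hx
  set S : Matrix (Fin n) (Fin n) A := ∑ i ∈ Finset.range N, x ^ i with hSdef
  set V : Matrix (Fin n) (Fin n) A := (1 - x)ᴴ with hVdef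
  have hVS : V * Sᴴ = 1 := by
    rw [hVdef, ← conjTranspose_mul, g2, conjTranspose_one]
  have hSV : Sᴴ * V = 1 := by
    rw [hVdef, ← conjTranspose_mul, g1, conjTranspose_one]
  have hVH : Vᴴ = 1 - x := by rw [hVdef, conjTranspose_conjTranspose]
  have hV : V = 1 - (ψ + (ε : ℤ) • ψᴴ) * qᴴ := by
    rw [hVdef, hxdef, conjTranspose_sub, conjTranspose_one, es, conjTranspose_mul, ha,
      Matrix.smul_mul, ee]
  set Z : Matrix (Fin n) (Fin n) A := zet ε N q a with hZdef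
  have hZ : Z = (ε : ℤ) • (S * q) := by
    rw [hZdef]
    unfold zet
    rfl
  refine SWPAux.stab_of_isom (iso2 ε ψ q V hV) ?_
  have hΞ : (fromCols (0 : Matrix (Fin n) (Fin n) A) qᴴ)ᴴ * ψ *
      fromCols (0 : Matrix (Fin n) (Fin n) A) qᴴ = fromBlocks 0 0 0 (q * ψ * qᴴ) := by
    rw [conjTranspose_fromCols_eq_fromRows_conjTranspose, fromRows_mul, fromRows_mul_fromCols]
    simp
  have hsum : fromBlocks ψ V 0 (q * ψ * qᴴ) = fromBlocks ψ V 0 0 +
      (fromCols (0 : Matrix (Fin n) (Fin n) A) qᴴ)ᴴ * ψ *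
        fromCols (0 : Matrix (Fin n) (Fin n) A) qᴴ := by
    rw [hΞ, fromBlocks_add]
    simp
  rw [hsum]
  have hL : fromBlocks ψ V 0 0 + (ε : ℤ) • (fromBlocks ψ V 0 0)ᴴ =
      fromBlocks a V ((ε : ℤ) • Vᴴ) 0 := by
    rw [fromBlocks_conjTranspose, fromBlocks_smul, fromBlocks_add]
    simp [hadef]
  have hY : fromBlocks 0 ((ε : ℤ) • S) Sᴴ (-((ε : ℤ) • (Sᴴ * a * S))) *
      (fromCols (0 : Matrix (Fin n) (Fin n) A) qᴴ)ᴴ = fromRows Z (-(Sᴴ * a * Z)) := by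
    rw [conjTranspose_fromCols_eq_fromRows_conjTranspose, fromBlocks_mul_fromRows, hZ]
    simp [Matrix.smul_mul, Matrix.mul_smul, Matrix.mul_assoc, -zsmul_eq_mul]
  refine hSCH A ε (Fin n ⊕ Fin n) (Fin n) (fromBlocks ψ V 0 0)
    (fromBlocks 0 ((ε : ℤ) • S) Sᴴ (-((ε : ℤ) • (Sᴴ * a * S))))
    (fromCols 0 qᴴ) ψ ?_ ?_ ?_ ?_
  · rw [hL, fromBlocks_multiply, ← fromBlocks_one]
    congr 1
    · simp [hVS]
    · have h3 : V * (Sᴴ * (a * S)) = a * S := by rw [← Matrix.mul_assoc, hVS, Matrix.one_mul]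
      rw [Matrix.mul_smul, Matrix.mul_neg, Matrix.mul_smul, Matrix.mul_assoc Sᴴ, h3,
        add_neg_cancel]
    · simp
    · rw [Matrix.zero_mul, add_zero, Matrix.smul_mul, Matrix.mul_smul, ee, hVH, g1]
  · rw [hL, fromBlocks_multiply, ← fromBlocks_one]
    congr 1
    · rw [Matrix.zero_mul, zero_add, Matrix.smul_mul, Matrix.mul_smul, ee, hVH, g2]
    · simp
    · rw [Matrix.neg_mul, Matrix.smul_mul, Matrix.mul_smul, ee, Matrix.mul_assoc, hVH, g2,
        Matrix.mul_one, add_neg_cancel]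
    · simp [hSV]
  · exact SWPAux.stab_of_isom (iso1 ε ψ V Sᴴ hVS hSV) (SWPAux.trivial_form n)
  · rw [hY]
    set Y : Matrix (Fin n ⊕ Fin n) (Fin n) A := fromRows Z (-(Sᴴ * a * Z)) with hYdef
    set Λ : Matrix (Fin n ⊕ Fin n) (Fin n ⊕ Fin n) A := fromBlocks ψ V 0 0 with hΛdef
    have h4 : Λ * Y = fromRows (-((ε : ℤ) • (ψᴴ * Z))) (0 : Matrix (Fin n) (Fin n) A) := by
      rw [hYdef, hΛdef, fromBlocks_mul_fromRows]
      congr 1
      · have h3 : V * (Sᴴ * (a * Z)) = a * Z := by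
          rw [← Matrix.mul_assoc, hVS, Matrix.one_mul]
        rw [Matrix.mul_neg, Matrix.mul_assoc Sᴴ, h3, hadef, Matrix.add_mul, Matrix.smul_mul]
        abel
      · simp
    have hκ : -(Yᴴ * Λ * Y) = (ε : ℤ) • (Zᴴ * ψᴴ * Z) := by
      rw [Matrix.mul_assoc, h4, hYdef, conjTranspose_fromRows_eq_fromCols_conjTranspose,
        fromCols_mul_fromRows, Matrix.mul_zero, add_zero, Matrix.mul_neg, neg_neg,
        Matrix.mul_smul, Matrix.mul_assoc]
    rw [hκ]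
    have h5 := SWPAux.stab_of_isom (SWPAux.change (ε := ε) ψ 0 (Zᴴ * ψ * Z) 0
      ((ε : ℤ) • (Zᴴ * ψᴴ * Z))) hst
    have h6 : UF (ψ + 0 - (ε : ℤ) • (0 : Matrix (Fin n) (Fin n) A)ᴴ) 0
        (Zᴴ * ψ * Z + (ε : ℤ) • (Zᴴ * ψᴴ * Z) - (ε : ℤ) • ((ε : ℤ) • (Zᴴ * ψᴴ * Z))ᴴ) =
        fromBlocks ψ 1 0 ((ε : ℤ) • (Zᴴ * ψᴴ * Z)) := by
      unfold UF
      rw [es, ee]
      simp only [conjTranspose_mul, conjTranspose_conjTranspose, conjTranspose_zero, smul_zero,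
        add_zero, sub_zero, Matrix.mul_assoc]
      congr 1
      abel
    rw [h6] at h5
    exact h5

end Pool.Agent.Lib.MP8a3537.ROK
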