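import Pool.Agent.Lib.MP_8a3537_gt.ROK.Spec
import Pool.Agent.Lib.MP_8a3537_gt.UV.IND

/-!
# ROK, module NES (helper10): supports
-/

namespace Pool.Agent.Lib.MP8a3537.ROK

open Matrix Pool.Agent.Lib.MP8a3537.UV Pool.Agent.Lib.MP8a3537.AU Pool.Agent.Lib.MP8a3537.RO

namespace NESAux

variable {R G : Type} [Ring R] [StarRing R] [Group G] {n : ℕ}

theorem supp_zero (X : Set G) : SuppIn X (0 : Matrix (Fin n) (Fin n) (MonoidAlgebra R G)) := by
  intro i j g hg
  exact absurd (by simp) hg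

theorem supp_sum {ι : Type} (s : Finset ι) (X : Set G)
    (f : ι → Matrix (Fin n) (Fin n) (MonoidAlgebra R G)) (h : ∀ i ∈ s, SuppIn X (f i)) :
    SuppIn X (∑ i ∈ s, f i) := by
  classical
  induction s using Finset.induction_on with
  | empty => exact supp_zero X
  | insert a s ha ih =>
    rw [Finset.sum_insert ha]
    exact INDAux.supp_add (h a (Finset.mem_insert_self a s))
      (ih fun i hi => h i (Finset.mem_insert_of_mem hi))

theorem supp_pow {Xa W : Set G} (ε : ℤˣ) {a q : Matrix (Fin n) (Fin n) (MonoidAlgebra R G)}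
    (ha : SuppIn Xa a) (hq : SuppIn W q) (i : ℕ) :
    SuppIn (TS Xa W) (((ε : ℤ) • (q * a)) ^ i * q) := by
  induction i with
  | zero =>
    rw [pow_zero, one_mul]
    intro i j g hg
    exact TT.base (hq i j g hg)
  | succ i ih =>
    rw [pow_succ', mul_assoc, smul_mul_assoc, mul_assoc]
    refine INDAux.supp_units ε ?_
    refine INDAux.supp_mul (Y := {x | ∃ e ∈ Xa, ∃ w ∈ TS Xa W, x = e * w}) hq
      (INDAux.supp_mul ha ih fun e he w hw => ⟨e, he, w, hw, rfl⟩) ?_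
    rintro z hz _ ⟨e, he, w, hw, rfl⟩
    rw [← mul_assoc]
    exact TT.cons hz he hw

theorem supp_zet {Xa W : Set G} (ε : ℤˣ) (N : ℕ)
    {a q : Matrix (Fin n) (Fin n) (MonoidAlgebra R G)} (ha : SuppIn Xa a) (hq : SuppIn W q) :
    SuppIn (TS Xa W) (zet ε N q a) := by
  unfold zet
  refine INDAux.supp_units ε ?_
  rw [Finset.sum_mul]
  exact supp_sum _ _ _ fun i _ => supp_pow ε ha hq i

end NESAux

open NESAux in
theorem specNES : SpecNES := by
  intro R G _ _ _ Xa W ε n N ψ a q hψ ha hq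
  have hZ := supp_zet ε N ha hq
  have hZ' : SuppIn {x : G | ∃ w ∈ TS Xa W, x = w⁻¹} (zet ε N q a)ᴴ :=
    INDAux.supp_star hZ fun w hw => ⟨w, hw, rfl⟩
  refine INDAux.supp_mul (X := {x : G | ∃ w ∈ TS Xa W, ∃ e ∈ Xa, x = w⁻¹ * e})
    (INDAux.supp_mul hZ' hψ ?_) hZ ?_
  · rintro _ ⟨w, hw, rfl⟩ e he
    exact ⟨w, hw, e, he, rfl⟩
  · rintro _ ⟨w, hw, e, he, rfl⟩ w' hw'
    exact ⟨w, hw, e, he, w', hw', rfl⟩

end Pool.Agent.Lib.MP8a3537.ROK
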