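import Pool.Agent.Lib.MP_8a3537_gt.ROK.Spec
import Pool.Agent.Lib.MP_8a3537_gt.RO.ROT
import Pool.Agent.Lib.MP_8a3537_gt.RO.ELM

/-!
# ROK, module RMV: removal of the flips with the same nilpotency index (helper77)
-/

namespace Pool.Agent.Lib.MP8a3537.ROK

open Matrix Pool.Agent.Lib.MP8a3537.UV Pool.Agent.Lib.MP8a3537.AU Pool.Agent.Lib.MP8a3537.RO

namespace RMVAux

open ELMAux

variable {R G : Type} [Ring R] [StarRing R] [Group G]

theorem supp_sym {X : Set G} (hX : ∀ x ∈ X, x⁻¹ ∈ X) (ε : ℤˣ) {n : ℕ}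
    {ψ : Matrix (Fin n) (Fin n) (MonoidAlgebra R G)} (hψ : SuppIn X ψ) :
    SuppIn X (ψ + (ε : ℤ) • ψᴴ) := by
  intro i j x hx
  rw [Matrix.add_apply, MonoidAlgebra.coeff_add, Finsupp.add_apply] at hx
  by_cases h1 : (ψ i j).coeff x = 0
  · rw [h1, zero_add, Matrix.smul_apply, conjTranspose_apply] at hx
    have h2 : (star (ψ j i)).coeff x ≠ 0 := by
      intro h0
      apply hx
      rcases unit_cases ε (star (ψ j i)) with h | h
      · rw [h, h0]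
      · rw [h, MonoidAlgebra.coeff_neg, Finsupp.neg_apply, h0, neg_zero]
    rw [star_coeff] at h2
    have h3 : (ψ j i).coeff x⁻¹ ≠ 0 := by
      intro h0
      apply h2
      rw [h0, star_zero]
    have := hX _ (hψ j i _ h3)
    simpa using this
  · exact hψ i j x h1

/-- The nilpotency index does not grow. -/
theorem index (hEFA : RO.SpecEFA) (hKNA : RO.SpecKNA) {H : Subgroup G} {X1 X2 X3 Yp Ym : Set G}
    (hP : PingPong H X1 X2 X3 Yp Ym) (ε : ℤˣ) {n N : ℕ} (hN : 1 ≤ N)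
    {ψ μ χ : Matrix (Fin n) (Fin n) (MonoidAlgebra R G)} (hψ : SuppIn X1 ψ) (hμ : SuppIn X3 μ)
    (hχ : SuppIn X2 χ) (hnil : (nu ε (ψ + (ε : ℤ) • ψᴴ) μ (χ + (ε : ℤ) • χᴴ)) ^ N = 0) {g : G}
    (hgg : g * g ∈ H) :
    (nu ε (cutM (dc H g)ᶜ ψ + (ε : ℤ) • (cutM (dc H g)ᶜ ψ)ᴴ) μ
      (χ + (ε : ℤ) • χᴴ)) ^ N = 0 := by
  set a := ψ + (ε : ℤ) • ψᴴ with ha
  set b := χ + (ε : ℤ) • χᴴ with hb
  have hsa : SuppIn X1 a := supp_sym hP.X1i ε hψ
  have hsb : SuppIn X2 b := supp_sym hP.X2i ε hχ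
  obtain ⟨hE, hcut, hblk⟩ := hEFA R G H X1 X2 X3 Yp Ym hP ε n a μ b hsa hμ hsb (herm ε ψ)
    (herm ε χ) N hnil
  have hcs : ∀ x ∈ dc H g, x⁻¹ ∈ dc H g := fun x hx => dc_inv H g hgg hx
  have hcs' : ∀ x ∈ (dc H g)ᶜ, x⁻¹ ∈ (dc H g)ᶜ := by
    intro x hx hc
    apply hx
    have := hcs _ hc
    simpa using this
  have ha0 : cutM (dc H g)ᶜ a = cutM (dc H g)ᶜ ψ + (ε : ℤ) • (cutM (dc H g)ᶜ ψ)ᴴ := by
    rw [ha, cutM_add, cutM_smul, cutM_star _ hcs']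
  have e1 : cutM (dc H g)ᶜ a ∈ EE H (nu ε a μ b) 1 false true := by
    have := hcut false true _ (bi_compl H g)
    rwa [blk_ft] at this
  have e2 : cutM (dc H g) a ∈ EE H (nu ε a μ b) 1 false true := by
    have := hcut false true _ (bi_dc H g)
    rwa [blk_ft] at this
  have e3 : μ ∈ EE H (nu ε a μ b) 1 true true := by
    have := hblk true true
    rwa [blk_tt] at this
  have e4 : b ∈ EE H (nu ε a μ b) 1 true false := by
    have h1 := hblk true false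
    rw [blk_tf] at h1
    have h2 := AddSubgroup.zsmul_mem _ h1 (ε : ℤ)
    rwa [smul_smul_self] at h2
  obtain ⟨hn0, -⟩ := hKNA (MonoidAlgebra R G) ε n n N _ hE hN _ _ _ _ e1 e2 e3 e4
  rwa [ha0] at hn0

end RMVAux

open RMVAux in
theorem specRMV (hEFA : RO.SpecEFA) (hKNA : RO.SpecKNA) (hELM : RO.SpecELM) : SpecRMV := by
  intro R G _ _ _ H X1 X2 X3 Yp Ym hP hblk ε n N hN ψ μ χ hψ hμ hχ hnil hfin
  have main : ∀ (m : ℕ) (ψ : Matrix (Fin n) (Fin n) (MonoidAlgebra R G)), SuppIn X1 ψ →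
      (nu ε (ψ + (ε : ℤ) • ψᴴ) μ (χ + (ε : ℤ) • χᴴ)) ^ N = 0 → ROTAux.fl H ψ = m →
      StablyHyperbolic ε (UF ψ μ χ) := by
    intro m
    induction m using Nat.strong_induction_on with
    | _ m ih =>
      intro ψ hψ hnil hm
      by_cases h1 : ∀ i j x, (ψ i j).coeff x ≠ 0 → ¬ Flip H x
      · exact hfin ψ hψ h1 hnil
      · push Not at h1
        obtain ⟨i, j, x, hx, hf⟩ := h1
        obtain ⟨h, hh, hgg, hxd⟩ := ROTAux.exists_flip hf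
        have hxX : x ∈ X1 := hψ i j x hx
        have hgX : x * h ∈ X1 := hP.X1r h hh x hxX
        obtain ⟨hS, hB⟩ := hblk (x * h) hgX hgg
        obtain ⟨-, h2⟩ := hELM R G H X1 X2 X3 Yp Ym hP ε n ψ μ χ hψ hμ hχ ⟨N, hnil⟩ (x * h) hgX
          hgg hS (fun r ψ' κ hψ' hκ hn => hB ε r ψ' κ hψ' hκ hn)
        apply h2
        exact ih _ (hm ▸ ROTAux.fl_cut_lt H ψ _ hx hf (fun hc => hc hxd)) _
          (ROTAux.supp_cut hψ) (index hEFA hKNA hP ε hN hψ hμ hχ hnil hgg) rfl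
  exact main _ ψ hψ hnil rfl

end Pool.Agent.Lib.MP8a3537.ROK
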