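import Pool.Agent.Lib.MP_8a3537_gt.ROK.Spec

/-!
# MP_8a3537_gt, folder ROK: module SBK (helper99), elementary facts on a flip
-/

set_option autoImplicit false

namespace Pool.Agent.Lib.MP8a3537.ROK

open Matrix Pool.Agent.Lib.MP8a3537.UV Pool.Agent.Lib.MP8a3537.AU Pool.Agent.Lib.MP8a3537.RO

namespace SBKAux

variable {G : Type} [Group G]

theorem conj1 {H : Subgroup G} {g l : G} (hg : g * g ∈ H) (hl : l ∈ Kg H g) :
    g * l * g⁻¹ ∈ Kg H g := by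
  rw [mem_Kg] at hl ⊢
  refine ⟨?_, ?_⟩
  · have h := H.mul_mem (H.mul_mem hg hl.2) (H.inv_mem hg)
    have e : g * g * (g⁻¹ * l * g) * (g * g)⁻¹ = g * l * g⁻¹ := by group
    rwa [e] at h
  · have e : g⁻¹ * (g * l * g⁻¹) * g = l := by group
    rw [e]
    exact hl.1

theorem conj2 {H : Subgroup G} {g l : G} (hg : g * g ∈ H) (hl : l ∈ Kg H g) :
    g⁻¹ * l * g ∈ Kg H g := by
  rw [mem_Kg] at hl ⊢
  refine ⟨hl.2, ?_⟩
  have h := H.mul_mem (H.mul_mem (H.inv_mem hg) hl.1) hg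
  have e : (g * g)⁻¹ * l * (g * g) = g⁻¹ * (g⁻¹ * l * g) * g := by group
  rwa [e] at h

theorem sq {H : Subgroup G} {g : G} (hg : g * g ∈ H) : g * g ∈ Kg H g := by
  rw [mem_Kg]
  refine ⟨hg, ?_⟩
  have e : g⁻¹ * (g * g) * g = g * g := by group
  rwa [e]

theorem inv_dc {H : Subgroup G} {g x : G} (hg : g * g ∈ H) (h : x⁻¹ ∈ dc H g) : x ∈ dc H g := by
  obtain ⟨a, ha, b, hb, e⟩ := h
  refine ⟨b⁻¹ * (g * g)⁻¹, H.mul_mem (H.inv_mem hb) (H.inv_mem hg), a⁻¹, H.inv_mem ha, ?_⟩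
  have e2 : x = (a * g * b)⁻¹ := by rw [← e, inv_inv]
  rw [e2]
  group

end SBKAux

open SBKAux in
/-- module SBK -/
theorem specSBK (hWDA : RO.SpecWDA) : SpecSBK := by
  intro G _ H X1 X2 X3 Yp Ym hP g hg hgg
  have hLH : ∀ l ∈ Kg H g, l ∈ H := fun l hl => ((mem_Kg H g l).1 hl).1
  have hX : ∀ x ∈ La (Kg H g) g, x ∈ X1 ∧ x ∈ dc H g := by
    rintro x ⟨l, hl, rfl⟩
    exact ⟨hP.X1l l (hLH l hl) g hg, l, hLH l hl, 1, H.one_mem, by rw [mul_one]⟩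
  have hS : Sub1 H X1 X2 X3 Yp Ym {x | x ∈ X1 ∧ x ∉ dc H g} := by
    refine ⟨hP, fun x hx => hx.1, ⟨?_, ?_⟩, ?_⟩
    · rintro h hh x ⟨hx, hn⟩
      refine ⟨hP.X1l h hh x hx, ?_⟩
      rintro ⟨a, ha, b, hb, e⟩
      refine hn ⟨h⁻¹ * a, H.mul_mem (H.inv_mem hh) ha, b, hb, ?_⟩
      have e2 : x = h⁻¹ * (h * x) := by group
      rw [e2, e]
      group
    · rintro h hh x ⟨hx, hn⟩
      refine ⟨hP.X1r h hh x hx, ?_⟩
      rintro ⟨a, ha, b, hb, e⟩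
      refine hn ⟨a, ha, b * h⁻¹, H.mul_mem hb (H.inv_mem hh), ?_⟩
      have e2 : x = (x * h) * h⁻¹ := by group
      rw [e2, e]
      group
    · rintro x ⟨hx, hn⟩
      exact ⟨hP.X1i x hx, fun h => hn (inv_dc hgg h)⟩
  refine ⟨fun l hl => ⟨conj1 hgg hl, conj2 hgg hl⟩, hX, ⟨?_, ?_, ?_⟩, hS, ?_⟩
  · rintro l hl x ⟨l', hl', rfl⟩
    refine ⟨⟨l * l', (Kg H g).mul_mem hl hl', by rw [mul_assoc]⟩,
      ⟨l' * (g * l * g⁻¹), (Kg H g).mul_mem hl' (conj1 hgg hl), by group⟩⟩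
  · rintro x ⟨l, hl, rfl⟩
    refine ⟨(g⁻¹ * l⁻¹ * g) * (g * g)⁻¹, (Kg H g).mul_mem (conj2 hgg ((Kg H g).inv_mem hl))
      ((Kg H g).inv_mem (sq hgg)), by group⟩
  · rintro x ⟨l, hl, rfl⟩ x' ⟨l', hl', rfl⟩
    have h := conj2 hgg ((Kg H g).mul_mem ((Kg H g).inv_mem hl) hl')
    have e : g⁻¹ * (l⁻¹ * l') * g = (l * g)⁻¹ * (l' * g) := by group
    rwa [e] at h
  · intro s y hy
    change YK (Kg H g) (La (Kg H g) g) (BX H X1 X2 X3 g) s y at hy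
    induction hy with
    | @base s l hl =>
      cases s with
      | true =>
        have h := hP.Ypl l (hLH l hl) 1 hP.Yp1
        rw [mul_one] at h
        exact h
      | false =>
        have h := hP.Yml l (hLH l hl) 1 hP.Ym1
        rw [mul_one] at h
        exact h
    | @sa x y hx _ ih => exact hP.X1Y x (hX x hx).1 y ih
    | @sb x y hx _ ih =>
      obtain ⟨k, hk⟩ := hx
      exact (hWDA G H X1 X2 X3 Yp Ym _ hS).2.2.2.1 k true false x y hk ih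

end Pool.Agent.Lib.MP8a3537.ROK
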