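import Pool.Agent.Lib.MP_8a3537_gt.ROK.Spec
import Pool.Agent.Lib.MP_8a3537_gt.UV.SWP
import Pool.Agent.Lib.MP_8a3537_gt.UV.IND

/-!
# ROK, module STC: the step
-/

namespace Pool.Agent.Lib.MP8a3537.ROK

open Matrix Pool.Agent.Lib.MP8a3537.UV Pool.Agent.Lib.MP8a3537.AU Pool.Agent.Lib.MP8a3537.RO

namespace STCAux

theorem supp_zero {R G : Type} [Ring R] {m n : Type} (X : Set G) :
    SuppIn X (0 : Matrix m n (MonoidAlgebra R G)) := by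
  intro i j x hx
  exact absurd rfl hx

theorem claim (hSYK : SpecSYK) (hDRC : SpecDRC) (hDRG : SpecDRG) (hRMV : SpecRMV)
    (hSTY : SpecSTY) (hSTX : SpecSTX) {R G V : Type} [Ring R] [StarRing R] [Group G]
    [MulAction G V] {d : V → V → ℕ} (hd : TM G d) {x1 x2 : V}
    (hS : ∀ f : G, Nx d x1 x2 f → SE R G d x2 (f • x2)) : ∀ N : ℕ, 1 ≤ N →
    ∀ (L : Subgroup G) (g : G) (Xb Yp Ym : Set G), PPK L (La L g) Xb ∅ Yp Ym →
      Geo d L (La L g) Xb ∅ x1 x2 → g • x1 = x2 → g • x2 = x1 →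
      ∀ (ε : ℤˣ) (n : ℕ) (ψ χ : Matrix (Fin n) (Fin n) (MonoidAlgebra R G)),
        SuppIn (La L g) ψ → SuppIn Xb χ →
        (nu ε (ψ + (ε : ℤ) • ψᴴ) 0 (χ + (ε : ℤ) • χᴴ)) ^ N = 0 →
        StablyHyperbolic ε (UF ψ 0 χ) := by
  intro N
  induction N with
  | zero => intro h; omega
  | succ N ih =>
    intro hN L g Xb Yp Ym P hG h1 h2 ε n ψ χ hψ hχ hν
    have z0 : (0 : Matrix (Fin n) (Fin n) (MonoidAlgebra R G))ᴴ = 0 := conjTranspose_zero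
    obtain ⟨-, -, s3, -⟩ := hSYK G L (La L g) Xb ∅ Yp Ym
    have P' := s3 P
    have hν' : (nu ε (χ + (ε : ℤ) • χᴴ) 0 (ψ + (ε : ℤ) • ψᴴ)) ^ (N + 1) = 0 := by
      have h := INDAux.swap_zero ε _ _ _ (N + 1) hν
      rwa [z0] at h
    have hsw := (specSwp (MonoidAlgebra R G) ε n ψ 0 χ).1
    rw [z0] at hsw
    apply hsw
    refine hRMV R G L Xb (La L g) ∅ Ym Yp P'.toPingPong
      (hSTX R G V d hd x1 x2 hS L g Xb Yp Ym P hG h1 h2) ε n (N + 1) hN χ 0 ψ hχ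
      (supp_zero ∅) hψ hν' ?_
    intro χ0 hχ0 hfl hν0
    have hsw0 := (specSwp (MonoidAlgebra R G) ε n χ0 0 ψ).1
    rw [z0] at hsw0
    apply hsw0
    have hν1 : (nu ε (ψ + (ε : ℤ) • ψᴴ) 0 (χ0 + (ε : ℤ) • χ0ᴴ)) ^ (N + 1) = 0 := by
      have h := INDAux.swap_zero ε _ _ _ (N + 1) hν0
      rwa [z0] at h
    refine hSTY R G L g Xb Yp Ym P ε n (N + 1) hN ψ χ0 hψ hχ0 hν1 hfl ?_
    intro W hW h3 χ' hχ' hν2
    exact ih (by omega) L g (XD (La L g) W) _ _ (hDRC G L g Xb Yp Ym W P hW)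
      (hDRG G V d L g Xb Yp Ym W x1 x2 P hW hG) h1 h2 ε n ψ χ' hψ hχ' hν2

end STCAux

/-- **Module STC**: the step. -/
theorem specSTC (hSYK : SpecSYK) (hDRC : SpecDRC) (hDRG : SpecDRG) (hRMV : SpecRMV)
    (hSTY : SpecSTY) (hSTX : SpecSTX) : SpecSTC := by
  intro R G V _ _ _ _ d hd x1 x2 hS L g Xb Yp Ym P hG h1 h2 ε n ψ χ hψ hχ hnil
  obtain ⟨l, hl⟩ := hnil
  refine STCAux.claim hSYK hDRC hDRG hRMV hSTY hSTX hd hS (l + 1) (by omega) L g Xb Yp Ym P hG h1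
    h2 ε n ψ χ hψ hχ ?_
  rw [pow_succ, hl, zero_mul]

end Pool.Agent.Lib.MP8a3537.ROK
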