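import Pool.Agent.Lib.MP_8a3537_gt.ROK.Spec

/-!
# ROK, module STX (helper10): the blocks of the exchanged data
-/

namespace Pool.Agent.Lib.MP8a3537.ROK

open Matrix Pool.Agent.Lib.MP8a3537.UV Pool.Agent.Lib.MP8a3537.AU Pool.Agent.Lib.MP8a3537.RO

theorem specSTX (hSBK : SpecSBK) (hBLK : SpecBLK) (hSYK : SpecSYK) (hBLG : SpecBLG) :
    SpecSTX := by
  intro R G V _ _ _ _ d hd x1 x2 hNx L g Xb Yp Ym hP hG hg1 hg2 f hf hff
  have hP' : PPK L Xb (La L g) ∅ Ym Yp := (hSYK G L (La L g) Xb ∅ Yp Ym).2.2.1 hP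
  have hG' : Geo d L Xb (La L g) ∅ x2 x1 := (hSYK G L (La L g) Xb ∅ Yp Ym).2.2.2 V d x1 x2 hG
  obtain ⟨-, -, -, s4, -⟩ := hSBK G L Xb (La L g) ∅ Ym Yp hP'.toPingPong f hf hff
  refine ⟨s4, ?_⟩
  have hB := hBLK G L Xb (La L g) ∅ Ym Yp hP' f hf hff
  obtain ⟨b1, b2, b3⟩ := hBLG G V d hd L Xb (La L g) ∅ Ym Yp x2 x1 hP'.toPingPong hG' f hf hff
  have hne : f • x2 ≠ x1 := by
    intro hfx
    have h1 : f • x1 = x2 := by rw [← hfx]; exact b2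
    have h2 : g⁻¹ • x1 = x2 := by rw [inv_smul_eq_iff]; exact hg2.symm
    have h3 : g⁻¹ • x2 = x1 := by rw [inv_smul_eq_iff]; exact hg1.symm
    have hL : f * g⁻¹ ∈ L := by
      rw [hG.st]
      constructor
      · rw [mul_smul, h2, hfx]
      · rw [mul_smul, h3, h1]
    have hfa : f ∈ La L g := ⟨f * g⁻¹, hL, by rw [inv_mul_cancel_right]⟩
    have h4 : f ∈ Ym := by
      have h := hP.X1Y f hfa 1 hP.Yp1
      rwa [mul_one] at h
    have h5 : f ∈ Yp := by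
      have h := hP.X2Y f hf 1 hP.Ym1
      rwa [mul_one] at h
    exact hP.xh false true f hfa (hP.yy f h5 h4)
  exact hNx f (b3 hne) (Kg L f) f (BX L Xb (La L g) ∅ f) _ _ hB b1 rfl b2

end Pool.Agent.Lib.MP8a3537.ROK
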