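import Pool.Agent.Lib.MP_8a3537_gt.ROK.Spec
import Pool.Agent.Lib.MP_8a3537_gt.UV.IND

/-!
# Module SYK: the exchange of the two types
-/

namespace Pool.Agent.Lib.MP8a3537.ROK

open Matrix Pool.Agent.Lib.MP8a3537.UV Pool.Agent.Lib.MP8a3537.AU Pool.Agent.Lib.MP8a3537.RO

namespace SYKAux

variable {G : Type} [Group G]

theorem xinv_xinv (X : Set G) : Xinv (Xinv X) = X := by
  ext x
  change x⁻¹⁻¹ ∈ X ↔ x ∈ X
  rw [inv_inv]

theorem xinv_empty : Xinv (∅ : Set G) = ∅ := by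
  ext x
  exact ⟨fun h => h, fun h => h⟩

theorem XX_swap (X1 X2 X3 : Set G) (s t : Bool) :
    XX X2 X1 (Xinv X3) s t = XX X1 X2 X3 (!s) (!t) := by
  cases s <;> cases t
  · exact xinv_xinv X3
  · rfl
  · rfl
  · rfl

omit [Group G] in
theorem YB_swap (Yp Ym : Set G) (s : Bool) : YB Ym Yp s = YB Yp Ym (!s) := by
  cases s <;> rfl

theorem DD_swap {V : Type} (d : V → V → ℕ) (x1 x2 : V) (s : Bool) :
    DD d x2 x1 s = DD d x1 x2 (!s) := by
  cases s <;> rfl

theorem ppk_swap {H : Subgroup G} {X1 X2 X3 Yp Ym : Set G} (P : PPK H X1 X2 X3 Yp Ym) :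
    PPK H X2 X1 (Xinv X3) Ym Yp where
  toPingPong := INDAux.pp_swap P.toPingPong
  yy := fun y h1 h2 => P.yy y h2 h1
  xh := fun s t x hx => P.xh (!s) (!t) x (by rwa [XX_swap] at hx)
  cj := fun s t x h hx hh => by
    rw [XX_swap] at hx
    rw [YB_swap]
    exact P.cj (!s) (!t) x h hx hh

theorem geo_swap {V : Type} [MulAction G V] {d : V → V → ℕ} {H : Subgroup G}
    {X1 X2 X3 : Set G} {x1 x2 : V} (P : Geo d H X1 X2 X3 x1 x2) :
    Geo d H X2 X1 (Xinv X3) x2 x1 where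
  ne := P.ne.symm
  st := fun g => (P.st g).trans and_comm
  mv := fun s t x p hx hp => by
    rw [XX_swap] at hx
    rw [DD_swap] at hp ⊢
    exact P.mv (!s) (!t) x p hx hp

end SYKAux

open SYKAux in
/-- **Module SYK**: the exchange. -/
theorem specSYK : SpecSYK := by
  intro G _ H X1 X2 X3 Yp Ym
  refine ⟨fun P => ppk_swap P, fun V _ d x1 x2 P => geo_swap P, fun P => ?_,
    fun V _ d x1 x2 P => ?_⟩
  · have h := ppk_swap P
    rwa [xinv_empty] at h
  · have h := geo_swap P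
    rwa [xinv_empty] at h

end Pool.Agent.Lib.MP8a3537.ROK
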