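import Pool.Agent.Lib.MP_8a3537_gt.ROK.Spec
import Pool.Agent.Lib.MP_8a3537_gt.UV.TRE

/-! Module TRG (helper50): the geometry of an edge. -/

namespace Pool.Agent.Lib.MP8a3537.ROK

open Matrix Pool.Agent.Lib.MP8a3537.UV Pool.Agent.Lib.MP8a3537.AU Pool.Agent.Lib.MP8a3537.RO

namespace TRGAux

open Pool.Agent.Lib.MP8a3537.UV.TREAux

variable {G V : Type} [Group G] [MulAction G V] {T : SimpleGraph V} {v w : V}

theorem br_iff (hT : T.IsTree) {x y p : V} (h : T.Adj x y) :
    T.dist x p = T.dist x y + T.dist y p ↔ p ∈ Br T x y := by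
  rw [mem_Br]
  have h1 : T.dist x y = 1 := SimpleGraph.dist_eq_one_iff_adj.mpr h
  have h2 := hT.dist_eq_dist_add_one_of_adj p h
  rw [h1, T.dist_comm (u := x) (v := p), T.dist_comm (u := y) (v := p)]
  omega

theorem move1 (hT : T.IsTree) (hG : ∀ (g : G) (x y : V), T.Adj x y → T.Adj (g • x) (g • y))
    (ha : T.Adj v w) {x : G} {p : V} (h1 : x • v = v) (h2 : x • w ≠ w) (hp : p ∈ Br T v w) :
    x • p ∈ Br T w v := by
  have hau : T.Adj v (x • w) := by
    have := hG x v w ha
    rwa [h1] at this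
  have := smul_Br hT hG x hp
  rw [h1] at this
  exact br_sub hT ha hau h2 this

theorem move3 (hT : T.IsTree) (hG : ∀ (g : G) (x y : V), T.Adj x y → T.Adj (g • x) (g • y))
    (ha : T.Adj v w) {x : G} {p : V} (h1 : x • v = w) (h2 : x • w ≠ v) (hp : p ∈ Br T v w) :
    x • p ∈ Br T v w := by
  have hau : T.Adj w (x • w) := by
    have := hG x v w ha
    rwa [h1] at this
  have := smul_Br hT hG x hp
  rw [h1] at this
  exact br_sub hT ha.symm hau h2 this

end TRGAux

open TRGAux Pool.Agent.Lib.MP8a3537.UV.TREAux in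
theorem specTRG : SpecTRG := by
  intro G V _ _ T v w hT hG ha hinv
  have ht : ∀ p, p ∈ DD T.dist w v true ↔ p ∈ Br T v w := fun p => br_iff hT ha
  have hf : ∀ p, p ∈ DD T.dist w v false ↔ p ∈ Br T w v := fun p => br_iff hT ha.symm
  refine ⟨ha.symm.ne, ?_, ?_⟩
  · intro g
    rw [Subgroup.mem_inf, MulAction.mem_stabilizer_iff, MulAction.mem_stabilizer_iff]
    exact and_comm
  · intro s t x p hx hp
    cases s <;> cases t
    · -- false false
      have hx' : x • w = v := by
        have h : x⁻¹ • v = w := hx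
        rw [inv_smul_eq_iff] at h
        exact h.symm
      rw [hf] at hp ⊢
      exact move3 hT hG ha.symm hx' (fun e => hinv x ⟨e, hx'⟩) hp
    · -- false true
      have hx' : x • v = v ∧ x • w ≠ w := hx
      rw [ht] at hp
      rw [hf]
      exact move1 hT hG ha hx'.1 hx'.2 hp
    · -- true false
      have hx' : x • w = w ∧ x • v ≠ v := hx
      rw [hf] at hp
      rw [ht]
      exact move1 hT hG ha.symm hx'.1 hx'.2 hp
    · -- true true
      have hx' : x • v = w := hx
      rw [ht] at hp ⊢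
      exact move3 hT hG ha hx' (fun e => hinv x ⟨hx', e⟩) hp

end Pool.Agent.Lib.MP8a3537.ROK
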