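import Pool.Agent.Lib.MP_8a3537_gt.ROK.Spec
import Pool.Agent.Lib.MP_8a3537_gt.RO.TRX

/-! Module TRK (helper86): the data of an edge. -/

namespace Pool.Agent.Lib.MP8a3537.ROK

open Matrix Pool.Agent.Lib.MP8a3537.UV Pool.Agent.Lib.MP8a3537.AU Pool.Agent.Lib.MP8a3537.RO

namespace TRKAux

open Pool.Agent.Lib.MP8a3537.UV.TREAux

variable {G V : Type} [Group G] [MulAction G V] {T : SimpleGraph V} {v w : V}

theorem br_anti {x y u : V} (h : u ∈ Br T x y) : u ∉ Br T y x := by
  rw [mem_Br] at h ⊢
  omega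

theorem yy {y : G} (h1 : y ∈ YY G T v w) (h2 : y ∈ YY G T w v) :
    y ∈ MulAction.stabilizer G v ⊓ MulAction.stabilizer G w := by
  rw [Subgroup.mem_inf, MulAction.mem_stabilizer_iff, MulAction.mem_stabilizer_iff]
  refine ⟨?_, ?_⟩
  · rcases h1.2 with h | h
    · exact absurd h (br_anti h2.1)
    · exact h
  · rcases h2.2 with h | h
    · exact absurd h (br_anti h1.1)
    · exact h

theorem conj_fix {x h : G} {a b : V} (hx : x • a = b) (hh : h • a = a) :
    (x * h * x⁻¹) • b = b := by
  rw [← hx, smul_smul, inv_mul_cancel_right, mul_smul, hh]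

theorem cj1 (hT : T.IsTree) (hG : ∀ (g : G) (x y : V), T.Adj x y → T.Adj (g • x) (g • y))
    (ha : T.Adj v w) {y : G} (hy : y • v = v) :
    y ∈ MulAction.stabilizer G v ⊓ MulAction.stabilizer G w ∨
      ∀ t ∈ YY G T v w, y * t ∉ YY G T v w := by
  by_cases h : y • w = w
  · left
    rw [Subgroup.mem_inf, MulAction.mem_stabilizer_iff, MulAction.mem_stabilizer_iff]
    exact ⟨hy, h⟩
  · right
    intro t ht
    exact TRXM.nn hT hG ha ⟨hy, h⟩ ht

end TRKAux

open Pool.Agent.Lib.MP8a3537.UV.TREAux TRKAux in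
theorem specTRK : SpecTRK := by
  intro G V _ _ T v w hT hG ha hinv htwo
  refine ⟨YY G T v w, YY G T w v, ?_⟩
  have hP := TRXM.pingpong hT hG ha hinv htwo
  have hne : v ≠ w := ha.ne
  refine { toPingPong := hP, yy := ?_, xh := ?_, cj := ?_ }
  · intro y h1 h2
    exact yy h1 h2
  · intro s t x hx hH
    rw [Subgroup.mem_inf, MulAction.mem_stabilizer_iff, MulAction.mem_stabilizer_iff] at hH
    cases s <;> cases t
    · -- `Xinv X3`
      have h1 : x⁻¹ • v = w := hx
      rw [inv_smul_eq_iff, hH.2] at h1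
      exact hne h1
    · exact hx.2 hH.2
    · exact hx.2 hH.1
    · have h1 : x • v = w := hx
      rw [hH.1] at h1
      exact hne h1
  · intro s t x h hx hh
    rw [Subgroup.mem_inf, MulAction.mem_stabilizer_iff, MulAction.mem_stabilizer_iff] at hh
    cases s
    · -- `x h x⁻¹` fixes `v`
      have key : (x * h * x⁻¹) • v = v := by
        cases t
        · have h1 : x⁻¹ • v = w := hx
          have h2 : x • w = v := by rw [← h1, smul_inv_smul]
          exact conj_fix h2 hh.2
        · exact conj_fix hx.1 hh.1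
      exact cj1 hT hG ha key
    · have key : (x * h * x⁻¹) • w = w := by
        cases t
        · exact conj_fix hx.1 hh.2
        · exact conj_fix (show x • v = w from hx) hh.1
      have := cj1 hT hG ha.symm key
      rwa [inf_comm] at this

end Pool.Agent.Lib.MP8a3537.ROK
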