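import Pool.Agent.Lib.MP_8a3537_gt.ROK.Spec

/-!
# WDK: words (helper30)
-/

namespace Pool.Agent.Lib.MP8a3537.ROK

open Matrix Pool.Agent.Lib.MP8a3537.UV Pool.Agent.Lib.MP8a3537.AU Pool.Agent.Lib.MP8a3537.RO

namespace WDKAux

variable {G : Type} [Group G] {H : Subgroup G} {X1 X2 X3 Yp Ym X1' : Set G}

theorem self (P : PPK H X1 X2 X3 Yp Ym) : Sub1 H X1 X2 X3 Yp Ym X1 where
  pp := P.toPingPong
  sub := subset_rfl
  bi := ⟨P.X1l, P.X1r⟩
  inv := P.X1i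

theorem subX (S : Sub1 H X1 X2 X3 Yp Ym X1') :
    ∀ s r, XX X1' X2 X3 s r ⊆ XX X1 X2 X3 s r := by
  intro s r
  cases s <;> cases r
  · exact subset_rfl
  · exact S.sub
  · exact subset_rfl
  · exact subset_rfl

theorem invX (P : PPK H X1 X2 X3 Yp Ym) :
    ∀ s r x, x ∈ XX X1 X2 X3 s r → x⁻¹ ∈ XX X1 X2 X3 (!r) (!s) := by
  intro s r x hx
  cases s <;> cases r
  · exact hx
  · exact P.X1i x hx
  · exact P.X2i x hx
  · change x⁻¹⁻¹ ∈ X3
    rw [inv_inv]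
    exact hx

theorem zero (U : RO.SpecUNQ) (P : PPK H X1 X2 X3 Yp Ym) (s r : Bool) (x y : G)
    (hx : x ∈ XX X1 X2 X3 s r) (hy : y ∈ YB Yp Ym r) : x * y ∉ H := by
  intro hh
  obtain ⟨u1, _, u3, u4⟩ := U G H X1 X2 X3 Yp Ym P.toPingPong
  have h1 : x⁻¹ * (x * y) ∈ XX X1 X2 X3 (!r) (!s) := (u3 _ _).2 _ hh _ (invX P s r x hx)
  have h2 := u1 _ _ _ _ h1 (u4 (!s)).1
  have h3 : x⁻¹ * (x * y) * 1 = y := by group
  rw [h3] at h2
  have h4 : y ∈ H := by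
    cases r
    · exact P.yy y h2 hy
    · exact P.yy y hy h2
  refine P.xh s r x hx ?_
  have h5 := H.mul_mem hh (H.inv_mem h4)
  rwa [mul_inv_cancel_right] at h5

theorem two (U : RO.SpecUNQ) (P : PPK H X1 X2 X3 Yp Ym) (S : Sub1 H X1 X2 X3 Yp Ym X1')
    {k : ℕ} {s t : Bool} {z : G} (hz : Wd H X1' X2 X3 k s t z) :
    ∀ h ∈ H, z * h * z⁻¹ ∈ H ∨ ∀ y ∈ YB Yp Ym (!s), z * h * z⁻¹ * y ∉ YB Yp Ym (!s) := by
  obtain ⟨u1, _, _, _⟩ := U G H X1 X2 X3 Yp Ym P.toPingPong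
  induction hz with
  | base hz =>
    intro h hh
    exact Or.inl (H.mul_mem (H.mul_mem hz hh) (H.inv_mem hz))
  | @cons k s r t x z hx _ ih =>
    intro h hh
    have hx' := subX S _ _ hx
    have e : x * z * h * (x * z)⁻¹ = x * (z * h * z⁻¹) * x⁻¹ := by group
    rcases ih h hh with h1 | h1
    · rcases P.cj s r x _ hx' h1 with h2 | h2
      · left
        rw [e]
        exact h2
      · right
        intro y hy
        rw [e]
        exact h2 y hy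
    · right
      intro y hy hc
      have hi := invX P s r x hx'
      refine h1 (x⁻¹ * y) (u1 _ _ _ _ hi hy) ?_
      have h3 := u1 _ _ _ _ hi hc
      have e2 : x⁻¹ * (x * z * h * (x * z)⁻¹ * y) = z * h * z⁻¹ * (x⁻¹ * y) := by group
      rwa [e2] at h3

end WDKAux

theorem specWDK (hUNQ : RO.SpecUNQ) (hWDA : RO.SpecWDA) : SpecWDK := by
  intro G _ H X1 X2 X3 Yp Ym P
  refine ⟨fun s r x y hx hy => WDKAux.zero hUNQ P s r x y hx hy, fun X1' S => ⟨?_, ?_⟩⟩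
  · intro k s t z y hz hy
    cases hz with
    | @cons k s r t x z hx hz =>
      rw [mul_assoc]
      exact WDKAux.zero hUNQ P s r x _ (WDKAux.subX S _ _ hx)
        ((hWDA G H X1 X2 X3 Yp Ym X1' S).2.2.2.1 _ _ _ _ _ hz hy)
  · intro k s t z h hz hh
    exact WDKAux.two hUNQ P S hz h hh

end Pool.Agent.Lib.MP8a3537.ROK
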