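import Pool.Agent.Lib.MP_8a3537_gt.RO.UNQ
import Pool.Agent.Lib.MP_8a3537_gt.RO.WDA
import Pool.Agent.Lib.MP_8a3537_gt.RO.HLF
import Pool.Agent.Lib.MP_8a3537_gt.RO.JNT
import Pool.Agent.Lib.MP_8a3537_gt.RO.EFA
import Pool.Agent.Lib.MP_8a3537_gt.RO.WNI
import Pool.Agent.Lib.MP_8a3537_gt.RO.NWC
import Pool.Agent.Lib.MP_8a3537_gt.RO.NWT
import Pool.Agent.Lib.MP_8a3537_gt.RO.ELM
import Pool.Agent.Lib.MP_8a3537_gt.RO.FAC
import Pool.Agent.Lib.MP_8a3537_gt.RO.SCH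
import Pool.Agent.Lib.MP_8a3537_gt.RO.SCU
import Pool.Agent.Lib.MP_8a3537_gt.RO.KNA
import Pool.Agent.Lib.MP_8a3537_gt.RO.KSP
import Pool.Agent.Lib.MP_8a3537_gt.RO.SBT
import Pool.Agent.Lib.MP_8a3537_gt.RO.LVB
import Pool.Agent.Lib.MP_8a3537_gt.RO.STA
import Pool.Agent.Lib.MP_8a3537_gt.RO.STB
import Pool.Agent.Lib.MP_8a3537_gt.RO.SUB
import Pool.Agent.Lib.MP_8a3537_gt.RO.SUR
import Pool.Agent.Lib.MP_8a3537_gt.RO.SUM
import Pool.Agent.Lib.MP_8a3537_gt.RO.CMP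
import Pool.Agent.Lib.MP_8a3537_gt.RO.YGX
import Pool.Agent.Lib.MP_8a3537_gt.RO.SWB
import Pool.Agent.Lib.MP_8a3537_gt.RO.FPM
import Pool.Agent.Lib.MP_8a3537_gt.RO.SBF
import Pool.Agent.Lib.MP_8a3537_gt.ROK.FNK
import Pool.Agent.Lib.MP_8a3537_gt.ROK.TRK
import Pool.Agent.Lib.MP_8a3537_gt.ROK.TRG
import Pool.Agent.Lib.MP_8a3537_gt.ROK.FPT
import Pool.Agent.Lib.MP_8a3537_gt.ROK.STC
import Pool.Agent.Lib.MP_8a3537_gt.ROK.STX
import Pool.Agent.Lib.MP_8a3537_gt.ROK.STY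
import Pool.Agent.Lib.MP_8a3537_gt.ROK.BAS
import Pool.Agent.Lib.MP_8a3537_gt.ROK.MNK
import Pool.Agent.Lib.MP_8a3537_gt.ROK.BLK
import Pool.Agent.Lib.MP_8a3537_gt.ROK.BLG
import Pool.Agent.Lib.MP_8a3537_gt.ROK.SBK
import Pool.Agent.Lib.MP_8a3537_gt.ROK.CLC
import Pool.Agent.Lib.MP_8a3537_gt.ROK.WDK
import Pool.Agent.Lib.MP_8a3537_gt.ROK.SYK
import Pool.Agent.Lib.MP_8a3537_gt.ROK.TFA
import Pool.Agent.Lib.MP_8a3537_gt.ROK.DRA
import Pool.Agent.Lib.MP_8a3537_gt.ROK.DRB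
import Pool.Agent.Lib.MP_8a3537_gt.ROK.DRC
import Pool.Agent.Lib.MP_8a3537_gt.ROK.DRG
import Pool.Agent.Lib.MP_8a3537_gt.ROK.RMV
import Pool.Agent.Lib.MP_8a3537_gt.ROK.HLK
import Pool.Agent.Lib.MP_8a3537_gt.ROK.NEI
import Pool.Agent.Lib.MP_8a3537_gt.ROK.NEN
import Pool.Agent.Lib.MP_8a3537_gt.ROK.NES

/-! The theorem of the folder ROK, without hypotheses. -/

namespace Pool.Agent.Lib.MP8a3537.ROK

open Pool.Agent.Lib.MP8a3537.RO

theorem mWDA : RO.SpecWDA := RO.specWDA RO.specUNQ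

theorem mWNI : RO.SpecWNI := RO.specWNI RO.specUNQ mWDA

theorem mEFA : RO.SpecEFA := RO.specEFA (RO.specJNT RO.specUNQ)

theorem mELM : RO.SpecELM :=
  RO.specELM mEFA RO.specFAC (RO.specSCU RO.specSCH) RO.specKNA (RO.specKSP mWDA)

theorem mNWT : RO.SpecNWT := RO.specNWT mEFA RO.specNWC RO.specHLF

theorem mSUB : RO.SpecSUB := RO.specSUB RO.specSUR RO.specSWB

theorem mSTB : RO.SpecSTB := RO.specSTB mSUB RO.specCMP RO.specSUM RO.specYGX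

theorem mSTA : RO.SpecSTA := RO.specSTA RO.specSUR RO.specCMP RO.specSUM

theorem mSBT : RO.SpecSBT := RO.specSBT (RO.specLVB mSTB mSTA mSUB)

theorem mSBF : RO.SpecSBF := RO.specSBF RO.specFPM RO.specCMP RO.specSUM RO.specYGX

theorem mWDK : SpecWDK := specWDK RO.specUNQ mWDA

theorem mSBK : SpecSBK := specSBK mWDA

theorem mCLC : SpecCLC := specCLC RO.specUNQ mWDA mWDK mSBK

theorem mBLK : SpecBLK := specBLK mWDA mWNI mWDK mSBK mCLC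

theorem mBLG : SpecBLG := specBLG specTFA mSBK

theorem mDRA : SpecDRA := specDRA mWDK

theorem mDRC : SpecDRC := specDRC RO.specUNQ mWDA mWNI mWDK mDRA (specDRB mDRA)

theorem mRMV : SpecRMV := specRMV mEFA RO.specKNA mELM

theorem mSTY : SpecSTY := specSTY mEFA mDRC specHLK (specNEI RO.specSCH) specNEN specNES

theorem mSTX : SpecSTX := specSTX mSBK mBLK specSYK mBLG

theorem mSTC : SpecSTC := specSTC specSYK mDRC specDRG mRMV mSTY mSTX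

theorem mBAS : SpecBAS := specBAS mSBT mSBF

theorem mMNK : SpecMNK := specMNK mNWT mSBK mBLK specSYK mBLG mRMV

/-- The theorem for trees. -/
theorem mFNK : SpecFNK := specFNK specTRK specTRG specFPT mSTC mBAS mMNK

end Pool.Agent.Lib.MP8a3537.ROK
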