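import Pool.Agent.Lib.MP_8a3537_gt.ROK.Spec

/-!
# Module DRB: uniqueness for the derived data
-/

namespace Pool.Agent.Lib.MP8a3537.ROK

open Matrix Pool.Agent.Lib.MP8a3537.UV Pool.Agent.Lib.MP8a3537.AU Pool.Agent.Lib.MP8a3537.RO

namespace DRBAux

variable {G : Type} [Group G]

/-- The words of `T`, generated from the right. -/
inductive TR (Xa W : Set G) : G → Prop
  | base {z : G} : z ∈ W → TR Xa W z
  | snoc {w e z : G} : TR Xa W w → e ∈ Xa → z ∈ W → TR Xa W (w * e * z)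

theorem TR_cons {Xa W : Set G} {z e w : G} (hz : z ∈ W) (he : e ∈ Xa) (hw : TR Xa W w) :
    TR Xa W (z * e * w) := by
  induction hw with
  | base h => exact TR.snoc (TR.base hz) he h
  | @snoc w1 e1 z1 hw1 he1 hz1 ih =>
    have h1 : z * e * (w1 * e1 * z1) = (z * e * w1) * e1 * z1 := by group
    rw [h1]
    exact TR.snoc ih he1 hz1

theorem TR_of_TT {Xa W : Set G} {w : G} (hw : TT Xa W w) : TR Xa W w := by
  induction hw with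
  | base h => exact TR.base h
  | cons hz he _ ih => exact TR_cons hz he ih

theorem TR_mul {Xa W : Set G} {L : Subgroup G} (hW : Bi L W) {w l : G} (hw : TR Xa W w)
    (hl : l ∈ L) : TR Xa W (w * l) := by
  cases hw with
  | base h => exact TR.base (hW.2 l hl _ h)
  | @snoc w1 e1 z1 hw1 he1 hz1 =>
    have h1 : w1 * e1 * z1 * l = w1 * e1 * (z1 * l) := by group
    rw [h1]
    exact TR.snoc hw1 he1 (hW.2 l hl _ hz1)

theorem TT_of_TR {L : Subgroup G} {g : G} {Xb Yp Ym W : Set G} (hA : SpecDRA)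
    (P : PPK L (La L g) Xb ∅ Yp Ym) (hf : Hf L Xb W) {w : G} (hw : TR (La L g) W w) :
    w ∈ TS (La L g) W := by
  obtain ⟨-, -, d3, -⟩ := hA G L g Xb Yp Ym W P hf
  induction hw with
  | base h => exact TT.base h
  | @snoc w1 e1 z1 hw1 he1 hz1 ih => exact d3 w1 ih e1 he1 z1 (TT.base hz1)

/-- (S3) of the paper. -/
theorem S3 {L : Subgroup G} {g : G} {Xb Yp Ym W : Set G} (hA : SpecDRA)
    (P : PPK L (La L g) Xb ∅ Yp Ym) (hf : Hf L Xb W) {w : G} (hw : TT (La L g) W w) :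
    ∀ w', TT (La L g) W w' → ∀ y ∈ YS L (La L g) (XD (La L g) W) false,
    ∀ y' ∈ YS L (La L g) (XD (La L g) W) false, w * y = w' * y' → w⁻¹ * w' ∈ L := by
  obtain ⟨d1, d2, d3, d4, d5, d6, d7, d8, d9⟩ := hA G L g Xb Yp Ym W P hf
  have hYm : ∀ y ∈ YS L (La L g) (XD (La L g) W) false, y ∈ Ym := fun y hy => d7 false y hy
  -- the mixed case
  have mix : ∀ z ∈ W, ∀ z' ∈ W, ∀ e' ∈ La L g, ∀ w1', TT (La L g) W w1' →
      ∀ y ∈ YS L (La L g) (XD (La L g) W) false,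
      ∀ y' ∈ YS L (La L g) (XD (La L g) W) false, z * y = z' * e' * w1' * y' → False := by
    intro z hz z' hz' e' he' w1' hw1' y hy y' hy' he
    have h1 : w1' * y' ∈ Yp := (d5 w1' hw1' y' (hYm y' hy')).1
    have h2 : e' * (w1' * y') ∈ Ym := P.X1Y e' he' _ h1
    have h3 : z⁻¹ * z' ∈ L := by
      refine P.u2 z (hf.sub z hz) z' (hf.sub z' hz') y (hYm y hy) _ h2 ?_
      rw [he]
      group
    obtain ⟨z2, hz2, y2, hy2, h4⟩ := (d6 w1' hw1' y' (hYm y' hy')).1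
    have h5 : (z⁻¹ * z') * e' ∈ La L g := P.X1l _ h3 e' he'
    refine d8 _ h5 z2 hz2 y2 hy2 ?_
    rw [← h4]
    have h6 : z⁻¹ * z' * e' * (w1' * y') = z⁻¹ * (z' * e' * w1' * y') := by group
    rw [h6, ← he, inv_mul_cancel_left]
    exact hy
  induction hw with
  | @base z hz =>
    intro w' hw' y hy y' hy' he
    cases hw' with
    | base hz' =>
      exact P.u2 z (hf.sub z hz) _ (hf.sub _ hz') y (hYm y hy) y' (hYm y' hy') he
    | @cons z' e' w1' hz' he' hw1' => exact (mix z hz z' hz' e' he' w1' hw1' y hy y' hy' he).elim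
  | @cons z e w1 hz hE hw1 ih =>
    intro w' hw' y hy y' hy' he
    cases hw' with
    | base hz' => exact (mix _ hz' z hz e hE w1 hw1 y' hy' y hy he.symm).elim
    | @cons z' e' w1' hz' hE' hw1' =>
      have h1 : e * (w1 * y) ∈ Ym := P.X1Y e hE _ (d5 w1 hw1 y (hYm y hy)).1
      have h1' : e' * (w1' * y') ∈ Ym := P.X1Y e' hE' _ (d5 w1' hw1' y' (hYm y' hy')).1
      have h3 : z⁻¹ * z' ∈ L := by
        refine P.u2 z (hf.sub z hz) z' (hf.sub z' hz') _ h1 _ h1' ?_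
        have a1 : z * (e * (w1 * y)) = z * e * w1 * y := by group
        have a2 : z' * (e' * (w1' * y')) = z' * e' * w1' * y' := by group
        rw [a1, a2, he]
      have h5 : (z⁻¹ * z') * e' ∈ La L g := P.X1l _ h3 e' hE'
      have h6 : e⁻¹ * ((z⁻¹ * z') * e') ∈ L := (d1 e hE _ h5).1
      have h7 : w1⁻¹ * ((e⁻¹ * ((z⁻¹ * z') * e')) * w1') ∈ L := by
        refine ih _ (d2 _ h6 w1' hw1').1 y hy y' hy' ?_
        have a1 : e⁻¹ * ((z⁻¹ * z') * e') * w1' * y' = e⁻¹ * z⁻¹ * (z' * e' * w1' * y') := by group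
        rw [a1, ← he]
        group
      have a2 : (z * e * w1)⁻¹ * (z' * e' * w1') = w1⁻¹ * ((e⁻¹ * ((z⁻¹ * z') * e')) * w1') := by
        group
      rw [a2]
      exact h7

/-- The set `V` of (S4). -/
def VV (L : Subgroup G) (g : G) (W : Set G) : Set G :=
  {v | ∃ e ∈ La L g, ∃ w ∈ TS (La L g) W, ∃ y ∈ YS L (La L g) (XD (La L g) W) false,
    v = e * (w * y)}

/-- (S4) of the paper. -/
theorem S4 {L : Subgroup G} {g : G} {Xb Yp Ym W : Set G} (hA : SpecDRA)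
    (P : PPK L (La L g) Xb ∅ Yp Ym) (hf : Hf L Xb W) {w : G} (hw : TR (La L g) W w) :
    ∀ w', TR (La L g) W w' → ∀ v ∈ VV L g W, ∀ v' ∈ VV L g W, w⁻¹ * v = w'⁻¹ * v' →
      ∃ l ∈ L, v' = l * v := by
  obtain ⟨d1, d2, d3, d4, d5, d6, d7, d8, d9⟩ := hA G L g Xb Yp Ym W P hf
  have hV : ∀ v ∈ VV L g W, v ∈ Ym := by
    rintro v ⟨e, he, w2, hw2, y, hy, rfl⟩
    exact P.X1Y e he _ (d5 w2 hw2 y (d7 false y hy)).1
  have hT : ∀ w, TR (La L g) W w → w ∈ TS (La L g) W := fun w hw => TT_of_TR hA P hf hw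
  -- the mixed case
  have mix : ∀ z ∈ W, ∀ z' ∈ W, ∀ e' ∈ La L g, ∀ w1', TR (La L g) W w1' → ∀ v ∈ VV L g W,
      ∀ v' ∈ VV L g W, z⁻¹ * v = (w1' * e' * z')⁻¹ * v' → False := by
    intro z hz z' hz' e' he' w1' hw1' v hv v' hv' he
    have hi : e'⁻¹ ∈ La L g := P.X1i e' he'
    have h1 : w1'⁻¹ * v' ∈ Yp := (d5 w1' (hT w1' hw1') v' (hV v' hv')).2
    have h2 : e'⁻¹ * (w1'⁻¹ * v') ∈ Ym := P.X1Y _ hi _ h1
    have h3 : (z⁻¹)⁻¹ * z'⁻¹ ∈ L := by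
      refine P.u2 z⁻¹ (P.X2i z (hf.sub z hz)) z'⁻¹ (P.X2i z' (hf.sub z' hz')) v (hV v hv) _ h2 ?_
      rw [he]
      group
    obtain ⟨z2, hz2, y2, hy2, h4⟩ := (d6 w1' (hT w1' hw1') v' (hV v' hv')).2
    obtain ⟨e, hE, w2, hw2, y, hy, hve⟩ := hv
    obtain ⟨z3, hz3, y3, hy3, h5⟩ := (d6 w2 hw2 y (d7 false y hy)).1
    refine d9 e hE _ (P.X1l _ h3 _ hi) z3 hz3 z2 hz2 y3 hy3 y2 hy2 ?_
    rw [← h5, ← h4, ← hve]
    have a1 : (z⁻¹)⁻¹ * z'⁻¹ * e'⁻¹ * (w1'⁻¹ * v') = z * ((w1' * e' * z')⁻¹ * v') := by group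
    rw [a1, ← he, mul_inv_cancel_left]
  induction hw with
  | @base z hz =>
    intro w' hw' v hv v' hv' he
    cases hw' with
    | base hz' =>
      have h3 : (z⁻¹)⁻¹ * w'⁻¹ ∈ L :=
        P.u2 z⁻¹ (P.X2i z (hf.sub z hz)) w'⁻¹ (P.X2i w' (hf.sub w' hz')) v (hV v hv) v' (hV v' hv') he
      refine ⟨((z⁻¹)⁻¹ * w'⁻¹)⁻¹, L.inv_mem h3, ?_⟩
      have a1 : ((z⁻¹)⁻¹ * w'⁻¹)⁻¹ * v = w' * (z⁻¹ * v) := by group
      rw [a1, he, mul_inv_cancel_left]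
    | @snoc w1' e' z' hw1' he' hz' => exact (mix z hz z' hz' e' he' w1' hw1' v hv v' hv' he).elim
  | @snoc w1 e z hw1 hE hz ih =>
    intro w' hw' v hv v' hv' he
    cases hw' with
    | base hz' => exact (mix _ hz' z hz e hE w1 hw1 v' hv' v hv he.symm).elim
    | @snoc w1' e' z' hw1' hE' hz' =>
      have hi : e⁻¹ ∈ La L g := P.X1i e hE
      have hi' : e'⁻¹ ∈ La L g := P.X1i e' hE'
      have h1 : e⁻¹ * (w1⁻¹ * v) ∈ Ym := P.X1Y _ hi _ (d5 w1 (hT w1 hw1) v (hV v hv)).2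
      have h1' : e'⁻¹ * (w1'⁻¹ * v') ∈ Ym := P.X1Y _ hi' _ (d5 w1' (hT w1' hw1') v' (hV v' hv')).2
      have h3 : (z⁻¹)⁻¹ * z'⁻¹ ∈ L := by
        refine P.u2 z⁻¹ (P.X2i z (hf.sub z hz)) z'⁻¹ (P.X2i z' (hf.sub z' hz')) _ h1 _ h1' ?_
        have a1 : z⁻¹ * (e⁻¹ * (w1⁻¹ * v)) = (w1 * e * z)⁻¹ * v := by group
        have a2 : z'⁻¹ * (e'⁻¹ * (w1'⁻¹ * v')) = (w1' * e' * z')⁻¹ * v' := by group
        rw [a1, a2, he]
      have h5 : ((z⁻¹)⁻¹ * z'⁻¹) * e'⁻¹ ∈ La L g := P.X1l _ h3 _ hi'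
      have h6 : e * (((z⁻¹)⁻¹ * z'⁻¹) * e'⁻¹) ∈ L := (d1 e hE _ h5).2
      refine ih (w1' * (e * (((z⁻¹)⁻¹ * z'⁻¹) * e'⁻¹))⁻¹) (TR_mul hf.bi hw1' (L.inv_mem h6)) v hv v'
        hv' ?_
      have a1 : w1⁻¹ * v = e * z * ((w1 * e * z)⁻¹ * v) := by group
      rw [a1, he]
      group

end DRBAux

open DRBAux in
/-- **Module DRB**. -/
theorem specDRB (hA : SpecDRA) : SpecDRB := by
  intro G _ L g Xb Yp Ym W P hf z hz z' hz' y hy y' hy' he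
  obtain ⟨d1, d2, d3, d4, d5, d6, d7, d8, d9⟩ := hA G L g Xb Yp Ym W P hf
  obtain ⟨w1, hw1, e, hE, w2, hw2, rfl⟩ := hz
  obtain ⟨w1', hw1', e', hE', w2', hw2', rfl⟩ := hz'
  obtain ⟨l, hl, h1⟩ := S4 hA P hf (TR_of_TT hw1) w1' (TR_of_TT hw1') (e * (w2 * y))
    ⟨e, hE, w2, hw2, y, hy, rfl⟩ (e' * (w2' * y')) ⟨e', hE', w2', hw2', y', hy', rfl⟩ (by
      have a1 : w1⁻¹ * (e * (w2 * y)) = w1⁻¹ * e * w2 * y := by group
      have a2 : w1'⁻¹ * (e' * (w2' * y')) = w1'⁻¹ * e' * w2' * y' := by group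
      rw [a1, a2, he])
  have h2 : l⁻¹ * e' ∈ La L g := P.X1l _ (L.inv_mem hl) e' hE'
  have h3 : e⁻¹ * (l⁻¹ * e') ∈ L := (d1 e hE _ h2).1
  have h4 : w2⁻¹ * ((e⁻¹ * (l⁻¹ * e')) * w2') ∈ L := by
    refine S3 hA P hf hw2 _ (d2 _ h3 w2' hw2').1 y hy y' hy' ?_
    have a1 : e⁻¹ * (l⁻¹ * e') * w2' * y' = e⁻¹ * l⁻¹ * (e' * (w2' * y')) := by group
    rw [a1, h1]
    group
  have h5 : y * y'⁻¹ ∈ L := by
    have a1 : y * y'⁻¹ = w2⁻¹ * ((e⁻¹ * (l⁻¹ * e')) * w2') := by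
      have a2 : y = w2⁻¹ * (e⁻¹ * l⁻¹ * (e' * (w2' * y'))) := by
        rw [h1]
        group
      have a3 : y * y'⁻¹ = w2⁻¹ * (e⁻¹ * l⁻¹ * (e' * (w2' * y'))) * y'⁻¹ := by
        rw [← a2]
      rw [a3]
      group
    rw [a1]
    exact h4
  have h6 : (w1⁻¹ * e * w2)⁻¹ * (w1'⁻¹ * e' * w2') = y * y'⁻¹ := by
    have a1 : w1'⁻¹ * e' * w2' = w1⁻¹ * e * w2 * y * y'⁻¹ := by
      rw [he]
      group
    rw [a1]
    group
  rw [h6]
  exact h5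

end Pool.Agent.Lib.MP8a3537.ROK
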