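import Pool.Agent.Lib.MP_8a3537_gt.ROK.Main
import Pool.Agent.Lib.MP_8a3537_gt.AUL.Main
import Pool.Agent.Lib.MP_8a3537_gt.UV.FIN
import Pool.Agent.Lib.MP_8a3537_gt.UV.RES
import Pool.Agent.Lib.MP_8a3537_gt.UV.STK
import Pool.Agent.Lib.MP_8a3537_gt.UV.TAT
import Pool.Agent.Lib.MP_8a3537_gt.UV.EMV
import Pool.Agent.Lib.MP_8a3537_gt.UV.SWP
import Pool.Agent.Lib.MP_8a3537_gt.UV.NIL
import Pool.Agent.Lib.MP_8a3537_gt.UV.IND
import Pool.Agent.Lib.MP_8a3537_gt.UV.TRE
import Pool.Agent.Lib.MP_8a3537_gt.UV.HTR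
import Pool.Agent.Lib.MP_8a3537_gt.UV.WAL
import Pool.Agent.Lib.MP_8a3537_gt.UV.LFT
import Pool.Agent.Lib.MP_8a3537_gt.UV.FLD
import Pool.Agent.Lib.MP_8a3537_gt.UV.PID
import Pool.Agent.Lib.MP_8a3537_gt.UV.LOC

/-!
# The theorem of the folder ROK with conditions on the segments through the edge only, and for groups
-/

set_option autoImplicit false

namespace Pool.Agent.Lib.MP8a3537.ROK

open Matrix Pool.Agent.Lib.MP8a3537.UV Pool.Agent.Lib.MP8a3537.AU Pool.Agent.Lib.MP8a3537.RO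

namespace FinalAux

/-- `v` lies between `x` and `y`. -/
def Btw {V : Type} (d : V → V → ℕ) (v x y : V) : Prop := d x y = d x v + d v y

theorem btw_step {G V : Type} [Group G] [MulAction G V] {d : V → V → ℕ} (hd : TM G d)
    {v x1 x2 y : V} (h : Btw d v x1 x2) (h2 : d x2 y = d x2 x1 + d x1 y) : Btw d v x2 y := by
  unfold Btw at h ⊢
  have t1 := hd.tri x2 v y
  have t2 := hd.tri v x1 y
  have c1 := hd.cm x1 x2
  have c2 := hd.cm x1 v
  have c3 := hd.cm v x2
  omega

theorem gd_of_btw {R G V : Type} [Ring R] [StarRing R] [Group G] [MulAction G V] {d : V → V → ℕ}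
    (hd : TM G d) {k : ℕ} {v w : V}
    (h : ∀ x y : V, k ≤ d x y → Btw d v x y → Btw d w x y → (∃ g : G, g • x = y ∧ g • y = x) →
      Rg R G x y) :
    ∀ (m : ℕ) (x1 x2 : V), Btw d v x1 x2 → Btw d w x1 x2 →
      (∃ g : G, g • x1 = x2 ∧ g • x2 = x1) → k ≤ d x1 x2 + m → Gd R G d x1 x2 := by
  intro m
  induction m with
  | zero =>
    intro x1 x2 b1 b2 hg hk
    exact Gd.reg (h x1 x2 hk b1 b2 hg)
  | succ m ih =>
    intro x1 x2 b1 b2 _ hk
    refine Gd.step fun f hf => ih x2 (f • x2) (btw_step hd b1 hf.2.1) (btw_step hd b2 hf.2.1)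
      ⟨f, rfl, hf.1⟩ ?_
    have h1 : d x1 (f • x2) ≠ 0 := fun h0 => hf.2.2 (((hd.d0 _ _).1 h0).symm)
    have h2 := hf.2.1
    have h3 := hd.cm x1 x2
    omega

end FinalAux

open FinalAux in
/-- **The theorem, with a condition on the exchanged pairs of vertices the segment of which contains
the edge.** -/
theorem long (R G V : Type) [Ring R] [StarRing R] [Group G] [MulAction G V] (T : SimpleGraph V)
    (v w : V) (hT : T.IsTree) (hact : ∀ (g : G) (x y : V), T.Adj x y → T.Adj (g • x) (g • y))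
    (hvw : T.Adj v w) (hinv : ∀ g : G, ¬ (g • v = w ∧ g • w = v))
    (htwo : ∀ g : G, g * g = 1 → (g • v = v ↔ g • w = w)) (k : ℕ)
    (hk : ∀ x y : V, k ≤ T.dist x y → T.dist x y = T.dist x v + T.dist v y →
      T.dist x y = T.dist x w + T.dist w y → (∃ g : G, g • x = y ∧ g • y = x) → Rg R G x y)
    (ε : ℤˣ) (n : ℕ) (ψ μ χ : Matrix (Fin n) (Fin n) (MonoidAlgebra R G))
    (hψ : SuppIn {g | g • v = v ∧ g • w ≠ w} ψ) (hμ : SuppIn {g | g • v = w} μ)
    (hχ : SuppIn {g | g • w = w ∧ g • v ≠ v} χ)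
    (hnil : IsNilpotent (nu ε (ψ + (ε : ℤ) • ψᴴ) μ (χ + (ε : ℤ) • χᴴ))) :
    StablyHyperbolic ε (UF ψ μ χ) := by
  have hd : TM G (V := V) T.dist := specFPT G V T hT hact
  have hG := specTRG G V T v w hT hact hvw hinv
  refine (mFNK R G V T v w hT hact hvw hinv htwo).1 ?_ ?_ ε n ψ μ χ hψ hμ hχ hnil
  · intro g hg hgw hgg
    have h1 : g • w ∈ DD T.dist w v false := by
      refine hG.mv false true g w ⟨hg, hgw⟩ ?_
      change T.dist v w = T.dist v w + T.dist w w
      rw [(hd.d0 w w).2 rfl, Nat.add_zero]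
    refine gd_of_btw hd hk k w (g • w) h1 ?_ ⟨g, rfl, hgg⟩ (Nat.le_add_left _ _)
    change T.dist w (g • w) = T.dist w w + T.dist w (g • w)
    rw [(hd.d0 w w).2 rfl, Nat.zero_add]
  · intro g hg hgv hgg
    have h1 : g • v ∈ DD T.dist w v true := by
      refine hG.mv true false g v ⟨hg, hgv⟩ ?_
      change T.dist w v = T.dist w v + T.dist v v
      rw [(hd.d0 v v).2 rfl, Nat.add_zero]
    refine gd_of_btw hd hk k v (g • v) ?_ h1 ⟨g, rfl, hgg⟩ (Nat.le_add_left _ _)
    change T.dist v (g • v) = T.dist v v + T.dist v (g • v)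
    rw [(hd.d0 v v).2 rfl, Nat.zero_add]

theorem rg_symm {R G V : Type} [Ring R] [StarRing R] [Group G] [MulAction G V] {x y : V}
    (h : Rg R G x y) : Rg R G y x := by
  unfold Rg at h ⊢
  rw [inf_comm (MulAction.stabilizer G y)]
  exact h

/-- The theorem, with a condition on the exchanged pairs `x`, `y` for which the path from `x` to
`y` passes through `v` and then through `w`. -/
theorem longOrd (R G V : Type) [Ring R] [StarRing R] [Group G] [MulAction G V] (T : SimpleGraph V)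
    (v w : V) (hT : T.IsTree) (hact : ∀ (g : G) (x y : V), T.Adj x y → T.Adj (g • x) (g • y))
    (hvw : T.Adj v w) (hinv : ∀ g : G, ¬ (g • v = w ∧ g • w = v))
    (htwo : ∀ g : G, g * g = 1 → (g • v = v ↔ g • w = w)) (k : ℕ)
    (hk : ∀ x y : V, k ≤ T.dist x y → T.dist x y = T.dist x v + 1 + T.dist w y →
      (∃ g : G, g • x = y ∧ g • y = x) → Rg R G x y)
    (ε : ℤˣ) (n : ℕ) (ψ μ χ : Matrix (Fin n) (Fin n) (MonoidAlgebra R G))
    (hψ : SuppIn {g | g • v = v ∧ g • w ≠ w} ψ) (hμ : SuppIn {g | g • v = w} μ)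
    (hχ : SuppIn {g | g • w = w ∧ g • v ≠ v} χ)
    (hnil : IsNilpotent (nu ε (ψ + (ε : ℤ) • ψᴴ) μ (χ + (ε : ℤ) • χᴴ))) :
    StablyHyperbolic ε (UF ψ μ χ) := by
  refine long R G V T v w hT hact hvw hinv htwo k ?_ ε n ψ μ χ hψ hμ hχ hnil
  intro x y h1 h2 h3 h4
  rcases hT.dist_eq_dist_add_one_of_adj x hvw with h | h
  · refine rg_symm (hk y x (by rw [T.dist_comm]; exact h1) ?_ ?_)
    · rw [T.dist_comm (u := y) (v := x), T.dist_comm (u := y) (v := v),
        T.dist_comm (u := w) (v := x)]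
      omega
    · obtain ⟨g, g1, g2⟩ := h4
      exact ⟨g, g2, g1⟩
  · exact hk x y h1 (by omega) h4

/-- The factorization property for locally free groups over a principal ideal domain. -/
theorem fp_free (D H : Type) [CommRing D] [IsDomain D] [IsPrincipalIdealRing D] [Group H]
    (hH : ∀ K : Subgroup H, K.FG → IsFreeGroup K) : FP (MonoidAlgebra D H) := by
  have h : UV.SpecFIN :=
    specFin (specIND (specStk specRES) specTat specEmv specSwp specNIL) specTRE specHTR specWAL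
      (specPid specLFT (specFld specLFT)) (specLoc specRES)
  exact h.2 D H hH

end Pool.Agent.Lib.MP8a3537.ROK
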