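import Pool.Agent.Lib.MP_8a3537_gt.ROK.Spec
import Pool.Agent.Lib.MP_8a3537_gt.RO.NWT
import Pool.Agent.Lib.MP_8a3537_gt.RO.NWC
import Pool.Agent.Lib.MP_8a3537_gt.UV.TAT
import Pool.Agent.Lib.MP_8a3537_gt.UV.SWP

/-!
# ROK, module STY (helper9): the Newton step
-/

namespace Pool.Agent.Lib.MP8a3537.ROK

open Matrix Pool.Agent.Lib.MP8a3537.UV Pool.Agent.Lib.MP8a3537.AU Pool.Agent.Lib.MP8a3537.RO

namespace STYAux

variable {R G : Type} [Ring R] [StarRing R] [Group G]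

theorem key {n : ℕ} (ε : ℤˣ) (ψ : Matrix (Fin n) (Fin n) (MonoidAlgebra R G)) (i j : Fin n) (x : G)
    (h : ((ψ + (ε : ℤ) • ψᴴ) i j).coeff x ≠ 0) :
    (ψ i j).coeff x ≠ 0 ∨ (ψ j i).coeff x⁻¹ ≠ 0 := by
  by_contra hc
  push Not at hc
  apply h
  rw [NWTAux.coeff_sym, hc.1, hc.2, star_zero, smul_zero, add_zero]

theorem supp_sym {X : Set G} (hi : ∀ x ∈ X, x⁻¹ ∈ X) (ε : ℤˣ) {n : ℕ}
    (ψ : Matrix (Fin n) (Fin n) (MonoidAlgebra R G)) (hψ : SuppIn X ψ) :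
    SuppIn X (ψ + (ε : ℤ) • ψᴴ) := by
  intro i j x h
  rcases key ε ψ i j x h with h2 | h2
  · exact hψ i j x h2
  · have h3 := hi _ (hψ j i x⁻¹ h2)
    rwa [inv_inv] at h3

theorem nf_sym {H : Subgroup G} (ε : ℤˣ) {n : ℕ}
    (ψ : Matrix (Fin n) (Fin n) (MonoidAlgebra R G))
    (hf : ∀ i j x, (ψ i j).coeff x ≠ 0 → ¬ Flip H x) :
    ∀ i j x, ((ψ + (ε : ℤ) • ψᴴ) i j).coeff x ≠ 0 → ¬ Flip H x := by
  intro i j x h
  rcases key ε ψ i j x h with h3 | h3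
  · exact hf i j x h3
  · exact fun h4 => hf j i x⁻¹ h3 (NWTAux.flip_inv h4)

omit [StarRing R] [Group G] in
theorem supp_cut {X : Set G} (c : Set G) {n : ℕ} (b : Matrix (Fin n) (Fin n) (MonoidAlgebra R G))
    (hb : SuppIn X b) : SuppIn {x | x ∈ c ∧ x ∈ X} (cutM c b) := by
  classical
  intro i j x h
  unfold cutM at h
  rw [Matrix.map_apply, cut_coeff] at h
  by_cases hx : x ∈ c
  · rw [if_pos hx] at h
    exact ⟨hx, hb i j x h⟩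
  · rw [if_neg hx] at h
    exact absurd rfl h

omit [StarRing R] in
theorem supp_sub {X : Set G} {n : ℕ} (a b : Matrix (Fin n) (Fin n) (MonoidAlgebra R G))
    (ha : SuppIn X a) (hb : SuppIn X b) : SuppIn X (a - b) := by
  intro i j x h
  by_contra hx
  apply h
  have h4 : (a i j).coeff x = 0 := by
    by_contra h5
    exact hx (ha i j x h5)
  have h6 : (b i j).coeff x = 0 := by
    by_contra h5
    exact hx (hb i j x h5)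
  rw [Matrix.sub_apply, MonoidAlgebra.coeff_sub, Finsupp.sub_apply, h4, h6, sub_zero]

/-- the form `(ψ, 1; 0, 0)` -/
theorem sh_zero {A : Type} [Ring A] [StarRing A] (ε : ℤˣ) {n : ℕ} (ψ : Matrix (Fin n) (Fin n) A) :
    StablyHyperbolic ε (UF ψ 0 0) := by
  refine (specSwp A ε n ψ 0 0).1 ?_
  unfold UF
  have h := RO.NWCM.base (ε := ε) (0 : Matrix (Fin n) (Fin n) A) ψ (by simp)
  simpa using h

/-- change of `χ` by `c - ε cᴴ` -/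
theorem change' {A : Type} [Ring A] [StarRing A] (ε : ℤˣ) {n : ℕ} (ψ χ d : Matrix (Fin n) (Fin n) A)
    (h : StablyHyperbolic ε (UF ψ 0 χ)) : StablyHyperbolic ε (UF ψ 0 (χ + d - (ε : ℤ) • dᴴ)) := by
  have h1 := (specSwp A ε n ψ 0 χ).2.1 0 d h
  simpa using h1

theorem eps_sq (ε : ℤˣ) : (ε : ℤ) * (ε : ℤ) = 1 := by
  rcases Int.units_eq_one_or ε with h | h <;> simp [h]

/-- `M = - ε Mᴴ` gives `M = c - ε cᴴ` -/
theorem tat' {X : Set G} (hi : ∀ x ∈ X, x⁻¹ ∈ X) (hn : ∀ x ∈ X, x⁻¹ ≠ x) (ε : ℤˣ) {n : ℕ}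
    (M : Matrix (Fin n) (Fin n) (MonoidAlgebra R G)) (hM : SuppIn X M)
    (h0 : M + (ε : ℤ) • Mᴴ = 0) : ∃ c : Matrix (Fin n) (Fin n) (MonoidAlgebra R G),
    M = c - (ε : ℤ) • cᴴ := by
  have h4 : M = ((-ε : ℤˣ) : ℤ) • Mᴴ := by
    rw [Units.val_neg, neg_smul]
    exact eq_neg_of_add_eq_zero_left h0
  obtain ⟨c0, -, hc0⟩ := specTat R G X (-ε) n M hi hn hM h4
  refine ⟨c0, ?_⟩
  rw [Units.val_neg, neg_smul, ← sub_eq_add_neg] at hc0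
  exact hc0

end STYAux

open STYAux

theorem specSTY (hEFA : RO.SpecEFA) (hDRC : SpecDRC) (hHLK : SpecHLK) (hNEI : SpecNEI)
    (hNEN : SpecNEN) (hNES : SpecNES) : SpecSTY := by
  intro R G _ _ _ L g Xb Yp Ym hP ε n N hN ψ χ hψ hχ hnil hf hW
  have ha : SuppIn (La L g) (ψ + (ε : ℤ) • ψᴴ) := supp_sym hP.X1i ε ψ hψ
  have hb : SuppIn Xb (χ + (ε : ℤ) • χᴴ) := supp_sym hP.X2i ε χ hχ
  obtain ⟨c, hc, hci, hbc⟩ := hHLK R G L ε n (χ + (ε : ℤ) • χᴴ) (NWTAux.sym_symm ε χ)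
    (nf_sym ε χ hf)
  set q := cutM c (χ + (ε : ℤ) • χᴴ) with hq
  set W : Set G := {x | x ∈ c ∧ x ∈ Xb} with hWdef
  have hHf : Hf L Xb W := by
    refine ⟨fun x hx => hx.2, ⟨?_, ?_⟩, fun x hx hx' => hci x hx.1 hx'.1⟩
    · intro h hh x hx
      exact ⟨hc.1 h hh x hx.1, hP.X2l h hh x hx.2⟩
    · intro h hh x hx
      exact ⟨hc.2 h hh x hx.1, hP.X2r h hh x hx.2⟩
  have hqW : SuppIn W q := supp_cut c _ hb
  have hqX : SuppIn Xb q := fun i j x h => (hqW i j x h).2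
  -- the reduction to `q`
  obtain ⟨c0, hc0⟩ := tat' hP.X2i hP.X2n ε (χ - q) (supp_sub χ q hχ hqX) (by
    rw [conjTranspose_sub, smul_sub]
    have h1 : χ - q + ((ε : ℤ) • χᴴ - (ε : ℤ) • qᴴ) =
        (χ + (ε : ℤ) • χᴴ) - (q + (ε : ℤ) • qᴴ) := by abel
    rw [h1, ← hbc, sub_self])
  have hχq : χ = q + c0 - (ε : ℤ) • c0ᴴ := by
    rw [add_sub_assoc, ← hc0]
    abel
  rw [hχq]
  refine change' ε ψ q c0 ?_
  -- the family
  obtain ⟨hE, hlet, hblk⟩ := hEFA R G L (La L g) Xb ∅ Yp Ym hP.toPingPong ε n (ψ + (ε : ℤ) • ψᴴ) 0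
    (χ + (ε : ℤ) • χᴴ) ha (fun i j x h => (h rfl).elim) hb
    (NWTAux.sym_symm ε ψ) (NWTAux.sym_symm ε χ) N hnil
  have h1 : ψ + (ε : ℤ) • ψᴴ ∈
      EE L (nu ε (ψ + (ε : ℤ) • ψᴴ) 0 (χ + (ε : ℤ) • χᴴ)) 1 false true := hblk false true
  have h3 : cutM c ((ε : ℤ) • (χ + (ε : ℤ) • χᴴ)) ∈
      EE L (nu ε (ψ + (ε : ℤ) • ψᴴ) 0 (χ + (ε : ℤ) • χᴴ)) 1 true false := hlet true false c hc
  have h4 : q ∈ EE L (nu ε (ψ + (ε : ℤ) • ψᴴ) 0 (χ + (ε : ℤ) • χᴴ)) 1 true false := by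
    rw [NWTAux.cutM_zsmul] at h3
    have h5 := AddSubgroup.zsmul_mem _ h3 (ε : ℤ)
    rwa [smul_smul, eps_sq, one_smul] at h5
  obtain ⟨k1, k2, k3⟩ := hNEN (MonoidAlgebra R G) ε n N _ hE hN _ h1 _ h4
  refine hNEI (MonoidAlgebra R G) ε n N ψ q k1 ?_
  have hsupp := hNES R G (La L g) W ε n N ψ (ψ + (ε : ℤ) • ψᴴ) q hψ ha hqW
  have hsym : ∀ Z : Matrix (Fin n) (Fin n) (MonoidAlgebra R G),
      Zᴴ * ψ * Z + (ε : ℤ) • (Zᴴ * ψ * Z)ᴴ = Zᴴ * (ψ + (ε : ℤ) • ψᴴ) * Z := by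
    intro Z
    rw [conjTranspose_mul, conjTranspose_mul, conjTranspose_conjTranspose, Matrix.mul_add,
      Matrix.add_mul, Matrix.mul_smul, Matrix.smul_mul, Matrix.mul_assoc Zᴴ ψᴴ Z]
  rcases le_total N 3 with hN3 | hN3
  · have hD := hDRC G L g Xb Yp Ym W hP hHf
    obtain ⟨c1, hc1⟩ := tat' hD.X2i hD.X2n ε _ hsupp (by
      rw [hsym]
      exact k2 hN3)
    have h6 := change' ε ψ 0 c1 (sh_zero ε ψ)
    rw [zero_add, ← hc1] at h6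
    exact h6
  · refine hW W hHf hN3 _ hsupp ?_
    rw [hsym]
    exact k3 hN3

end Pool.Agent.Lib.MP8a3537.ROK
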