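import Pool.Agent.Lib.MP_8a3537_gt.ROK.Defs

/-!
# Arbitrary edge groups, long exchanged segments: Specs

Paper proof: `/team-store/8a3537_ROK_h28.md`. Every module `XXX` is a file
`Pool/Agent/Lib/MP_8a3537_gt/ROK/XXX.lean` which imports this file and proves
`theorem specXXX (hypotheses in the order of the deps) : SpecXXX` (exactly this name) in the namespace
`Pool.Agent.Lib.MP8a3537.ROK`, with its auxiliary declarations in `ROK.XXXAux`. The landed modules of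
the folders `UV`, `AU`, `RO` may be imported where it is useful; the deps `RO.SpecXXX` are hypotheses
(`(hUNQ : RO.SpecUNQ)` etc.).

In all modules `H`, `X1`, `X2`, `X3`, `Yp`, `Ym` are data with `PPK` and, for `g ∈ X1` with `g² ∈ H`,
the set `X1' = {x | x ∈ X1 ∧ x ∉ dc H g}` is used for the words of the block.
-/

namespace Pool.Agent.Lib.MP8a3537.ROK

open Matrix Pool.Agent.Lib.MP8a3537.UV Pool.Agent.Lib.MP8a3537.AU Pool.Agent.Lib.MP8a3537.RO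

/-! ### Part 1: trees -/

/-- **TRK** (size 200; imports `RO/TRX`, `UV/TRE`): the data of an edge.

PROOF. `Yp = YY G T v w`, `Ym = YY G T w v` (`UV.TREAux`); `PingPong` is `TRXM.pingpong`. `yy`: `y w ∈ Br v w`, so
`y w ∉ Br w v` (`Br`: opposite strict inequalities), so `y w = w`; `y v ∈ Br w v`, so `y v ∉ Br v w`, so
`y v = v`. `xh`: `x` moves `w`, `v`, or maps `v` to `w`, `w` to `v` (`v ≠ w`). `cj`: `s = false`: `x ∈ X1` or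
`x w = v` (`x⁻¹ ∈ X3`): `y = x h x⁻¹` fixes `v`; if `y` does not fix `w` then `y` is in `X1` and `TRXM.nn` says
`y t ∉ Yp` for `t ∈ Yp`. `s = true`: `x ∈ X2` or `x v = w`: `y` fixes `w`; `TRXM.nn` with `v`, `w` exchanged. -/
def SpecTRK : Prop :=
  ∀ (G V : Type) [Group G] [MulAction G V] (T : SimpleGraph V) (v w : V), T.IsTree →
    (∀ (g : G) (x y : V), T.Adj x y → T.Adj (g • x) (g • y)) → T.Adj v w →
    (∀ g : G, ¬ (g • v = w ∧ g • w = v)) →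
    (∀ g : G, g * g = 1 → (g • v = v ↔ g • w = w)) →
    ∃ Yp Ym : Set G,
      PPK (MulAction.stabilizer G v ⊓ MulAction.stabilizer G w)
        {g | g • v = v ∧ g • w ≠ w} {g | g • w = w ∧ g • v ≠ v} {g | g • v = w} Yp Ym

/-- **TRG** (size 150; imports `UV/TRE`): the geometry of an edge.

PROOF. For adjacent `v`, `w`: `DD T.dist w v true = {p | d v p = d v w + d w p} = Br T v w` (as sets: `d v w = 1`;
`p ∈ Br T v w` iff `d p w < d p v`, and then `d p v = d p w + 1` by `hT.dist_eq_dist_add_one_of_adj`; `dist_comm`) and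
`DD T.dist w v false = Br T w v`. `mv`: `x ∈ X1`, `p ∈ Br v w`: `x p ∈ Br v (x w) ⊆ Br w v` (`smul_Br`, `br_sub`, `x w ≠ w`);
`x ∈ X3`: `x p ∈ Br w (x w) ⊆ Br v w` (`x w ≠ v`: no inversion); `X2`, `Xinv X3`: `v`, `w` exchanged. `st`: clear. -/
def SpecTRG : Prop :=
  ∀ (G V : Type) [Group G] [MulAction G V] (T : SimpleGraph V) (v w : V), T.IsTree →
    (∀ (g : G) (x y : V), T.Adj x y → T.Adj (g • x) (g • y)) → T.Adj v w →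
    (∀ g : G, ¬ (g • v = w ∧ g • w = v)) →
    Geo T.dist (MulAction.stabilizer G v ⊓ MulAction.stabilizer G w)
      {g | g • v = v ∧ g • w ≠ w} {g | g • w = w ∧ g • v ≠ v} {g | g • v = w} w v

/-- **FPT** (size 200; imports `UV/TRE`): the metric of a tree.

PROOF. `d0`, `cm`, `tri`: Mathlib (`hT.connected`), `iso`: `TREAux.dist_smul`. `four`:
(A) if `x`, `x'` are adjacent, `y ∈ Br x x'`, `z ∈ Br x' x` then `d y z = d y x + d x z`. Strong induction on `d x z`.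
`z = x`: clear. Otherwise let `z'` be the neighbour of `z` with `d x z' = d x z - 1` (second vertex of a shortest walk
from `z` to `x`); `z' ∈ Br x' x` (`d z' x' ≥ d z x' - 1 = d z x > d z' x`; use `d z x' = d z x + 1`), so
`d y z' = d y x + d x z'`. `d y z = d y z' ± 1`. If `d y z = d y z' - 1` then `y ∈ Br z' z`. If `z' = x`: `y ∈ Br x x'`, so
`z = x'` (`br_unique`), but `x' ∉ Br x' x`. If `z' ≠ x` let `z''` be the neighbour of `z'` with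
`d x z'' = d x z' - 1`; as before `z'' ∈ Br x' x` and `d y z'' = d y x + d x z'' < d y z'`, `y ∈ Br z' z''`, so `z = z''`,
contradiction to `d x z = d x z'' + 2`.
(B) `four x y z w` by induction on `d x y`. `x = y`: triangle inequality. Else let `x'` be the neighbour of `x` with
`d x' y = d x y - 1`, so `y ∈ Br x x'`. If `z ∈ Br x' x`: `d y z = d y x + d x z` by (A), so
`d x w + d y z ≥ d x y + d z w`. If `w ∈ Br x' x`: the same. Otherwise `z, w ∈ Br x x'`: `d x z = d x' z + 1`,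
`d x w = d x' w + 1`, and the induction hypothesis for `x'`. -/
def SpecFPT : Prop :=
  ∀ (G V : Type) [Group G] [MulAction G V] (T : SimpleGraph V), T.IsTree →
    (∀ (g : G) (x y : V), T.Adj x y → T.Adj (g • x) (g • y)) → TM G (V := V) T.dist

/-! ### Part 2: words and blocks -/

/-- **WDK** (size 150, deps `RO.SpecUNQ`, `RO.SpecWDA`): words.

PROOF. (0) `x y = h ∈ H`, `x ∈ XX s r`, `y ∈ YB r`: `y = x⁻¹ h`, `x⁻¹ ∈ XX (!r) (!s)` (`X1i`, `X2i`, `Xinv`), so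
`x⁻¹ h ∈ XX (!r) (!s)` (Bi), so `y = (x⁻¹ h) 1 ∈ YB (!r)` (`UNQ` (1), `1 ∈ YB (!s)`); `y ∈ Yp ∩ Ym` so `y ∈ H` (`yy`),
`x = h y⁻¹ ∈ H`: contradiction to `xh`.
(1) `z = x z1`, `z1 y ∈ YB r` (WDA (4)), `x ∈ XX X1' X2 X3 s r ⊆ XX X1 X2 X3 s r`: (0).
(2) Induction on the word. Length `0`: `z ∈ H`. `z = x z1`, `h1 = z1 h z1⁻¹`. If `h1 ∈ H`: `cj` for `x`. Otherwise
`h1 y ∉ YB (!r)` for all `y ∈ YB (!r)`. Let `y ∈ YB (!s)`, and suppose `y' = z h z⁻¹ y = x h1 x⁻¹ y ∈ YB (!s)`. `x⁻¹ ∈ XX (!r) (!s)`, so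
`x⁻¹ y`, `x⁻¹ y' ∈ YB (!r)`, and `h1 (x⁻¹ y) = x⁻¹ y'`: contradiction. -/
def SpecWDK : Prop :=
  ∀ (G : Type) [Group G] (H : Subgroup G) (X1 X2 X3 Yp Ym : Set G), PPK H X1 X2 X3 Yp Ym →
    (∀ s r x y, x ∈ XX X1 X2 X3 s r → y ∈ YB Yp Ym r → x * y ∉ H) ∧
    ∀ X1' : Set G, Sub1 H X1 X2 X3 Yp Ym X1' →
      (∀ k s t z y, Wd H X1' X2 X3 (k + 1) s t z → y ∈ YB Yp Ym t → z * y ∉ H) ∧
      (∀ k s t z h, Wd H X1' X2 X3 k s t z → h ∈ H → z * h * z⁻¹ ∈ H ∨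
        ∀ y ∈ YB Yp Ym (!s), z * h * z⁻¹ * y ∉ YB Yp Ym (!s))

/-- **SBK** (size 100, dep `RO.SpecWDA`): elementary facts on a flip.

PROOF. `L = Kg H g`. `g L g⁻¹ = L`: `l ∈ L`: `g l g⁻¹ = g² (g⁻¹ l g) g⁻² ∈ H` and `g⁻¹ (g l g⁻¹) g = l ∈ H` (see
`RO/LOC.lean`). (2): `l g ∈ X1` (`X1l`), it is in `dc H g`. (3) `l (l' g)`; `(l g) l' = l (g l' g⁻¹) g`;
`(l g)⁻¹ = g⁻² (g l⁻¹ g⁻¹) g` (`g⁻² ∈ L`). (4) `X1' = {x ∈ X1 | x ∉ dc H g}`: `dc H g` is biinvariant and inverse closed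
(`(h g h')⁻¹ = h'⁻¹ g⁻² g h⁻¹`). (5) induction on the product, WDA (4) (`L ≤ H`, `X1Y`). -/
def SpecSBK : Prop :=
  ∀ (G : Type) [Group G] (H : Subgroup G) (X1 X2 X3 Yp Ym : Set G), PingPong H X1 X2 X3 Yp Ym →
    ∀ g ∈ X1, g * g ∈ H →
    (∀ l ∈ Kg H g, g * l * g⁻¹ ∈ Kg H g ∧ g⁻¹ * l * g ∈ Kg H g) ∧
    (∀ x ∈ La (Kg H g) g, x ∈ X1 ∧ x ∈ dc H g) ∧
    ((∀ l ∈ Kg H g, ∀ x ∈ La (Kg H g) g, l * x ∈ La (Kg H g) g ∧ x * l ∈ La (Kg H g) g) ∧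
      (∀ x ∈ La (Kg H g) g, x⁻¹ ∈ La (Kg H g) g) ∧
      (∀ x ∈ La (Kg H g) g, ∀ x' ∈ La (Kg H g) g, x⁻¹ * x' ∈ Kg H g)) ∧
    Sub1 H X1 X2 X3 Yp Ym {x | x ∈ X1 ∧ x ∉ dc H g} ∧
    (∀ s y, y ∈ YS (Kg H g) (La (Kg H g) g) (BX H X1 X2 X3 g) s → y ∈ YB Yp Ym s)

/-- **CLC** (size 220, deps `RO.SpecUNQ`, `RO.SpecWDA`, `SpecWDK`, `SpecSBK`): paper CLAIM C.

PROOF. `L = Kg H g`, `X1' = {x ∈ X1 | x ∉ dc H g}`, `YY s = YS L (La L g) (BX ..) s ⊆ YB s`. An element of `YY false` is in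
`L` or `x t` with `x ∈ La L g`, `t ∈ YY true ⊆ Yp`. Induction on the word `z` (for all `k'`, `z'`, `y`, `y'`).
(a) `z = x z1`, `z' = x' z1'`: `x (z1 y) = x' (z1' y')`, UNQ: same type `r`, `x' = x h`, `h ∈ H`; `z1 y = (h z1') y'`, `h z1'` is a
word (WDA (1)); induction: `z1⁻¹ (h z1') ∈ L`, and `z⁻¹ z' = z1⁻¹ x⁻¹ x h z1'`.
(b) `z = h ∈ H` (so `s = false`), `z' = x1 z1'`, `x1 ∈ XX X1' X2 X3 false r`. `y ∈ L`: `z' y' = h y ∈ H` contradicts WDK (1).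
`y = x t`: `(h x) t = x1 (z1' y')`, `h x ∈ X1 = XX false true`: UNQ: `r = true` and `(h x)⁻¹ x1 ∈ H`, so
`x1 ∈ h x H ⊆ dc H g`, but `x1 ∈ X1'`: contradiction. (c) `z = x1 z1`, `z' = h`: the same (exchange the roles).
(d) `z, z' ∈ H`: `h = z'⁻¹ z ∈ H`, `h y = y'`. `y, y' ∈ L`: `h = y' y⁻¹ ∈ L`. `y ∈ L`, `y' = x' t'`: `x' t' ∈ H`: WDK (0); `y' ∈ L`: same.
`y = x t`, `y' = x' t'`, `x = l g`, `x' = l' g`: `(x'⁻¹ h x) t = t'` and `x'⁻¹ h x = g⁻¹ h'' g` with `h'' = l'⁻¹ h l ∈ H`. `cj` for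
`g⁻¹ ∈ X1 = XX false true` (`X1i`) and `h''`: `g⁻¹ h'' g ∈ H` or `g⁻¹ h'' g t ∉ Yp` (`t' ∈ Yp`: excluded). So
`h'' ∈ Kg H g` (`mem_Kg`), `h = l' h'' l⁻¹ ∈ L`. In all cases `z⁻¹ z' = (z'⁻¹ z)⁻¹ = h⁻¹ ∈ L`. -/
def SpecCLC : Prop :=
  ∀ (G : Type) [Group G] (H : Subgroup G) (X1 X2 X3 Yp Ym : Set G), PPK H X1 X2 X3 Yp Ym →
    ∀ g ∈ X1, g * g ∈ H → ∀ (k k' : ℕ) (s : Bool) (z z' y y' : G),
    Wd H {x | x ∈ X1 ∧ x ∉ dc H g} X2 X3 k s false z →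
    Wd H {x | x ∈ X1 ∧ x ∉ dc H g} X2 X3 k' s false z' →
    y ∈ YS (Kg H g) (La (Kg H g) g) (BX H X1 X2 X3 g) false →
    y' ∈ YS (Kg H g) (La (Kg H g) g) (BX H X1 X2 X3 g) false →
    z * y = z' * y' → z⁻¹ * z' ∈ Kg H g

/-- **BLK** (size 280, deps `RO.SpecWDA`, `RO.SpecWNI`, `SpecWDK`, `SpecSBK`, `SpecCLC`): the block is again data.

PROOF. `L = Kg H g`, `Xa = La L g`, `Xb = BX H X1 X2 X3 g` (words from `false` to `true`). `PingPong`: `X1l`, `X1r`, `X1i`: SBK (3);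
`X1n`: `Xa ⊆ X1`. `X2l`, `X2r`, `X2i`: WDA (1), (3) (`L ≤ H`); `X2n`: `z⁻¹ = z` gives `z z = 1`: WNI (`k`, `s = true`,
`!s = false`). `X3 = ∅`: trivial (`Xinv ∅`: `x⁻¹ ∈ ∅`). `Yp1`, `Ym1`: `base`. `Ypl`, `Yml`: by cases on `YK`: `l l'`, `(l x) y`.
`X1Y`, `X2Y`: `sa`, `sb`. `u1`: SBK (3). `u2`: CLC with `s = true`. `yy`: `y ∈ YS true ∩ YS false ⊆ Yp ∩ Ym`, so `y ∈ H` (`yy`), and an
element of `YS false` in `H` is in `L` (otherwise it is `x t`, `x ∈ Xa ⊆ X1`, `t ∈ Yp`: WDK (0)). `xh`: `Xa ⊆ X1`: `xh` for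
`H ≥ L`; `z ∈ Xb`: the word has length `≥ 1` (types), `z = z 1`, `1 ∈ YB false`: WDK (1). `cj`: `(s, t) = (false, true)`, `x = l g ∈ Xa`,
`h ∈ L`: `x h x⁻¹ ∈ L` (SBK (1)). `(true, false)`, `z ∈ Xb`, `h ∈ L`, `y0 = z h z⁻¹`: if `y0 ∉ H`: WDK (2) (`!true = false`, and
`YS false ⊆ Ym`). If `y0 ∈ H`: assume `y0 y = y'` with `y, y' ∈ YS false`; CLC with `s = false`, `z = y0` (`Wd 0`), `z' = 1`:
`y0⁻¹ ∈ L`, so `y0 ∈ L`. `(true, true)`, `(false, false)`: empty. -/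
def SpecBLK : Prop :=
  ∀ (G : Type) [Group G] (H : Subgroup G) (X1 X2 X3 Yp Ym : Set G), PPK H X1 X2 X3 Yp Ym →
    ∀ g ∈ X1, g * g ∈ H →
    PPK (Kg H g) (La (Kg H g) g) (BX H X1 X2 X3 g) ∅
      (YS (Kg H g) (La (Kg H g) g) (BX H X1 X2 X3 g) true)
      (YS (Kg H g) (La (Kg H g) g) (BX H X1 X2 X3 g) false)

/-- **SYK** (size 100): the exchange.

PROOF. `PingPong`: `INDAux.pp_swap` (`UV/IND`). `XX X2 X1 (Xinv X3) s t = XX X1 X2 X3 (!s) (!t)`, `YB Ym Yp s = YB Yp Ym (!s)`,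
`DD d x2 x1 s = DD d x1 x2 (!s)` (cases; `Xinv (Xinv X3) = X3`). (3): `Xinv ∅ = ∅` (rewrite in (1), (2)). -/
def SpecSYK : Prop :=
  ∀ (G : Type) [Group G] (H : Subgroup G) (X1 X2 X3 Yp Ym : Set G),
    (PPK H X1 X2 X3 Yp Ym → PPK H X2 X1 (Xinv X3) Ym Yp) ∧
    (∀ (V : Type) [MulAction G V] (d : V → V → ℕ) (x1 x2 : V), Geo d H X1 X2 X3 x1 x2 →
      Geo d H X2 X1 (Xinv X3) x2 x1) ∧
    (PPK H X1 X2 ∅ Yp Ym → PPK H X2 X1 ∅ Ym Yp) ∧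
    (∀ (V : Type) [MulAction G V] (d : V → V → ℕ) (x1 x2 : V), Geo d H X1 X2 ∅ x1 x2 →
      Geo d H X2 X1 ∅ x2 x1)

/-- **TFA** (size 100): facts on tree metrics.

PROOF. (1) `d (g q) p = d q p` (`iso`, `g p = p`), `d (g q) r = d q r`. `four q (g q) p r`:
`d q (g q) + d p r ≤ max (d q p + d (g q) r) (d q r + d (g q) p) = d p r`, so `d q (g q) = 0`. (2) `four x1 p x2 p'`:
`d x1 p + d x2 p' ≤ max (d x1 x2 + d p p') (d x1 p' + d p x2)`. The left side is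
`2 d x1 x2 + d x2 p + d x1 p' > d x1 p' + d p x2` (`d x1 x2 > 0`), so it is `≤ d x1 x2 + d p p'`, that is
`d p p' ≥ d p x2 + d x2 x1 + d x1 p'`; `≤` by `tri` twice. (3) `d x1 p = d x1 y + d y p = d x1 x2 + d x2 y + d y p ≥
d x1 x2 + d x2 p ≥ d x1 p`. -/
def SpecTFA : Prop :=
  ∀ (G V : Type) [Group G] [MulAction G V] (d : V → V → ℕ), TM G d →
    (∀ (g : G) (p q r : V), d p r = d p q + d q r → g • p = p → g • r = r → g • q = q) ∧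
    (∀ x1 x2 p p' : V, x1 ≠ x2 → d x1 p = d x1 x2 + d x2 p → d x2 p' = d x2 x1 + d x1 p' →
      d p p' = d p x2 + d x2 x1 + d x1 p') ∧
    (∀ x1 x2 y p : V, d x1 y = d x1 x2 + d x2 y → d x1 p = d x1 y + d y p →
      d x1 p = d x1 x2 + d x2 p)

/-- **BLG** (size 250, deps `SpecTFA`, `SpecSBK`): the geometry of the block.

PROOF. `x1 ∈ DD true` (`d x1 x1 = 0`), `g ∈ X1 = XX false true`, so `g x1 ∈ DD false`: (*) `d x1 (g x1) = d x1 x2 + d x2 (g x1)`.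
`g g x1 = x1` (`g g ∈ H`, `st`). `Geo` for the block with the ends `x1`, `g x1`: `ne`: `d x1 (g x1) ≥ d x1 x2 > 0`. `st`: `x ∈ Kg H g` iff
`x ∈ H` and `g⁻¹ x g ∈ H` (`mem_Kg`), iff `x` fixes `x1`, `x2`, `g x1`, `g x2`. If `x` fixes `x1` and `g x1`: it fixes `x2` by (*) and
TFA (1); applying `g` to (*): `d (g x1) x1 = d (g x1) (g x2) + d (g x2) x1` (`iso`, `g g x1 = x1`), so `x` fixes `g x2`.
`mv` `(false, true)`: `x = l g`, `d (g x1) p = d (g x1) x1 + d x1 p`. `l` fixes `x1`, `g x1`. `d x1 (l g p) = d (g g x1) (g p) = d (g x1) p`,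
`d (g x1) (l g p) = d (g x1) (g p) = d x1 p`. So `d x1 (x p) = d x1 (g x1) + d (g x1) (x p)` (`cm`).
`mv` `(true, false)`: `z ∈ BX` a word from `false` to `true`, `d x1 p = d x1 (g x1) + d (g x1) p`. TFA (3) and (*): `p ∈ DD x1 x2 false`.
Words map `DD t` to `DD s` (induction, `mv`; letters of `X1' ⊆ X1`), so `z p ∈ DD x1 x2 true`. TFA (2) with `p := g x1` (by (*)),
`p' := z p`: `d (g x1) (z p) = d (g x1) x2 + d x2 x1 + d x1 (z p) = d (g x1) x1 + d x1 (z p)` ((*), `cm`). Others: `X3 = ∅`.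
Last part: (*), and `g x1 ≠ x2` is the hypothesis. -/
def SpecBLG : Prop :=
  ∀ (G V : Type) [Group G] [MulAction G V] (d : V → V → ℕ), TM G d →
    ∀ (H : Subgroup G) (X1 X2 X3 Yp Ym : Set G) (x1 x2 : V), PingPong H X1 X2 X3 Yp Ym →
    Geo d H X1 X2 X3 x1 x2 → ∀ g ∈ X1, g * g ∈ H →
    Geo d (Kg H g) (La (Kg H g) g) (BX H X1 X2 X3 g) ∅ x1 (g • x1) ∧
    g • g • x1 = x1 ∧ (g • x1 ≠ x2 → Nx d x2 x1 g)

/-! ### Part 3: derived data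

`L`, `Xa = La L g`, `Xb`, `X3 = ∅` are data (`PPK`), `W` is a half of `Xb`, `T = TS Xa W`, `XD = T⁻¹ Xa T`. -/

/-- **DRA** (size 280, dep `SpecWDK`): words in `W`. The numbers are those of the nine conclusions.

PROOF. (1) `g ∈ Xa` (`Xa = La L g`), `g⁻¹ ∈ Xa` (`X1i`), so `g⁻¹ = m g`, `g g = m⁻¹ ∈ L`; `g l ∈ Xa` (`X1r`), so `g l g⁻¹ ∈ L` for `l ∈ L`, and
`g⁻¹ l g = (g g)⁻¹ (g l g⁻¹) (g g) ∈ L`. So `(l g)⁻¹ (l' g) = g⁻¹ (l⁻¹ l') g ∈ L`, and `e e' = (e⁻¹)⁻¹ e'` with `e⁻¹ ∈ Xa`.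
(2) Induction (`l (z e w) = (l z) e w`, `(z e w) l = z e (w l)`). (3) Induction on `w` (`(z e1 w1) e w' = z e1 (w1 e w')`).
(4) Induction: `z e w`, `w ∈ W` or `w = w1 e1 z1`: `z e w1 ∈ T`. (5) `W ⊆ Xb`; `z y ∈ Yp` (`X2Y`), `z e (w y)`: `w y ∈ Yp`, `e (..) ∈ Ym`,
`z (..) ∈ Yp`; `(z e w)⁻¹ y = w⁻¹ (e⁻¹ (z⁻¹ y))` in the same way. (6) `w y`: the word is `z` or `z e w1`: `y' = y` or `e (w1 y) ∈ Ym` by (5).
`w⁻¹ y`: by (4) `w⁻¹ = z⁻¹` or `z⁻¹ e⁻¹ w1⁻¹`. (7) `YK` induction: `sa`: `X1Y`; `sb`: `(w⁻¹ e w') y = w⁻¹ (e (w' y))`, (5) and `X1Y`.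
(9) `e (z y) = e' (z'⁻¹ y')`: `l = e'⁻¹ e ∈ L`, `(l z) y = z'⁻¹ y'`, `l z ∈ W ⊆ Xb`, `z'⁻¹ ∈ Xb` (`X2i`), `u2`: `(l z)⁻¹ z'⁻¹ = l' ∈ L`, so
`z'⁻¹ = (l z) l' ∈ W`: contradiction to `ni`. (8) `y0 = e (z y) ∈ YS false` is in `L`, or `y0 = e1 y1`, `e1 ∈ Xa`, `y1 ∈ YS true`; `y1 ∈ L` or
`y1 = (w⁻¹ e2 w') y2`, `y2 ∈ YS false ⊆ Ym` (7). `y0 ∈ L`: WDK (0) (`e ∈ Xa`, `z y ∈ Yp`). `y1 ∈ L`: `z y = (e⁻¹ e1) y1 ∈ L`: WDK (0) (`z ∈ Xb`,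
`y ∈ Ym`). Third case: `y1 = w⁻¹ (e2 (w' y2)) = z'⁻¹ y'` with `z' ∈ W`, `y' ∈ Ym` by (6) (`e2 (w' y2) ∈ Ym`): contradiction to (9). -/
def SpecDRA : Prop :=
  ∀ (G : Type) [Group G] (L : Subgroup G) (g : G) (Xb Yp Ym W : Set G),
    PPK L (La L g) Xb ∅ Yp Ym → Hf L Xb W →
    (∀ e ∈ La L g, ∀ e' ∈ La L g, e⁻¹ * e' ∈ L ∧ e * e' ∈ L) ∧
    (∀ l ∈ L, ∀ w ∈ TS (La L g) W, l * w ∈ TS (La L g) W ∧ w * l ∈ TS (La L g) W) ∧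
    (∀ w ∈ TS (La L g) W, ∀ e ∈ La L g, ∀ w' ∈ TS (La L g) W, w * e * w' ∈ TS (La L g) W) ∧
    (∀ w ∈ TS (La L g) W, w ∈ W ∨ ∃ w1 ∈ TS (La L g) W, ∃ e ∈ La L g, ∃ z ∈ W, w = w1 * e * z) ∧
    (∀ w ∈ TS (La L g) W, ∀ y ∈ Ym, w * y ∈ Yp ∧ w⁻¹ * y ∈ Yp) ∧
    (∀ w ∈ TS (La L g) W, ∀ y ∈ Ym, (∃ z ∈ W, ∃ y' ∈ Ym, w * y = z * y') ∧
      ∃ z ∈ W, ∃ y' ∈ Ym, w⁻¹ * y = z⁻¹ * y') ∧
    (∀ s y, y ∈ YS L (La L g) (XD (La L g) W) s → y ∈ YB Yp Ym s) ∧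
    (∀ e ∈ La L g, ∀ z ∈ W, ∀ y ∈ Ym, e * (z * y) ∉ YS L (La L g) (XD (La L g) W) false) ∧
    (∀ e ∈ La L g, ∀ e' ∈ La L g, ∀ z ∈ W, ∀ z' ∈ W, ∀ y ∈ Ym, ∀ y' ∈ Ym,
      e * (z * y) ≠ e' * (z'⁻¹ * y'))

/-- **DRB** (size 280, dep `SpecDRA`): uniqueness for the derived data.

PROOF. `Y = YS L Xa XD false ⊆ Ym`. (S3) `w, w' ∈ T`, `y, y' ∈ Y`, `w y = w' y'` ⟹ `w⁻¹ w' ∈ L`. Induction on `w`. `w = z`, `w' = z'`: `u2`.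
`w = z`, `w' = z' e' w1'`: `u2` (`z y = z' (e' w1' y')`, `e' (w1' y') ∈ Ym`): `z' = z l`, so `y = l e' (w1' y')`, `w1' y' = z'' y''` (DRA (6)),
so `y = (l e') (z'' y'') ∉ Y` (DRA (8)): contradiction. `w = z e w1`, `w' = z'`: the same. Both long: `z' = z l`,
`e w1 y = l e' w1' y'`, `w1 y = (e⁻¹ (l e')) w1' y'`, `e⁻¹ (l e') ∈ L` (DRA (1)), `(e⁻¹ (l e')) w1' ∈ T`; induction:
`w1⁻¹ (e⁻¹ l e') w1' ∈ L`, and `w⁻¹ w' = w1⁻¹ e⁻¹ z⁻¹ z' e' w1'`.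
(S4) `w, w' ∈ T`, `v, v' ∈ V = {e (w2 y) | e ∈ Xa, w2 ∈ T, y ∈ Y}`, `w⁻¹ v = w'⁻¹ v'` ⟹ `v' = l v` for some `l ∈ L`. (`V ⊆ Ym`; `L V ⊆ V`.)
Induction using the right recursion DRA (4) (for example on the number of letters, or prove it for the reversed words: define the
induction on `w` through DRA (4); it is convenient to prove first that `TS` has an inductive description by `w1 e z`).
`w = z`, `w' = z'`: `u2` for `z⁻¹, z'⁻¹ ∈ Xb`: `z'⁻¹ = z⁻¹ l`: `v = l v'`. `w = z`, `w' = w1' e' z'`: `z⁻¹ v = z'⁻¹ (e'⁻¹ w1'⁻¹ v')`, `u2`: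
`z'⁻¹ = z⁻¹ l`, `v = (l e'⁻¹) (w1'⁻¹ v')`, `w1'⁻¹ v' = z''⁻¹ y''` (DRA (6)); but `v = e (w2 y) = e (z3 y3)` (DRA (6)): contradiction to
DRA (9). Both long: `e⁻¹ w1⁻¹ v = l e'⁻¹ w1'⁻¹ v'`, `w1⁻¹ v = (e l e'⁻¹) w1'⁻¹ v' = (w1' m⁻¹)⁻¹ v'` with
`m = e l e'⁻¹ ∈ L`, `w1' m⁻¹ ∈ T`; induction.
u2: `z = w1⁻¹ e w2`, `z' = w1'⁻¹ e' w2'`, `z y = z' y'`: (S4) with `v = e (w2 y)`, `v' = e' (w2' y')`: `e' w2' y' = l e w2 y`, so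
`w2 y = (e⁻¹ (l⁻¹ e')) w2' y'`; (S3): `w2⁻¹ (e⁻¹ l⁻¹ e') w2' ∈ L`, so `y y'⁻¹ ∈ L`; and `z⁻¹ z' = y y'⁻¹`. -/
def SpecDRB : Prop :=
  ∀ (G : Type) [Group G] (L : Subgroup G) (g : G) (Xb Yp Ym W : Set G),
    PPK L (La L g) Xb ∅ Yp Ym → Hf L Xb W →
    ∀ z ∈ XD (La L g) W, ∀ z' ∈ XD (La L g) W,
    ∀ y ∈ YS L (La L g) (XD (La L g) W) false, ∀ y' ∈ YS L (La L g) (XD (La L g) W) false,
      z * y = z' * y' → z⁻¹ * z' ∈ L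

/-- **DRC** (size 250, deps `RO.SpecUNQ`, `RO.SpecWDA`, `RO.SpecWNI`, `SpecWDK`, `SpecDRA`, `SpecDRB`): the derived data.

PROOF. `Sub1 L Xa Xb ∅ Yp Ym Xa` holds (`X1' = X1`). Every `z ∈ T` and every `z⁻¹`, `z ∈ T`, and every `z ∈ XD` is a word
`Wd L Xa Xb ∅ k true false` with `k ≥ 1` (`W ⊆ Xb`; `z = z 1`, `z e w`; WDA (2), (3)). `PingPong` for `Xa`, `XD`, `∅`, `YS true`, `YS false`: `X1·`: those
of `Xa`. `X2l`, `X2r`: `l w⁻¹ e w' = (w l⁻¹)⁻¹ e w'`, DRA (2). `X2i`: `(w⁻¹ e w')⁻¹ = w'⁻¹ e⁻¹ w`. `X2n`: WNI. `Yp1` etc., `X1Y`, `X2Y`: as in BLK. `u1`: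
DRA (1). `u2`: DRB. `yy`: DRA (7) and `yy`. `xh`: `Xa`: `xh`; `XD`: WDK (1) with `y = 1`. `cj`: `Xa`: `cj` gives `x h x⁻¹ ∈ L` or a
statement for `YB Yp Ym true ⊇ YS true` (DRA (7)); `XD`: WDK (2) and DRA (7) (`YS false ⊆ Ym`). -/
def SpecDRC : Prop :=
  ∀ (G : Type) [Group G] (L : Subgroup G) (g : G) (Xb Yp Ym W : Set G),
    PPK L (La L g) Xb ∅ Yp Ym → Hf L Xb W →
    PPK L (La L g) (XD (La L g) W) ∅ (YS L (La L g) (XD (La L g) W) true)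
      (YS L (La L g) (XD (La L g) W) false)

/-- **DRG** (size 100): the geometry of the derived data.

PROOF. `ne`, `st` unchanged. `mv` `(false, true)` unchanged. `w ∈ T` maps `DD false` to `DD true` (induction; `W ⊆ Xb`), so does `w⁻¹`
(`z⁻¹ ∈ Xb`: `X2i`, `e⁻¹ ∈ Xa`: `X1i`; `(z e w)⁻¹ = w⁻¹ e⁻¹ z⁻¹`; induction); so `w⁻¹ e w'` does. Others: empty. -/
def SpecDRG : Prop :=
  ∀ (G V : Type) [Group G] [MulAction G V] (d : V → V → ℕ) (L : Subgroup G) (g : G)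
    (Xb Yp Ym W : Set G) (x1 x2 : V), PPK L (La L g) Xb ∅ Yp Ym → Hf L Xb W →
    Geo d L (La L g) Xb ∅ x1 x2 → Geo d L (La L g) (XD (La L g) W) ∅ x1 x2

/-! ### Part 4: forms -/

/-- **RMV** (size 250, deps `RO.SpecEFA`, `RO.SpecKNA`, `RO.SpecELM`; imports `RO/ROT`, `RO/ELM` for the auxiliary lemmas): removal of the
flips in `ψ`, with the same nilpotency index.

PROOF. Strong induction on `ROTAux.fl H ψ` (for all `ψ`). No flips: the hypothesis. Otherwise `x ∈ supp (ψ i j)`, `Flip H x`: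
`ROTAux.exists_flip`: `g = x h ∈ X1`, `g g ∈ H`, `x ∈ dc H g`. ELM with the hypotheses (`La`, `BX` are the sets of ELM): it suffices
that `UF ψ0 μ χ` is stably hyperbolic, `ψ0 = cutM (dc H g)ᶜ ψ`; `fl ψ0 < fl ψ` (`ROTAux.fl_cut_lt`). Index: `c = dc H g` is biinvariant and
inverse closed; `ψ0 + ε ψ0ᴴ = cutM cᶜ a =: a0`, `cutM c a =: ac`, `a = ψ + ε ψᴴ` (see `RO/ELM.lean`). EFA: `a0`, `ac` are in `EE 1 false true`,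
`μ ∈ EE 1 true true`, `b = ε • (ε • b) ∈ EE 1 true false`; KNA: `(nu ε a0 μ b) ^ N = 0`. -/
def SpecRMV : Prop :=
  ∀ (R G : Type) [Ring R] [StarRing R] [Group G] (H : Subgroup G) (X1 X2 X3 Yp Ym : Set G),
    PingPong H X1 X2 X3 Yp Ym →
    (∀ g ∈ X1, g * g ∈ H → Sub1 H X1 X2 X3 Yp Ym {x | x ∈ X1 ∧ x ∉ dc H g} ∧
      Blk R (La (Kg H g) g) (BX H X1 X2 X3 g)) →
    ∀ (ε : ℤˣ) (n N : ℕ), 1 ≤ N → ∀ (ψ μ χ : Matrix (Fin n) (Fin n) (MonoidAlgebra R G)),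
    SuppIn X1 ψ → SuppIn X3 μ → SuppIn X2 χ →
    (nu ε (ψ + (ε : ℤ) • ψᴴ) μ (χ + (ε : ℤ) • χᴴ)) ^ N = 0 →
    (∀ ψ0 : Matrix (Fin n) (Fin n) (MonoidAlgebra R G), SuppIn X1 ψ0 →
      (∀ i j x, (ψ0 i j).coeff x ≠ 0 → ¬ Flip H x) →
      (nu ε (ψ0 + (ε : ℤ) • ψ0ᴴ) μ (χ + (ε : ℤ) • χᴴ)) ^ N = 0 →
      StablyHyperbolic ε (UF ψ0 μ χ)) →
    StablyHyperbolic ε (UF ψ μ χ)

/-- **HLK** (size 60; imports `RO/HLF`): a half, disjoint from its inverse.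

PROOF. `half H` of `RO/HLF.lean` (`HLFAux.bi_half`, `HLFAux.not_both`); the equation is proved in `specHLF` (copy). -/
def SpecHLK : Prop :=
  ∀ (R G : Type) [Ring R] [StarRing R] [Group G] (H : Subgroup G) (ε : ℤˣ) (n : ℕ)
    (a : Matrix (Fin n) (Fin n) (MonoidAlgebra R G)), a = (ε : ℤ) • aᴴ →
    (∀ i j x, (a i j).coeff x ≠ 0 → ¬ Flip H x) →
    ∃ c : Set G, Bi H c ∧ (∀ x ∈ c, x⁻¹ ∉ c) ∧ a = cutM c a + (ε : ℤ) • (cutM c a)ᴴ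

/-- **NEI** (size 280, dep `RO.SpecSCH`; imports `UV/SWP`): paper LEMMA 7.

PROOF. `a = ψ + ε ψᴴ`, so `aᴴ = ε a`. `V = 1 - a qᴴ`, `Vᴴ = 1 - q aᴴ = 1 - ε q a`, `S = ∑_{i<N} (ε q a)^i`: `Vᴴ S = S Vᴴ = 1` (`(ε q a)^N =
ε^N (q a)^N = 0`), so `V Sᴴ = Sᴴ V = 1`. `Z = zet ε N q a = ε S q`. `Λ = fromBlocks ψ V 0 0`, `Λ + ε Λᴴ = fromBlocks a V (ε Vᴴ) 0`,
`Φi = fromBlocks 0 (ε S) Sᴴ (-(ε Sᴴ a S))` is its inverse. `Ξ = fromCols 0 qᴴ`, `Φi Ξᴴ = (Z; -(Sᴴ a Z))`.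
`(Φi Ξᴴ)ᴴ Λ (Φi Ξᴴ) = Zᴴ ψ Z - Zᴴ V Sᴴ a Z = Zᴴ ψ Z - Zᴴ a Z`, so `κ = Zᴴ a Z - Zᴴ ψ Z = ε Zᴴ ψᴴ Z = Zᴴ ψ Z + (X - ε Xᴴ)` with
`X = ε Zᴴ ψᴴ Z`. So `fromBlocks ψ 1 0 κ` is stably hyperbolic by SWP (2) (`UF ψ 0 κ`). `Λ` is stably hyperbolic: `u = diag(1, Sᴴ)` gives
`(ψ, 1; 0, 0)`, and `(1, 0; -ψ, 1)` gives `(0, 1; 0, 0)` (see `RO/SCH.lean`, `RO/NWC.lean`). SCH: `Λ + Ξᴴ ψ Ξ = fromBlocks ψ V 0 (q ψ qᴴ)`
is stably hyperbolic. Finally `u = fromBlocks 1 (-qᴴ) 0 1`: `uᴴ (ψ, 1; 0, q) u = (ψ, 1 - ψ qᴴ; -q ψ, q ψ qᴴ) =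
fromBlocks ψ V 0 (q ψ qᴴ) + Z' - ε Z'ᴴ` with `Z' = fromBlocks 0 0 (-(q ψ)) 0` (`(1,2)`: `-ψ qᴴ = -a qᴴ + ε ψᴴ qᴴ`). -/
def SpecNEI : Prop :=
  ∀ (A : Type) [Ring A] [StarRing A] (ε : ℤˣ) (n N : ℕ) (ψ q : Matrix (Fin n) (Fin n) A),
    (q * (ψ + (ε : ℤ) • ψᴴ)) ^ N = 0 →
    StablyHyperbolic ε (UF ψ 0 ((zet ε N q (ψ + (ε : ℤ) • ψᴴ))ᴴ * ψ *
      zet ε N q (ψ + (ε : ℤ) • ψᴴ))) →
    StablyHyperbolic ε (UF ψ 0 q)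

/-- **NEN** (size 220): the nilpotency index drops.

PROOF. `q a ∈ E 2 true true`, `(q a)^i ∈ E (2 i) true true` for `i ≥ 1`, so `(q a)^N ∈ E (2 N) ≤ E N` is `0` (`N ≥ 1`). `(ε q a)^i q ∈ E (2 i + 1) ≤ E 1`,
so `Z ∈ E 1 true false`, `Zᴴ ∈ E 1 true false` (`star`), `b' = Zᴴ a Z ∈ E 3 true false`. `N ≤ 3`: `E 3 ≤ E N`: `b' = 0`.
`3 ≤ N`: `ν' = nu ε a 0 b' = fromBlocks 0 (ε b') a 0`, `ν'^(2 j) = fromBlocks ((ε b' a)^j) 0 0 ((ε a b')^j)`,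
`ν'^(2 j + 1) = fromBlocks 0 ((ε b' a)^j (ε b')) ((ε a b')^j a) 0`; for `j ≥ 1` the blocks of `ν'^(2 j)` are in `E (4 j)`, those of
`ν'^(2 j + 1)` (`j ≥ 0`) in `E (4 j + 1)`. For `N - 1 = 2 j` (`j ≥ 1`): `4 j = 2 N - 2 ≥ N`; for `N - 1 = 2 j + 1`: `4 j + 1 = 2 N - 3 ≥ N`. -/
def SpecNEN : Prop :=
  ∀ (A : Type) [Ring A] [StarRing A] (ε : ℤˣ) (n N : ℕ)
    (E : ℕ → Bool → Bool → AddSubgroup (Matrix (Fin n) (Fin n) A)), EFam E N → 1 ≤ N →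
    ∀ a ∈ E 1 false true, ∀ q ∈ E 1 true false,
      (q * a) ^ N = 0 ∧
      (N ≤ 3 → (zet ε N q a)ᴴ * a * zet ε N q a = 0) ∧
      (3 ≤ N → (nu ε a 0 ((zet ε N q a)ᴴ * a * zet ε N q a)) ^ (N - 1) = 0)

/-- **NES** (size 150): supports.

PROOF. `(ε q a)^i q` is supported in `T = TS Xa W` by induction on `i` (`q`: `W ⊆ T`; `(q a) M`, `M` supported in `T`: `z e w ∈ T`: use
`SuppIn X M → SuppIn Y M' → SuppIn (X Y) (M M')`, see `RO/KSP.lean`); sums, signs. So `Zᴴ` is supported in `T⁻¹`, `ψ` in `Xa`. -/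
def SpecNES : Prop :=
  ∀ (R G : Type) [Ring R] [StarRing R] [Group G] (Xa W : Set G) (ε : ℤˣ) (n N : ℕ)
    (ψ a q : Matrix (Fin n) (Fin n) (MonoidAlgebra R G)), SuppIn Xa ψ → SuppIn Xa a →
    SuppIn W q → SuppIn (XD Xa W) ((zet ε N q a)ᴴ * ψ * zet ε N q a)

/-- **STY** (size 300, deps `RO.SpecEFA`, `SpecDRC`, `SpecHLK`, `SpecNEI`, `SpecNEN`, `SpecNES`; imports `UV/TAT`, `UV/SWP`): the Newton
step.

PROOF. `a = ψ + ε ψᴴ`, `b = χ + ε χᴴ`; `supp a ⊆ Xa` (`X1i`). `b i j` at `x` nonzero implies `χ i j` at `x` or `χ j i` at `x⁻¹` nonzero, so not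
`Flip L x` (`Flip L x ↔ Flip L x⁻¹`). HLK: `c`, `q0 = cutM c b`, `b = q0 + ε q0ᴴ`. `W = {x | x ∈ c ∧ x ∈ Xb}` is `Hf L Xb W`, `supp q0 ⊆ W`. `χ - q0` has
`(χ - q0) + ε (χ - q0)ᴴ = 0`, support in `Xb`: TAT (`δ = -ε`): `χ = q0 + c0 - ε c0ᴴ`: SWP (2): enough for `UF ψ 0 q0`. EFA (data `Xa`, `Xb`,
`∅`, `μ = 0`): `E = EE L ν`, `EFam E N`; `a = blk ν false true ∈ E 1 false true`; `q0 ∈ E 1 true false` (`ε • q0 = cutM c (ε • b)`, `blk ν true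
false = ε • b`, `E` is a subgroup). NEI with `(q0 a)^N = 0` (NEN): it suffices that `UF ψ 0 χ'`, `χ' = Zᴴ ψ Z`, `Z = zet ε N q0 a`, is stably
hyperbolic. `supp χ' ⊆ XD Xa W` (NES), `χ' + ε χ'ᴴ = Zᴴ a Z =: b'`. If `N ≤ 3`: `b' = 0`; `XD` is inverse closed without `x = x⁻¹` (DRC: `X2i`,
`X2n`), TAT (`δ = -ε`): `χ' = c1 - ε c1ᴴ`, so `UF ψ 0 χ'` follows from `UF ψ 0 0`, which is `(ψ, 1; 0, 0)`: `≅ hyp` (as `nu` = ..; e.g.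
SWP (3) after the exchange, or `NEI` with `q = 0`; or directly `u = (1, 0; -ψ, 1)`). If `3 ≤ N`: NEN and the hypothesis for `W`. -/
def SpecSTY : Prop :=
  ∀ (R G : Type) [Ring R] [StarRing R] [Group G] (L : Subgroup G) (g : G) (Xb Yp Ym : Set G),
    PPK L (La L g) Xb ∅ Yp Ym → ∀ (ε : ℤˣ) (n N : ℕ), 1 ≤ N →
    ∀ ψ χ : Matrix (Fin n) (Fin n) (MonoidAlgebra R G), SuppIn (La L g) ψ → SuppIn Xb χ →
    (nu ε (ψ + (ε : ℤ) • ψᴴ) 0 (χ + (ε : ℤ) • χᴴ)) ^ N = 0 →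
    (∀ i j x, (χ i j).coeff x ≠ 0 → ¬ Flip L x) →
    (∀ W : Set G, Hf L Xb W → 3 ≤ N → ∀ χ' : Matrix (Fin n) (Fin n) (MonoidAlgebra R G),
      SuppIn (XD (La L g) W) χ' →
      (nu ε (ψ + (ε : ℤ) • ψᴴ) 0 (χ' + (ε : ℤ) • χ'ᴴ)) ^ (N - 1) = 0 →
      StablyHyperbolic ε (UF ψ 0 χ')) →
    StablyHyperbolic ε (UF ψ 0 χ)

/-- **STX** (size 150, deps `SpecSBK`, `SpecBLK`, `SpecSYK`, `SpecBLG`): the blocks of the exchanged data.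

PROOF. Exchanged data: `SYK` (3), (4): `PPK L Xb (La L g) ∅ Ym Yp`, `Geo d L Xb (La L g) ∅ x2 x1`. For `f ∈ Xb`, `f f ∈ L`: `Sub1`: SBK (4). BLK, BLG:
the block is `PPK (Kg L f) (La (Kg L f) f) (BX L Xb (La L g) ∅ f) ∅ ..`, `Geo .. x2 (f x2)`, `f f x2 = x2`. `f x2 ≠ x1`: otherwise `f x1 = x2`,
`f g⁻¹` fixes `x2`.. : `g⁻¹ x1 = x2`, `g⁻¹ x2 = x1`, so `f g⁻¹` fixes `x1`, `x2`, so it is in `L` (`st`), `f ∈ La L g`, `f ∈ Ym` (`X1Y` with `1`), and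
`f ∈ Xb` gives `f ∈ Yp` (`X2Y` with `1`), so `f ∈ L` (`yy`): contradiction to `xh`. So `Nx d x1 x2 f` (BLG, third part, for the exchanged ends),
and the hypothesis `SE R G d x2 (f • x2)` applies with `g := f`. -/
def SpecSTX : Prop :=
  ∀ (R G V : Type) [Ring R] [StarRing R] [Group G] [MulAction G V] (d : V → V → ℕ), TM G d →
    ∀ (x1 x2 : V), (∀ f : G, Nx d x1 x2 f → SE R G d x2 (f • x2)) →
    ∀ (L : Subgroup G) (g : G) (Xb Yp Ym : Set G), PPK L (La L g) Xb ∅ Yp Ym →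
    Geo d L (La L g) Xb ∅ x1 x2 → g • x1 = x2 → g • x2 = x1 →
    ∀ f ∈ Xb, f * f ∈ L → Sub1 L Xb (La L g) ∅ Ym Yp {x | x ∈ Xb ∧ x ∉ dc L f} ∧
      Blk R (La (Kg L f) f) (BX L Xb (La L g) ∅ f)

/-- **STC** (size 200, deps `SpecSYK`, `SpecDRC`, `SpecDRG`, `SpecRMV`, `SpecSTY`, `SpecSTX`; imports `UV/SWP`, `UV/IND`): the step.

PROOF. Claim by induction on `N ≥ 1`: for all data of block type with the ends `x1`, `x2` (`L`, `g`, `Xb`, `Yp`, `Ym` with `PPK`, `Geo`,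
`g x1 = x2`, `g x2 = x1`), all `ε`, `n`, `ψ`, `χ` with supports in `La L g`, `Xb` and `ν^N = 0`: `UF ψ 0 χ` is stably hyperbolic. (`IsNilpotent` gives such
an `N ≥ 1`.) SWP (1): `UF ψ 0 χ` from `UF χ 0ᴴ ψ = UF χ 0 ψ`; `INDAux.swap_zero`: the exchanged `ν` has `ν^N = 0`. RMV for the exchanged data
(`H := L`, `X1 := Xb`, `X2 := La L g`, `X3 := ∅`, `Yp := Ym`, `Ym := Yp`), its hypothesis is STX: we get `χ0` without flips, `ν0^N = 0`;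
exchange back: it suffices that `UF ψ 0 χ0` is stably hyperbolic. STY: for `W`, `3 ≤ N`, `χ'`: induction hypothesis for `N - 1` and the data
`XD (La L g) W` (DRC, DRG). -/
def SpecSTC : Prop :=
  ∀ (R G V : Type) [Ring R] [StarRing R] [Group G] [MulAction G V] (d : V → V → ℕ), TM G d →
    ∀ (x1 x2 : V), (∀ f : G, Nx d x1 x2 f → SE R G d x2 (f • x2)) → SE R G d x1 x2

/-- **BAS** (size 120, deps `RO.SpecSBT`, `RO.SpecSBF`): the regular case.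

PROOF. Data of block type with the ends `x1`, `x2`: `L = stabilizer x1 ⊓ stabilizer x2` (`Subgroup.ext`, `st`); `subst`. `Loc L g (La L g) Xb Yp`:
`ag`: definition; `al`, `ar`, `ai`, `an`, `bl`, `br`, `bi`, `bn`, `y1`, `yl`: fields of `PingPong`; `ya`: `x y ∈ Ym`, `z (x y) ∈ Yp`; `dj`: `z (x t) = z' (x' t')`,
`x t, x' t' ∈ Ym`, `u2`: `l = z⁻¹ z' ∈ L`, so `x t = l x' t'`, `t' t⁻¹ = x'⁻¹ (l⁻¹ x)`, both `x'`, `l⁻¹ x ∈ La L g`, and `e⁻¹ e' ∈ L` for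
`e, e' ∈ La L g` (see DRA). SBT or SBF. -/
def SpecBAS : Prop :=
  ∀ (R G V : Type) [Ring R] [StarRing R] [Group G] [MulAction G V] (d : V → V → ℕ) (x1 x2 : V),
    Rg R G x1 x2 → SE R G d x1 x2

/-- **MNK** (size 250, deps `RO.SpecNWT`, `SpecSBK`, `SpecBLK`, `SpecSYK`, `SpecBLG`, `SpecRMV`; imports `UV/SWP`, `UV/IND`): the theorem for data.

PROOF. For `g ∈ X1`, `g g ∈ H`: SBK (4), BLK, BLG (ends `x1`, `g x1`; `g (g x1) = x1`) and `SE R G d x1 (g x1)`: the hypothesis of RMV. So it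
suffices to consider `ψ` without flips (`N ≥ 1` with `ν^N = 0`). Exchange (SWP (1), `INDAux.swap_zero`, SYK): RMV for the exchanged data
(`X2`, `X1`, `Xinv X3`, ends `x2`, `x1`): we may assume that `χ` has no flips. NWT. -/
def SpecMNK : Prop :=
  ∀ (R G V : Type) [Ring R] [StarRing R] [Group G] [MulAction G V] (d : V → V → ℕ), TM G d →
    ∀ (H : Subgroup G) (X1 X2 X3 Yp Ym : Set G) (x1 x2 : V), PPK H X1 X2 X3 Yp Ym →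
    Geo d H X1 X2 X3 x1 x2 → (∀ g ∈ X1, g * g ∈ H → SE R G d x1 (g • x1)) →
    (∀ g ∈ X2, g * g ∈ H → SE R G d x2 (g • x2)) →
    ∀ (ε : ℤˣ) (n : ℕ) (ψ μ χ : Matrix (Fin n) (Fin n) (MonoidAlgebra R G)), SuppIn X1 ψ →
    SuppIn X3 μ → SuppIn X2 χ →
    IsNilpotent (nu ε (ψ + (ε : ℤ) • ψᴴ) μ (χ + (ε : ℤ) • χᴴ)) → StablyHyperbolic ε (UF ψ μ χ)

/-- **FNK** (size 200, deps `SpecTRK`, `SpecTRG`, `SpecFPT`, `SpecSTC`, `SpecBAS`, `SpecMNK`): the theorem for trees.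

PROOF. `Gd R G d x1 x2 → SE R G d x1 x2` by induction on `Gd` (BAS, STC). TRK, TRG, FPT, MNK with `x1 = w`, `x2 = v`. Second part: if `k ≤ d x y` and
`x`, `y` are exchanged then `Gd x y` (`reg`). For all `m` and all exchanged (or arbitrary) `x1 ≠ x2` with `k ≤ d x1 x2 + m`, `x1`, `x2` exchanged:
`Gd x1 x2`, by induction on `m`: `m = 0`: `reg`. Step: `Nx d x1 x2 f`: `f` exchanges `x2` and `f x2`, `d x2 (f x2) = d x2 x1 + d x1 (f x2) ≥ d x1 x2 + 1`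
(`d x1 (f x2) > 0` as `f x2 ≠ x1`). For `g` with `g v = v`, `g w ≠ w`, `g g w = w`: `w`, `g w` are exchanged by `g`. -/
def SpecFNK : Prop :=
  ∀ (R G V : Type) [Ring R] [StarRing R] [Group G] [MulAction G V] (T : SimpleGraph V) (v w : V),
    T.IsTree → (∀ (g : G) (x y : V), T.Adj x y → T.Adj (g • x) (g • y)) → T.Adj v w →
    (∀ g : G, ¬ (g • v = w ∧ g • w = v)) →
    (∀ g : G, g * g = 1 → (g • v = v ↔ g • w = w)) →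
    ((∀ g : G, g • v = v → g • w ≠ w → g • g • w = w → Gd R G T.dist w (g • w)) →
      (∀ g : G, g • w = w → g • v ≠ v → g • g • v = v → Gd R G T.dist v (g • v)) →
      ∀ (ε : ℤˣ) (n : ℕ) (ψ μ χ : Matrix (Fin n) (Fin n) (MonoidAlgebra R G)),
        SuppIn {g | g • v = v ∧ g • w ≠ w} ψ → SuppIn {g | g • v = w} μ →
        SuppIn {g | g • w = w ∧ g • v ≠ v} χ →
        IsNilpotent (nu ε (ψ + (ε : ℤ) • ψᴴ) μ (χ + (ε : ℤ) • χᴴ)) →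
        StablyHyperbolic ε (UF ψ μ χ)) ∧
    ∀ k : ℕ, (∀ x y : V, k ≤ T.dist x y → (∃ g : G, g • x = y ∧ g • y = x) → Rg R G x y) →
      ∀ (ε : ℤˣ) (n : ℕ) (ψ μ χ : Matrix (Fin n) (Fin n) (MonoidAlgebra R G)),
        SuppIn {g | g • v = v ∧ g • w ≠ w} ψ → SuppIn {g | g • v = w} μ →
        SuppIn {g | g • w = w ∧ g • v ≠ v} χ →
        IsNilpotent (nu ε (ψ + (ε : ℤ) • ψᴴ) μ (χ + (ε : ℤ) • χᴴ)) →
        StablyHyperbolic ε (UF ψ μ χ)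

end Pool.Agent.Lib.MP8a3537.ROK
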